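import Pool.Agent.Lib.MP_3240be_co.CO.Base

/-!
# MP_3240be_co, Theorem CORE, row ARK: the part without the host

For every passenger index `i` a clique `e i` of kinds of one class and one damage vector is chosen;
RULE 2 says that the damage vector is empty.  The label of `i` is (darts of colour `!b` of the
passenger sets `(j, i)`, kind `e i 0`), the damage at `i` is small; `ari` gives an undamaged blob.
-/

set_option autoImplicit false

namespace MP3240CO

open Finset

section
variable {n s q r t N₂ : ℕ} {Dt Bl J Q : Type}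

/-- Many blobs of kind `w` with a slot edge of the main colour. -/
def AriBig (kd : Bl → Fin q) (ty : Bl → Fin s → Dt) (io : Bl → Fin s → J) (N₂ : ℕ)
    (cl : Fin q → Q) (mn : Q → Bool) (da : Bool → Fin s → J → Dt)
    (zs : Dt → Fin s → J → Bool → Bl → Fin n → Bool)
    (sg : Fin s → J → (Fin s → Dt) → Fin n → Bl → (Fin t → Bool))
    (P : Fin s → Bool → Fin n → Prop) (i : J) (w : Fin q) (j : Fin s)
    (x : (Fin s → Dt) × Bool × Fin n × (Fin t → Bool)) : Prop :=
  P j x.2.1 x.2.2.1 ∧ x.1 j = da (mn (cl w)) j i ∧ ∃ ν : Fin N₂ → Bl, Function.Injective ν ∧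
    ∀ y, kd (ν y) = w ∧ ty (ν y) = x.1 ∧ io (ν y) j = i ∧
      zs (x.1 j) j i x.2.1 (ν y) x.2.2.1 = mn (cl w) ∧ sg j i x.1 x.2.2.1 (ν y) = x.2.2.2

/-- An undamaged blob. -/
theorem ari [Finite Bl] (hr : 1 ≤ r) (hs : 1 ≤ s) (W : SimpleGraph (Fin q)) (kd : Bl → Fin q)
    (ty : Bl → Fin s → Dt) (io : Bl → Fin s → J)
    (hrob : ∀ (lab : J → (Fin s → Dt) × Fin q) (bad : J → Finset Bl),
      (∀ k, (bad k).card ≤ 2 * s * n * 2 ^ t * N₂) →
      ∃ b, ∀ j, lab (io b j) = (ty b, kd b) ∧ b ∉ bad (io b j))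
    (hW : ∀ κ : Fin q → Q × Dam s n t (Fin s → Dt), ∃ e : Fin r → Fin q,
      (∀ j j', j ≠ j' → W.Adj (e j) (e j')) ∧ ∀ j j', κ (e j) = κ (e j'))
    (cl : Fin q → Q) (mn : Q → Bool) (da : Bool → Fin s → J → Dt)
    (zs : Dt → Fin s → J → Bool → Bl → Fin n → Bool)
    (sg : Fin s → J → (Fin s → Dt) → Fin n → Bl → (Fin t → Bool))
    (P : Fin s → Bool → Fin n → Prop)
    (hR2 : ∀ K : Fin r → Fin q, (∀ a a', a ≠ a' → W.Adj (K a) (K a')) →
      (∀ a a', cl (K a) = cl (K a')) → ∀ (a₀ : Fin r) (j : Fin s) (i : J) (e : Bool) (v : Fin n),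
      P j e v → ∀ φ : Fin s → Dt, φ j = da (mn (cl (K a₀))) j i → ∀ (g : Fin t → Bool)
      (ν : Fin r → Fin N₂ → Bl), (∀ a, Function.Injective (ν a)) →
      (∀ a x, kd (ν a x) = K a ∧ ty (ν a x) = φ ∧ io (ν a x) j = i) →
      (∀ a x, zs (φ j) j i e (ν a x) v = mn (cl (K a₀))) →
      (∀ a x, sg j i φ v (ν a x) = g) → False) :
    ∃ (b : Bl) (K : Fin r → Fin q) (a₀ : Fin r), (∀ a a', a ≠ a' → W.Adj (K a) (K a')) ∧
      (∀ a a', cl (K a) = cl (K a')) ∧ kd b = K a₀ ∧
      (∀ j, ty b j = da (mn (cl (kd b))) j (io b j)) ∧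
      ∀ j e v, P j e v → zs (ty b j) j (io b j) e b v = !(mn (cl (kd b))) := by
  classical
  have := Fintype.ofFinite Bl
  set a₀ : Fin r := ⟨0, hr⟩ with ha₀
  -- the damage vectors
  let Big := AriBig (n := n) (t := t) kd ty io N₂ cl mn da zs sg P
  let dam : J → Fin q → Dam s n t (Fin s → Dt) := fun i w j =>
    if h : ∃ x, Big i w j x then some h.choose else none
  have hdam : ∀ i w j x, dam i w j = some x → Big i w j x := by
    intro i w j x hx
    by_cases h : ∃ x, Big i w j x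
    · have h1 : dam i w j = some h.choose := dif_pos h
      rw [h1] at hx
      rw [← Option.some.inj hx]
      exact h.choose_spec
    · have h1 : dam i w j = none := dif_neg h
      rw [h1] at hx
      exact absurd hx (by simp)
  have hdam' : ∀ i w j, dam i w j = none → ∀ x, ¬ Big i w j x := by
    intro i w j hx x hxx
    have h : ∃ x, Big i w j x := ⟨x, hxx⟩
    have h1 : dam i w j = some h.choose := dif_pos h
    rw [h1] at hx
    exact absurd hx (by simp)
  choose e hadj hcon using fun i : J => hW (fun w => (cl w, dam i w))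
  have hcl : ∀ i a a', cl (e i a) = cl (e i a') := fun i a a' =>
    congrArg Prod.fst (hcon i a a')
  have hdd : ∀ i a a', dam i (e i a) = dam i (e i a') := fun i a a' =>
    congrArg Prod.snd (hcon i a a')
  have hnone : ∀ i j, dam i (e i a₀) j = none := by
    intro i j
    by_contra hne
    obtain ⟨x, hx⟩ := Option.ne_none_iff_exists'.1 hne
    have hb : ∀ a, Big i (e i a) j x := fun a => hdam i (e i a) j x (by
      rw [hdd i a a₀]
      exact hx)
    choose ν hν hν' using fun a => (hb a).2.2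
    refine hR2 (e i) (hadj i) (hcl i) a₀ j i x.2.1 x.2.2.1 (hb a₀).1 x.1 (hb a₀).2.1 x.2.2.2 ν hν
      (fun a y => ⟨(hν' a y).1, (hν' a y).2.1, (hν' a y).2.2.1⟩) (fun a y => ?_)
      (fun a y => (hν' a y).2.2.2.2)
    rw [(hν' a y).2.2.2.1, hcl i a a₀]
  -- labels and damage
  let lab : J → (Fin s → Dt) × Fin q := fun i =>
    (fun j => da (mn (cl (e i a₀))) j i, e i a₀)
  let bad : J → Finset Bl := fun i => univ.filter (fun b' => ty b' = (lab i).1 ∧ kd b' = e i a₀ ∧
    ∃ j, io b' j = i ∧ ∃ ed v, P j ed v ∧ zs (ty b' j) j i ed b' v = mn (cl (e i a₀)))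
  have hbad : ∀ i, (bad i).card ≤ 2 * s * n * 2 ^ t * N₂ := by
    intro i
    let piece : Fin s × Bool × Fin n × (Fin t → Bool) → Finset Bl := fun y =>
      univ.filter (fun b' => P y.1 y.2.1 y.2.2.1 ∧ kd b' = e i a₀ ∧ ty b' = (lab i).1 ∧
        io b' y.1 = i ∧ zs ((lab i).1 y.1) y.1 i y.2.1 b' y.2.2.1 = mn (cl (e i a₀)) ∧
        sg y.1 i (lab i).1 y.2.2.1 b' = y.2.2.2)
    have h1 : bad i ⊆ univ.biUnion piece := by
      intro b' hb'
      obtain ⟨-, h2, h3, j, h4, ed, v, h5, h6⟩ := mem_filter.1 hb'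
      refine mem_biUnion.2 ⟨(j, ed, v, sg j i (lab i).1 v b'), mem_univ _, mem_filter.2
        ⟨mem_univ _, h5, h3, h2, h4, ?_, rfl⟩⟩
      rw [← h2]
      exact h6
    have h2 : ∀ y ∈ (univ : Finset (Fin s × Bool × Fin n × (Fin t → Bool))),
        (piece y).card ≤ N₂ := by
      intro y _
      by_contra hcon'
      have hlt : N₂ ≤ (piece y).card := by omega
      have hpos : 0 < (piece y).card := by omega
      obtain ⟨b', hb'⟩ := card_pos.1 hpos
      have hP := (mem_filter.1 hb').2.1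
      refine hdam' i (e i a₀) y.1 (hnone i y.1) ((lab i).1, y.2.1, y.2.2.1, y.2.2.2)
        ⟨hP, rfl, fun x => ((piece y).equivFin.symm ⟨x, lt_of_lt_of_le x.2 hlt⟩).1, ?_, ?_⟩
      · intro x x' hx
        have h3 := (piece y).equivFin.symm.injective (Subtype.ext hx)
        exact Fin.ext (Fin.mk.inj h3)
      · intro x
        obtain ⟨-, -, h4, h5, h6, h7, h8⟩ := mem_filter.1
          ((piece y).equivFin.symm ⟨x, lt_of_lt_of_le x.2 hlt⟩).2
        exact ⟨h4, h5, h6, h7, h8⟩
    calc (bad i).card ≤ (univ.biUnion piece).card := card_le_card h1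
      _ ≤ (univ : Finset (Fin s × Bool × Fin n × (Fin t → Bool))).card * N₂ :=
          card_biUnion_le_card_mul _ _ _ h2
      _ = 2 * s * n * 2 ^ t * N₂ := by
          rw [card_univ, Fintype.card_prod, Fintype.card_prod, Fintype.card_prod,
            Fintype.card_fin, Fintype.card_bool, Fintype.card_fin, Fintype.card_fun,
            Fintype.card_bool, Fintype.card_fin]
          ring
  obtain ⟨b, hb⟩ := hrob lab bad hbad
  have hw : ∀ j, e (io b j) a₀ = kd b := fun j => congrArg Prod.snd (hb j).1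
  have hty : ∀ j, (lab (io b j)).1 = ty b := fun j => congrArg Prod.fst (hb j).1
  set j₀ : Fin s := ⟨0, hs⟩ with hj₀
  refine ⟨b, e (io b j₀), a₀, hadj _, hcl _, (hw j₀).symm, ?_, ?_⟩
  · intro j
    have h1 := congrFun (hty j) j
    rw [← h1]
    show da (mn (cl (e (io b j) a₀))) j (io b j) = _
    rw [hw j]
  · intro j ed v hP
    have h1 := (hb j).2
    by_contra hne
    apply h1
    refine mem_filter.2 ⟨mem_univ _, (hty j).symm, (hw j).symm, j, rfl, ed, v, hP, ?_⟩
    rw [hw j]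
    revert hne
    cases zs (ty b j) j (io b j) ed b v <;> cases mn (cl (kd b)) <;> simp

end

end MP3240CO
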