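import Pool.Agent.Lib.MP_3240be_co.CO.Base

/-!
# MP_3240be_co, Theorem CORE: placing `H` on an undamaged blob

`X'` on hubs, the ends of the special pairs on passengers, the inner vertices on the slots of the
blob.  Used by row ARK.
-/

set_option autoImplicit false

namespace MP3240CO

open Finset MP3240T MP3240W

/-- Every vertex is in `X'`, an end of a special pair, or inner. -/
theorem plc_cases {n s : ℕ} (X' : Finset (Fin n)) (xs ys : Fin s → Fin n) (w : Fin n) :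
    w ∈ X' ∨ (∃ j, w = xs j) ∨ (∃ j, w = ys j) ∨ Inn X' xs ys w := by
  by_cases h1 : w ∈ X'
  · exact Or.inl h1
  by_cases h2 : ∃ j, w = xs j
  · exact Or.inr (Or.inl h2)
  by_cases h3 : ∃ j, w = ys j
  · exact Or.inr (Or.inr (Or.inl h3))
  · push Not at h2 h3
    exact Or.inr (Or.inr (Or.inr ⟨h1, fun j => ⟨h2 j, h3 j⟩⟩))

/-- `v` is the place of `w`. -/
inductive Plc {n s : ℕ} (X' : Finset (Fin n)) (xs ys : Fin s → Fin n) {V : Type} (hub : Fin n → V)
    (zx zy : Fin s → V) (lw : Fin n → V) : Fin n → V → Prop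
  | h : ∀ w, w ∈ X' → Plc X' xs ys hub zx zy lw w (hub w)
  | x : ∀ j, Plc X' xs ys hub zx zy lw (xs j) (zx j)
  | y : ∀ j, Plc X' xs ys hub zx zy lw (ys j) (zy j)
  | l : ∀ w, Inn X' xs ys w → Plc X' xs ys hub zx zy lw w (lw w)

/-- The copy of `H` on an undamaged blob. -/
theorem place {n s : ℕ} {H : SimpleGraph (Fin n)} {X' : Finset (Fin n)} {xs ys : Fin s → Fin n}
    (hX : XG H X' xs ys) (hI : Ind H X') {V : Type} {G : SimpleGraph V} {c : V → V → Bool}
    (hc : ∀ x y, c x y = c y x) (e : Bool) {hub : Fin n → V} {zx zy : Fin s → V} {lw : Fin n → V}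
    (ihub : ∀ w ∈ X', ∀ w' ∈ X', hub w = hub w' → w = w')
    (ilw : ∀ w w', Inn X' xs ys w → Inn X' xs ys w' → lw w = lw w' → w = w')
    (izx : Function.Injective zx) (izy : Function.Injective zy) (hxy : ∀ j j', zx j ≠ zy j')
    (hhx : ∀ w ∈ X', ∀ j, hub w ≠ zx j) (hhy : ∀ w ∈ X', ∀ j, hub w ≠ zy j)
    (hhl : ∀ w ∈ X', ∀ w', hub w ≠ lw w')
    (hxl : ∀ j w, zx j ≠ lw w) (hyl : ∀ j w, zy j ≠ lw w)
    (ezz : ∀ j, G.Adj (zx j) (zy j) ∧ c (zx j) (zy j) = e)
    (exl : ∀ j w, Inn X' xs ys w → H.Adj (xs j) w → G.Adj (zx j) (lw w) ∧ c (zx j) (lw w) = e)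
    (eyl : ∀ j w, Inn X' xs ys w → H.Adj (ys j) w → G.Adj (zy j) (lw w) ∧ c (zy j) (lw w) = e)
    (ell : ∀ w w', Inn X' xs ys w → Inn X' xs ys w' → H.Adj w w' →
      G.Adj (lw w) (lw w') ∧ c (lw w) (lw w') = e)
    (ehl : ∀ w w', w ∈ X' → Inn X' xs ys w' → H.Adj w w' →
      G.Adj (hub w) (lw w') ∧ c (hub w) (lw w') = e) : Emb H (cls G c e) := by
  have hex : ∀ w, ∃ v, Plc X' xs ys hub zx zy lw w v := by
    intro w
    rcases plc_cases X' xs ys w with h | ⟨j, rfl⟩ | ⟨j, rfl⟩ | h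
    · exact ⟨_, Plc.h w h⟩
    · exact ⟨_, Plc.x j⟩
    · exact ⟨_, Plc.y j⟩
    · exact ⟨_, Plc.l w h⟩
  choose f hf using hex
  -- the places determine the vertices
  have inj : ∀ w v, Plc X' xs ys hub zx zy lw w v → ∀ w' v', Plc X' xs ys hub zx zy lw w' v' →
      v = v' → w = w' := by
    rintro _ _ (⟨w, h1⟩ | ⟨j⟩ | ⟨j⟩ | ⟨w, h1⟩) _ _ (⟨w', h2⟩ | ⟨j'⟩ | ⟨j'⟩ | ⟨w', h2⟩) h
    · exact ihub _ h1 _ h2 h
    · exact absurd h (hhx _ h1 _)
    · exact absurd h (hhy _ h1 _)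
    · exact absurd h (hhl _ h1 _)
    · exact absurd h.symm (hhx _ h2 _)
    · exact congrArg xs (izx h)
    · exact absurd h (hxy _ _)
    · exact absurd h (hxl _ _)
    · exact absurd h.symm (hhy _ h2 _)
    · exact absurd h.symm (hxy _ _)
    · exact congrArg ys (izy h)
    · exact absurd h (hyl _ _)
    · exact absurd h.symm (hhl _ h2 _)
    · exact absurd h.symm (hxl _ _)
    · exact absurd h.symm (hyl _ _)
    · exact ilw _ _ h1 h2 h
  have flip : ∀ {a b : V}, G.Adj a b ∧ c a b = e → G.Adj b a ∧ c b a = e := fun h =>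
    ⟨h.1.symm, (hc _ _).trans h.2⟩
  have key : ∀ w v, Plc X' xs ys hub zx zy lw w v → ∀ w' v', Plc X' xs ys hub zx zy lw w' v' →
      H.Adj w w' → G.Adj v v' ∧ c v v' = e := by
    rintro _ _ (⟨w, h1⟩ | ⟨j⟩ | ⟨j⟩ | ⟨w, h1⟩) _ _ (⟨w', h2⟩ | ⟨j'⟩ | ⟨j'⟩ | ⟨w', h2⟩) h
    · exact absurd h (hI _ h1 _ h2)
    · exact absurd h (hX.off j' _ h1).2.2.1
    · exact absurd h (hX.off j' _ h1).2.2.2
    · exact ehl _ _ h1 h2 h
    · exact absurd h.symm (hX.off j _ h2).2.2.1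
    · by_cases hj : j = j'
      · subst hj
        exact absurd h (H.loopless.irrefl _)
      · exact absurd h (hX.ind j j' hj).2.2.2.2.1
    · by_cases hj : j = j'
      · subst hj
        exact ezz j
      · exact absurd h (hX.ind j j' hj).2.2.2.2.2.1
    · exact exl j _ h2 h
    · exact absurd h.symm (hX.off j _ h2).2.2.2
    · by_cases hj : j = j'
      · subst hj
        exact flip (ezz j)
      · exact absurd h (hX.ind j j' hj).2.2.2.2.2.2.1
    · by_cases hj : j = j'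
      · subst hj
        exact absurd h (H.loopless.irrefl _)
      · exact absurd h (hX.ind j j' hj).2.2.2.2.2.2.2
    · exact eyl j _ h2 h
    · exact flip (ehl _ _ h2 h1 h.symm)
    · exact flip (exl j' _ h1 h.symm)
    · exact flip (eyl j' _ h1 h.symm)
    · exact ell _ _ h1 h2 h
  exact ⟨f, fun w w' h => inj w _ (hf w) w' _ (hf w') h, fun w w' h =>
    ⟨(key w _ (hf w) w' _ (hf w') h).1, (key w _ (hf w) w' _ (hf w') h).2,
      (hc _ _).trans (key w _ (hf w) w' _ (hf w') h).2⟩⟩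

end MP3240CO
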