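import Pool.Agent.Lib.MP_3240be_co.CO.Defs
import Pool.Agent.Lib.MP_3240be_co.CO.Ari
import Pool.Agent.Lib.MP_3240be_co.CO.Plc
import Pool.Agent.Lib.MP_3240be_co.C4.Arc

/-!
# MP_3240be_co, Theorem CORE, row ARK: the host is Ramsey for `H`
-/

set_option autoImplicit false

namespace MP3240CO

open Finset MP3240T MP3240W
open MP3240N (Sig BigC CopyB Homog)
open MP3240M (MData)
open MP3240C.Arc (bne2 linear)
open Pool.Agent.Lib.MP_3240be_co.H36 (LocCol Blow)
open Pool.Agent.Lib.MP_3240be_co.H36.Chrom (Sparse Leaf)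

/-- The main colour of a class. -/
noncomputable def mnQ {n r g : ℕ} (σ : QK n r g) : Bool := decide ((σ.2.1 true : ℕ) = 1)

theorem mnQ_eq {n h s q L₀ b₀ hr hb r : ℕ} {H : SimpleGraph (Fin n)} {J I M C : Type}
    {B : SimpleGraph (Fin b₀)} {T : Fin q → SimpleGraph (Fin L₀)} {K' : Fin q → Type}
    {c : VO H h s q L₀ I M J C → VO H h s q L₀ I M J C → Bool} {W : SimpleGraph (Fin q)}
    {Cs : Classes r B T K' c} {i : I} {K : Fin r → Fin q} {b : Bool} (hr2 : 2 ≤ r)
    (hF : Fine hr hb W Cs i K b) (a : Fin r) : mnQ (Cs.s i (K a)) = b := by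
  have h1 := hF.one a
  have h2 := hF.num a
  unfold mnQ
  cases b with
  | true => simp [h1]
  | false =>
    simp only [Bool.not_false] at h2
    simp only [decide_eq_false_iff_not]
    omega

/-- Row ARK. -/
theorem ark_proof (hCla : ClaStatement) (hHst : HstStatement) (hTon : TonStatement)
    (hRu1 : Ru1Statement) : ArkStatement := by
  classical
  intro n d hr hb s q L₀ b₀ t r sp N₂ H L D0 X₀ Bl J I M C hBl hJ hI hM W T K' D δ X B hr2 hs
    hb₀ hsp hEx hIX hX₀ hIX' hX'c hXG hio hRob hW hHom hδ hSp hhyp hR2 c hc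
  by_contra hcon
  have hno : ∀ b, ¬ Emb H (cls (FO W T D δ X) c b) := fun b hb => hcon ⟨b, hb⟩
  have hMf : Fintype M := Fintype.ofFinite M
  set j0 : Fin s := ⟨0, hs⟩ with hj0
  have hn2 : 2 ≤ n := by
    have h1 := (D.xs j0).isLt
    have h2 := (D.ys j0).isLt
    have h3 : (D.xs j0).val ≠ (D.ys j0).val := fun e => (hXG.adj j0).ne (Fin.ext e)
    omega
  have hnn : 2 ≤ n * n := by nlinarith
  obtain ⟨Cs⟩ := hCla n (hr + hb) hr s q L₀ b₀ t r sp H D0 Bl J I M C W T K' D δ X B c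
    (by omega) hb₀ hHom hEx.bl hc hno
  have hst : ∀ (i : I) (S : Fin sp → VO H (hr + hb) s q L₀ I M J C), Nonempty (Hst Cs i S) :=
    fun i S => hHst n (hr + hb) s q L₀ b₀ r sp H J I M C T K' B c hHom Cs i S
  have ru1 := hRu1 n d hr hb s q L₀ b₀ t r sp H L D0 X₀ Bl J I M C W T K' D δ X B c hr2 hsp hEx
    hIX hX₀ hc hno Cs hst
  let lab : I → Fin q → QK n r (hr + hb) × Fin L₀ := fun i w => (Cs.s i w, Cs.ps i w)
  let pos : I → Fin q → Fin L₀ := fun i w => Cs.ps i w
  -- the bad hyperedges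
  let badw : I → Fin q → Finset M := fun i w => univ.filter (fun m =>
    (∀ y y', lab (δ m y) = lab (δ m y')) ∧ ∃ (K : Fin r → Fin q) (b : Bool)
      (a0 : Fin r), Fine hr hb W Cs i K b ∧ K a0 = w ∧ ∃ (β : Bl) (v v' : Fin n),
        δ m ((β, v), pos i) = i ∧ D.kd β = w ∧ H.Adj v v' ∧ D.inr v ∧ D.inr v' ∧
          c (lowO D δ m (pos i) β v) (lowO D δ m (pos i) β v') = b)
  have hbadw : ∀ i w, (badw i w).card ≤ n := by
    intro i w
    by_contra hlt
    have hne : (badw i w).Nonempty := card_pos.1 (by omega)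
    obtain ⟨m0, hm0⟩ := hne
    obtain ⟨_, K, b, a0, hK, hKw, _⟩ := (mem_filter.1 hm0).2
    have h1 : ∀ m : {m // m ∈ badw i w}, ∃ (β : Bl) (v v' : Fin n),
        δ m.1 ((β, v), pos i) = i ∧ D.kd β = w ∧ H.Adj v v' ∧ D.inr v ∧ D.inr v' ∧
          c (lowO D δ m.1 (pos i) β v) (lowO D δ m.1 (pos i) β v') = b := by
      intro m
      obtain ⟨_, K1, b1, a1, hK1, hKw1, β, v, v', h2, h3, h4, h5, h6, h7⟩ := (mem_filter.1 m.2).2
      have hbb : b1 = b := by
        rw [← mnQ_eq hr2 hK1 a1, ← mnQ_eq hr2 hK a0, hKw, hKw1]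
      exact ⟨β, v, v', h2, h3, h4, h5, h6, h7.trans hbb⟩
    choose β v v' ht hk hvv hv hv' hcol using h1
    have hlow : ∀ m, lowO D δ m.1 (pos i) (β m) (v m) =
        (.l i w (pos i w) : VO H (hr + hb) s q L₀ I M J C) := by
      intro m
      simp only [lowO, ht m, hk m]
    have hlow' : ∀ m, lowO D δ m.1 (pos i) (β m) (v' m) =
        (.l (δ m.1 ((β m, v' m), pos i)) w (pos i w) : VO H (hr + hb) s q L₀ I M J C) := by
      intro m
      simp only [lowO, hk m]
    let S : Finset (VO H (hr + hb) s q L₀ I M J C) :=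
      univ.image (fun m => lowO D δ m.1 (pos i) (β m) (v' m))
    have hScard : n ≤ S.card := by
      rw [card_image_of_injective, card_univ, Fintype.card_coe]
      · omega
      · intro m m' hmm
        by_contra hne
        have hne' : m.1 ≠ m'.1 := fun e => hne (Subtype.ext e)
        have hmm' : lowO D δ m.1 (pos i) (β m) (v' m) =
            (lowO D δ m'.1 (pos i) (β m') (v' m') : VO H (hr + hb) s q L₀ I M J C) := hmm
        rw [hlow' m, hlow' m'] at hmm'
        injection hmm' with e1 _ _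
        have h4 := linear hnn hSp hne' (a := ((β m, v m), pos i)) (a' := ((β m', v m'), pos i))
          (b := ((β m, v' m), pos i)) (b' := ((β m', v' m'), pos i))
          ((ht m).trans (ht m').symm) e1
        have h5 := congrArg (fun t : SO Bl n q L₀ => t.1.2) (hδ _ h4)
        exact (hvv m).ne h5
    refine ru1 i K b hK i w (pos i w) a0 S ?_ ?_ ?_ ?_ hScard
    · intro a ha
      rw [← hKw]
      exact hK.adj a0 a (Ne.symm ha)
    · intro a ha
      obtain ⟨m, _, rfl⟩ := mem_image.1 ha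
      refine ⟨δ m.1 ((β m, v' m), pos i), pos i w, ?_⟩
      rw [hKw]
      exact hlow' m
    · intro a ha k hk
      obtain ⟨m, _, rfl⟩ := mem_image.1 ha
      have e1 := ((mem_filter.1 m.2).2.1 ((β m, v m), pos i) ((β m, v' m), pos i)).symm
      rw [ht m] at e1
      have e2 := congrFun e1 w
      have e3 := congrArg Prod.fst e2
      have e4 := congrArg Prod.snd e2
      simp only [lab] at e3 e4
      have e5 := Cs.hps (δ m.1 ((β m, v' m), pos i)) w k
      rw [hKw] at hk
      rw [e3, e4, hk] at e5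
      show c (.u k) (lowO D δ m.1 (pos i) (β m) (v' m)) = b
      rw [hlow' m]
      exact e5
    · intro a ha
      obtain ⟨m, _, rfl⟩ := mem_image.1 ha
      have e1 := adj_bb (h := hr + hb) W T D δ X hδ (hvv m) (hv m) (hv' m) m.1 (pos i) (β m)
      have e2 := hcol m
      rw [hlow m] at e1 e2
      exact ⟨e1, e2⟩
  obtain ⟨m, hm1, hm2⟩ := hhyp lab (fun i => univ.biUnion (fun w => badw i w)) (fun i => by
    refine (card_biUnion_le).trans ?_
    refine (sum_le_card_nsmul _ _ n (fun w _ => hbadw i w)).trans ?_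
    rw [card_univ, Fintype.card_fin, smul_eq_mul])
  -- a kind, a blob, a position
  obtain ⟨w0⟩ : Nonempty (Fin q) := by
    obtain ⟨e, _⟩ := hW (fun _ => ((fun _ => true, fun _ => 0, fun _ _ => true),
      fun _ => none))
    exact ⟨e ⟨0, by omega⟩⟩
  let dt0 : H.Dart := ⟨(D.xs j0, D.ys j0), hXG.adj j0⟩
  obtain ⟨β0, -⟩ := hRob (fun _ => (fun _ => dt0, w0)) (fun _ => ∅) (fun _ => by simp)
  obtain ⟨x0⟩ : Nonempty (Fin L₀) := by
    obtain ⟨σ, hσ⟩ := hHom.sel w0 (fun _ _ => true)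
      (fun _ => (fun _ => true, fun _ => 0, fun _ _ => true))
    obtain ⟨k0⟩ := hHom.ne w0
    obtain ⟨e, -, -⟩ := hσ (fun _ => k0)
    exact ⟨e ⟨0, hb₀⟩⟩
  let t0 : SO Bl n q L₀ := ((β0, D.xs j0), fun _ => x0)
  let i1 : I := δ m t0
  let ps0 : Fin q → Fin L₀ := pos i1
  have hlab : ∀ y, lab (δ m y) = lab i1 := fun y => hm1 y t0
  have hs1 : ∀ y w, Cs.s (δ m y) w = Cs.s i1 w := fun y w =>
    congrArg Prod.fst (congrFun (hlab y) w)
  have hp1 : ∀ y w, Cs.ps (δ m y) w = Cs.ps i1 w := fun y w =>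
    congrArg Prod.snd (congrFun (hlab y) w)
  have hpos : ∀ y, pos (δ m y) = ps0 := fun y => funext (fun w => hp1 y w)
  -- the colours of the hubs at the slots of the gadget
  have hucol : ∀ β v k, c (.u k) (lowO D δ m ps0 β v) = (Cs.s i1 (D.kd β)).1 k := by
    intro β v k
    have e5 := Cs.hps (δ m ((β, v), ps0)) (D.kd β) k
    rw [hs1, hp1] at e5
    exact e5
  -- fine kinds
  have hfine : ∀ K : Fin r → Fin q, (∀ a a', a ≠ a' → W.Adj (K a) (K a')) →
      (∀ a a', Cs.s i1 (K a) = Cs.s i1 (K a')) → ∀ a₀ y,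
      Fine hr hb W Cs (δ m y) K (mnQ (Cs.s i1 (K a₀))) := by
    intro K hK hKc a₀ y
    obtain ⟨Z⟩ := hst i1 (fun _ => .z m ps0 j0 (D.io β0 j0) (D.xs j0))
    obtain ⟨⟨b, hF⟩, -⟩ := hTon n d hr hb s q L₀ b₀ t r sp H L D0 X₀ Bl J I M C W T K' D δ X B c
      hr2 hEx hIX hX₀ hc hno Cs i1 _ Z K hK hKc
    rw [mnQ_eq hr2 hF a₀]
    exact
      { adj := hF.adj
        same := fun a a' => (hs1 y _).trans ((hF.same a a').trans (hs1 y _).symm)
        one := fun a => by rw [hs1]; exact hF.one a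
        num := fun a => by rw [hs1]; exact hF.num a
        hub := fun a => by rw [hs1]; exact hF.hub a
        hub' := fun a => by rw [hs1]; exact hF.hub' a }
  -- darts of both colours
  have hda : ∀ (b : Bool) (j : Fin s) (k : J), ∃ f : H.Dart,
      c (.z m ps0 j k f.fst) (.z m ps0 j k f.snd) = !b := by
    intro b j k
    by_contra hcon2
    push Not at hcon2
    have hall : ∀ v v', H.Adj v v' → c (.z m ps0 j k v) (.z m ps0 j k v') = b := by
      intro v v' hvv
      have h1 := hcon2 ⟨(v, v'), hvv⟩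
      have h2 := bne2 _ _ h1
      rw [Bool.not_not] at h2
      exact h2
    refine hno b ⟨fun v => .z m ps0 j k v, ?_, fun v v' hvv =>
      ⟨adj_zz W T D δ X hvv m ps0 j k, hall v v' hvv, hall v' v hvv.symm⟩⟩
    intro v v' hvv
    injection hvv
  choose da hda using hda
  obtain ⟨β, K, a₀, hK, hKc, hkd, hty, hzs⟩ := ari (n := n) (t := t) (N₂ := N₂) (by omega) hs W
    D.kd D.ty D.io hRob hW (fun w => Cs.s i1 w) mnQ da
    (fun dt j k e β v => c (.z m ps0 j k (if e then dt.snd else dt.fst)) (lowO D δ m ps0 β v))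
    (fun j k φ v β y => c (.g m ps0 j k φ v (X.tw y)) (lowO D δ m ps0 β v))
    (fun j e v => D.inr v ∧ if e then H.Adj v (D.ys j) else H.Adj v (D.xs j))
    (by
      intro K hK hKc a₀ j k e v hP φ _ g ν hν hν2 hz hg
      refine hR2 c hc hno Cs hst m K (mnQ (Cs.s i1 (K a₀))) (hfine K hK hKc a₀)
        (fun y y' => funext fun w => (hs1 y w).trans (hs1 y' w).symm) ps0 j k φ v
        (if e then (φ j).snd else (φ j).fst) g ν hP.1 ?_ hν hν2 ?_ hz
        (fun a x y => congrFun (hg a x) y)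
      · cases e with
        | true => exact Or.inr ⟨if_pos rfl, hP.2⟩
        | false => exact Or.inl ⟨rfl, hP.2⟩
      · intro a x y k' hk'
        rw [hs1] at hk'
        rw [hucol, (hν2 a x).1]
        exact hk')
  have hF := hfine K hK hKc a₀
  have hmn : mnQ (Cs.s i1 (D.kd β)) = mnQ (Cs.s i1 (K a₀)) := by rw [hkd]
  set b : Bool := mnQ (Cs.s i1 (K a₀)) with hb'
  rw [hmn] at hty hzs
  -- the edges of the blob
  have hblue : ∀ v v', H.Adj v v' → D.inr v → D.inr v' →
      c (lowO D δ m ps0 β v) (lowO D δ m ps0 β v') = !b := by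
    intro v v' hvv hv hv'
    apply bne2
    intro hcol
    apply hm2 ((β, v), ps0)
    refine mem_biUnion.2 ⟨K a₀, mem_univ _, mem_filter.2 ⟨mem_univ _, hm1, K, b, a₀, hF _, rfl,
      β, v, v', ?_, hkd, hvv, hv, hv', ?_⟩⟩
    · rw [hpos]
    · rw [hpos]
      exact hcol
  -- hubs of colour `!b`
  obtain ⟨fh, hfh, hfh'⟩ : ∃ f : Fin hb → Fin (hr + hb), Function.Injective f ∧
      ∀ k, (Cs.s i1 (K a₀)).1 (f k) = !b := by
    have h1 := (hF t0).hub' a₀
    rw [hs1] at h1
    have e := (univ.filter (fun k => (Cs.s i1 (K a₀)).1 k = !b)).equivFinOfCardEq h1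
    refine ⟨fun k => (e.symm k).1, ?_, ?_⟩
    · intro k k' h
      exact e.symm.injective (Subtype.ext h)
    · intro k
      exact (mem_filter.mp (e.symm k).2).2
  let gh : D.X' → Fin hb := fun x => Fin.castLE hX'c (D.X'.equivFin x)
  have hgh : Function.Injective gh := fun x x' h =>
    D.X'.equivFin.injective (Fin.castLE_injective hX'c h)
  refine hno (!b) (place hXG hIX' hc (!b)
    (hub := fun w => if hw : w ∈ D.X' then .u (fh (gh ⟨w, hw⟩)) else
      .z m ps0 j0 (D.io β j0) w)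
    (zx := fun j => .z m ps0 j (D.io β j) (D.ty β j).fst)
    (zy := fun j => .z m ps0 j (D.io β j) (D.ty β j).snd)
    (lw := fun v => lowO D δ m ps0 β v) ?_ ?_ ?_ ?_ ?_ ?_ ?_ ?_ ?_ ?_ ?_ ?_ ?_ ?_ ?_)
  · intro w hw w' hw' h
    simp only [hw, hw', dif_pos] at h
    injection h with h1
    exact congrArg Subtype.val (hgh (hfh h1))
  · intro w w' _ _ h
    simp only [lowO] at h
    injection h with h1 _ _
    exact congrArg (fun t : SO Bl n q L₀ => t.1.2) (hδ m h1)
  · intro j j' h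
    injection h
  · intro j j' h
    injection h
  · intro j j' h
    injection h with _ _ h3 _ h5
    subst h3
    exact (D.ty β j).adj.ne h5
  · intro w hw j h
    simp only [hw, dif_pos] at h
    cases h
  · intro w hw j h
    simp only [hw, dif_pos] at h
    cases h
  · intro w hw w' h
    simp only [hw, dif_pos, lowO] at h
    cases h
  · intro j w h
    simp only [lowO] at h
    cases h
  · intro j w h
    simp only [lowO] at h
    cases h
  · intro j
    refine ⟨adj_zz W T D δ X (D.ty β j).adj m ps0 j _, ?_⟩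
    have h1 := hda b j (D.io β j)
    rw [← hty j] at h1
    exact h1
  · intro j w hw hjw
    refine ⟨adj_zb W T D δ X hw m ps0 β ⟨rfl, Or.inl ⟨rfl, hjw.symm⟩⟩, ?_⟩
    exact hzs j false w ⟨hw, hjw.symm⟩
  · intro j w hw hjw
    refine ⟨adj_zb W T D δ X hw m ps0 β ⟨rfl, Or.inr ⟨rfl, hjw.symm⟩⟩, ?_⟩
    exact hzs j true w ⟨hw, hjw.symm⟩
  · intro v v' hv hv' hvv
    exact ⟨adj_bb W T D δ X hδ hvv hv hv' m ps0 β, hblue v v' hvv hv hv'⟩
  · intro w w' hw hw' hww
    have e1 : (if hw : w ∈ D.X' then (.u (fh (gh ⟨w, hw⟩)) : VO H (hr + hb) s q L₀ I M J C) else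
      .z m ps0 j0 (D.io β j0) w) = .u (fh (gh ⟨w, hw⟩)) := dif_pos hw
    rw [e1]
    refine ⟨adj_ul W T D δ X _ _ _ _, ?_⟩
    rw [hucol, hkd]
    exact hfh' _

end MP3240CO
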