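import Pool.Agent.Lib.MP_3240be_co.CO.Defs
import Pool.Agent.Lib.MP_3240be_co.H43.Defs2

/-!
# MP_3240be_co, Theorem CORE, row BLK: no blue copy of `H` in the host

The vertices of a blue copy of `H` on the hubs are an independent set with at most `hb` elements,
so some copy of `L` avoids the hubs.  The other blue edges lie in worlds and in gadgets; a copy of
the 2-connected graph `L` lies in one of them by row PC2; the worlds do not contain `L`, the
gadgets are excluded by row GAK.
-/

set_option autoImplicit false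

namespace MP3240CO

open Finset MP3240T MP3240W
open MP3240X (VQ cq bz)
open MP3240K (IsE)
open Pool.Agent.Lib.MP_3240be_co.H36.Chrom (Sparse Leaf)

namespace Blk

variable {n h s q L₀ t : ℕ} {H : SimpleGraph (Fin n)} {Bl J I M C : Type}

/-- The world of a vertex. -/
def lab : VO H h s q L₀ I M J C → Option (I × Fin q)
  | .l i w _ => some (i, w)
  | _ => none

/-- The vertex belongs to a gadget of `m`. -/
def gad (D : GD H s q Bl J) (δ : M → SO Bl n q L₀ → I) (m : M) :
    VO H h s q L₀ I M J C → Prop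
  | .l i w x => ∃ b v ps, VO.l i w x = lowO (h := h) (C := C) D δ m ps b v
  | .z m' _ _ _ _ => m' = m
  | .g m' _ _ _ _ _ _ => m' = m
  | .u _ => False

/-- A blue edge without hubs lies in a world or in a gadget. -/
theorem cover (hr : ℕ) (W : SimpleGraph (Fin q)) (T : Fin q → SimpleGraph (Fin L₀))
    (D : GD H s q Bl J) (δ : M → SO Bl n q L₀ → I) (X : Att q C t)
    (a b : VO H h s q L₀ I M J C) (hrel : relO W T D δ X a b) (hn : ¬ redO hr W X a b)
    (ha : ∀ k, a ≠ .u k) :
    (∃ i, lab a = some i ∧ lab b = some i) ∨ ∃ m, gad D δ m a ∧ gad D δ m b := by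
  rcases a with k | ⟨i, w, x⟩ | ⟨m, ps, j, k, v⟩ | ⟨m, ps, j, k, φ, v, c⟩ <;>
    rcases b with k' | ⟨i', w', x'⟩ | ⟨m', ps', j', k', v'⟩ | ⟨m', ps', j', k', φ', v', c'⟩ <;>
    first
      | exact False.elim hrel
      | exact False.elim (ha _ rfl)
      | exact False.elim (hn trivial)
      | skip
  · rcases hrel with h1 | ⟨h1, h2, -⟩ | ⟨m, ps, b, v, v', h1, h2, -⟩
    · exact False.elim (hn h1)
    · exact Or.inl ⟨(i, w), rfl, by rw [h1, h2]; rfl⟩
    · exact Or.inr ⟨m, ⟨b, v, ps, h1⟩, ⟨b, v', ps, h2⟩⟩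
  · obtain ⟨b, v', h1, -⟩ := hrel
    exact Or.inr ⟨m, rfl, ⟨b, v', ps, h1⟩⟩
  · rcases hrel with ⟨-, b, h1, -⟩ | h1
    · exact Or.inr ⟨m, rfl, ⟨b, v, ps, h1⟩⟩
    · exact False.elim (hn h1)
  · obtain ⟨h1, -⟩ := hrel
    exact Or.inr ⟨m, rfl, h1.symm⟩

/-- A blue edge inside a world. -/
theorem inside (hr : ℕ) (W : SimpleGraph (Fin q)) (T : Fin q → SimpleGraph (Fin L₀))
    (D : GD H s q Bl J) (δ : M → SO Bl n q L₀ → I) (hδ : ∀ m, Function.Injective (δ m))
    (X : Att q C t) (i0 : I) (w0 : Fin q) (a b : VO H h s q L₀ I M J C)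
    (hrel : relO W T D δ X a b) (hn : ¬ redO hr W X a b)
    (ha : lab a = some (i0, w0)) (hb : lab b = some (i0, w0)) :
    ∃ x x', a = .l i0 w0 x ∧ b = .l i0 w0 x' ∧ (T w0).Adj x x' := by
  rcases a with k | ⟨i, w, x⟩ | ⟨m, ps, j, k, v⟩ | ⟨m, ps, j, k, φ, v, c⟩
  · simp [lab] at ha
  · rcases b with k' | ⟨i', w', x'⟩ | ⟨m', ps', j', k', v'⟩ | ⟨m', ps', j', k', φ', v', c'⟩
    · simp [lab] at hb
    · simp only [lab, Option.some.injEq, Prod.mk.injEq] at ha hb
      obtain ⟨rfl, rfl⟩ := ha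
      obtain ⟨h3, h4⟩ := hb
      subst h3
      subst h4
      rcases hrel with h1 | ⟨-, -, h1⟩ | ⟨m, ps, b, v, v', h1, h2, h3, -⟩
      · exact False.elim (hn h1)
      · exact ⟨x, x', rfl, rfl, h1⟩
      · exfalso
        unfold lowO at h1 h2
        injection h1 with e1 _ _
        injection h2 with e2 _ _
        have h5 := hδ m (e1.symm.trans e2)
        exact h3.ne (congrArg (fun x : SO Bl n q L₀ => x.1.2) h5)
    · simp [lab] at hb
    · simp [lab] at hb
  · simp [lab] at ha
  · simp [lab] at ha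

/-- The world of a slot. -/
def dk (D : GD H s q Bl J) (δ : M → SO Bl n q L₀ → I) (m : M) (x : SO Bl n q L₀) : I × Fin q :=
  (δ m x, D.kd x.1.1)

theorem dk_inj (D : GD H s q Bl J) (δ : M → SO Bl n q L₀ → I)
    (hδ : ∀ m, Function.Injective (δ m)) (m : M) : Function.Injective (dk D δ m) := by
  intro x x' hxx
  exact hδ m (congrArg Prod.fst hxx)

theorem dk_sparse (D : GD H s q Bl J) (δ : M → SO Bl n q L₀ → I)
    (hδ : ∀ m, Function.Injective (δ m)) (g : ℕ) (hs : Sparse g δ) : Sparse g (dk D δ) := by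
  intro S h1 h2
  obtain ⟨m, hm, m', hm', hne, hl, hl'⟩ := hs S h1 h2
  refine ⟨m, hm, m', hm', hne, ?_, ?_⟩
  · intro a ha b hb hne1 hne2 t t' s s' e1 e2
    have h3 := hl a ha b hb hne1 hne2 t t' s s' (congrArg Prod.fst e1) (congrArg Prod.fst e2)
    rw [hδ m h3]
  · intro a ha b hb hne1 hne2 t t' s s' e1 e2
    have h3 := hl' a ha b hb hne1 hne2 t t' s s' (congrArg Prod.fst e1) (congrArg Prod.fst e2)
    rw [hδ m' h3]

end Blk

/-- The edges of colour `false` in the good colouring. -/
theorem blue_edge {n h s q L₀ t hr : ℕ} {H : SimpleGraph (Fin n)} {Bl J I M C : Type}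
    {W : SimpleGraph (Fin q)} {T : Fin q → SimpleGraph (Fin L₀)} {D : GD H s q Bl J}
    {δ : M → SO Bl n q L₀ → I} {X : Att q C t} {a b : VO H h s q L₀ I M J C}
    (hab : (cls (FO W T D δ X) (cO hr W X) false).Adj a b) :
    a ≠ b ∧ (relO W T D δ X a b ∨ relO W T D δ X b a) ∧ ¬ redO hr W X a b ∧
      ¬ redO hr W X b a := by
  classical
  have e1 := (SimpleGraph.fromRel_adj _ _ _).1 hab.1
  have e2 : ¬ (redO hr W X a b ∨ redO hr W X b a) := by
    have e3 := hab.2.1
    unfold cO at e3
    exact of_decide_eq_false e3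
  exact ⟨e1.1, e1.2, fun e => e2 (Or.inl e), fun e => e2 (Or.inr e)⟩

open Blk in
/-- No blue copy of `L` without hubs. -/
theorem blk_core (h1 : Pc2Statement) (h2 : GakStatement) {n d hr hb s q L₀ t p : ℕ}
    {H : SimpleGraph (Fin n)} {L : SimpleGraph (Fin d)} {Bl J I M C : Type}
    {W : SimpleGraph (Fin q)} {T : Fin q → SimpleGraph (Fin L₀)} {D : GD H s q Bl J}
    {δ : M → SO Bl n q L₀ → I} {X : Att q C t} (hn : 2 ≤ n) (hd : 3 ≤ d) (hdn : d ≤ n)
    (hT2 : TwoC (ed L)) (hcon : L.Connected) (hfree : QFree L D X) (hX : AttOK H hr p W X)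
    (hTw : ∀ w, ¬ Emb L (T w)) (hδ : ∀ m, Function.Injective (δ m)) (hsp : Sparse (n * n) δ)
    {f : Fin d → VO H (hr + hb) s q L₀ I M J C} (hf : Function.Injective f)
    (hadj : ∀ i j, L.Adj i j → (cls (FO W T D δ X) (cO hr W X) false).Adj (f i) (f j))
    (hnu : ∀ i k, f i ≠ .u k) : False := by
  classical
  have hblue : ∀ i j, L.Adj i j → _ := fun i j hij => blue_edge (hadj i j hij)
  have hno : ∀ u : Fin d, ∃ v, L.Adj u v := by
    intro u
    have : Nontrivial (Fin d) := Fin.nontrivial_iff_two_le.2 (by omega)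
    exact hcon.preconnected.exists_adj_of_nontrivial u
  have hsp' : Sparse (d * d) (dk D δ) := by
    intro S h3 h4
    exact dk_sparse D δ hδ _ hsp S h3 (h4.trans (Nat.mul_le_mul hdn hdn))
  have hmain := h1 d L (VO H (hr + hb) s q L₀ I M J C) (I × Fin q) (I × Fin q) M
    (SO Bl n q L₀) (dk D δ) id f (fun j => {a | lab a = some j}) (fun m => {a | gad D δ m a})
    (fun m x => lowO D δ m x.2 x.1.1 x.1.2) (by omega) hT2 hno hf Function.injective_id
    (dk_inj D δ hδ) hsp' ?_ ?_ ?_ ?_
  · rcases hmain with ⟨⟨i0, w0⟩, hi⟩ | ⟨m, hm⟩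
    · -- a world contains `L`
      have hx : ∀ u, ∃ x, f u = .l i0 w0 x := by
        intro u
        have h3 : lab (f u) = some (i0, w0) := hi u
        rcases hfu : f u with k | ⟨i, w, x⟩ | ⟨m, ps, j, k, v⟩ | ⟨m, ps, j, k, φ, v, c⟩
        · rw [hfu] at h3
          simp [lab] at h3
        · rw [hfu] at h3
          simp only [lab, Option.some.injEq, Prod.mk.injEq] at h3
          exact ⟨x, by rw [h3.1, h3.2]⟩
        · rw [hfu] at h3
          simp [lab] at h3
        · rw [hfu] at h3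
          simp [lab] at h3
      choose x hx using hx
      apply hTw w0
      refine ⟨x, ?_, ?_⟩
      · intro u v huv
        apply hf
        rw [hx u, hx v, huv]
      · intro u v huv
        obtain ⟨e0, e1, e2, e3⟩ := hblue u v huv
        rcases e1 with e1 | e1
        · obtain ⟨y, y', g1, g2, g3⟩ := inside hr W T D δ hδ X i0 w0 _ _ e1 e2 (hi u) (hi v)
          rw [hx u] at g1
          rw [hx v] at g2
          injection g1 with _ _ g4
          injection g2 with _ _ g5
          rw [g4, g5]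
          exact g3
        · obtain ⟨y, y', g1, g2, g3⟩ := inside hr W T D δ hδ X i0 w0 _ _ e1 e3 (hi v) (hi u)
          rw [hx v] at g1
          rw [hx u] at g2
          injection g1 with _ _ g4
          injection g2 with _ _ g5
          rw [g4, g5]
          exact g3.symm
    · apply h2 n d hr hb s q L₀ t p H L Bl J I M C W T D δ X hn (by omega) hcon hfree hX hδ hsp
        f m hf hadj
      intro i
      have h4 : gad D δ m (f i) := hm i
      rcases hfi : f i with k | ⟨i', w, x⟩ | ⟨m', ps, j, k, v⟩ | ⟨m', ps, j, k, φ, v, c⟩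
      · exact absurd hfi (hnu i k)
      · rw [hfi] at h4
        exact Or.inr (Or.inl h4)
      · rw [hfi] at h4
        have h5 : m' = m := h4
        exact Or.inl ⟨ps, j, k, v, by rw [h5]⟩
      · rw [hfi] at h4
        have h5 : m' = m := h4
        exact Or.inr (Or.inr ⟨ps, j, k, φ, v, c, by rw [h5]⟩)
  · intro u v huv
    obtain ⟨-, e1, e2, e3⟩ := hblue u v huv
    rcases e1 with e1 | e1
    · exact cover hr W T D δ X _ _ e1 e2 (hnu u)
    · rcases cover hr W T D δ X _ _ e1 e3 (hnu v) with ⟨j, g1, g2⟩ | ⟨m, g1, g2⟩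
      · exact Or.inl ⟨j, g2, g1⟩
      · exact Or.inr ⟨m, g2, g1⟩
  · intro j j' a ha ha'
    exact Option.some_injective _ (ha.symm.trans ha')
  · intro m m' a hmm ha ha'
    have h4 : gad D δ m a := ha
    have h6 : gad D δ m' a := ha'
    revert h4 h6
    rcases a with k | ⟨i, w, x⟩ | ⟨m0, ps, j, k, v⟩ | ⟨m0, ps, j, k, φ, v, c⟩ <;> intro h4 h6
    · exact False.elim h4
    · obtain ⟨b, v, ps, e1⟩ := h4
      obtain ⟨b', v', ps', e2⟩ := h6
      refine ⟨((b, v), ps), ((b', v'), ps'), e1, ?_⟩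
      unfold lowO at e1 e2
      injection e1 with a1 a2 _
      injection e2 with c1 c2 _
      show (δ m ((b, v), ps), D.kd b) = (δ m' ((b', v'), ps'), D.kd b')
      rw [← a1, ← a2, ← c1, ← c2]
    · have h5 : m0 = m := h4
      have h7 : m0 = m' := h6
      exact absurd (h5.symm.trans h7) hmm
    · have h5 : m0 = m := h4
      have h7 : m0 = m' := h6
      exact absurd (h5.symm.trans h7) hmm
  · rintro ⟨i0, w0⟩ m a ha hm
    have h4 : gad D δ m a := hm
    have h6 : lab a = some (i0, w0) := ha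
    revert h4 h6
    rcases a with k | ⟨i, w, x⟩ | ⟨m0, ps, j, k, v⟩ | ⟨m0, ps, j, k, φ, v, c⟩ <;> intro h4 h6
    · exact False.elim h4
    · obtain ⟨b, v, ps, e1⟩ := h4
      refine ⟨((b, v), ps), e1, ?_⟩
      simp only [lab, Option.some.injEq, Prod.mk.injEq] at h6
      unfold lowO at e1
      injection e1 with a1 a2 _
      show (i0, w0) = (δ m ((b, v), ps), D.kd b)
      rw [← h6.1, ← h6.2, a1, a2]
    · simp [lab] at h6
    · simp [lab] at h6

/-- Row BLK. -/
theorem blk_proof (h1 : Pc2Statement) (h2 : GakStatement) : BlkStatement := by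
  classical
  intro n d hr hb s q L₀ t p H L Bl J I M C W T D δ X hn hH hd hT2 hcon hfree hX hmin hTw hδ hsp
    hE
  obtain ⟨f, hf, hadj⟩ := hE
  set Y : Finset (Fin n) := univ.filter (fun v => ∃ k, f v = .u k) with hY
  have hYm : ∀ v, v ∈ Y ↔ ∃ k, f v = .u k := by
    intro v
    rw [hY, Finset.mem_filter]
    simp
  have hYI : Ind H Y := by
    intro x hx y hy hxy
    obtain ⟨k, hk⟩ := (hYm x).1 hx
    obtain ⟨k', hk'⟩ := (hYm y).1 hy
    obtain ⟨-, e1, -, -⟩ := blue_edge (hadj x y hxy)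
    rw [hk, hk'] at e1
    rcases e1 with e1 | e1
    · exact e1
    · exact e1
  have hYc : Y.card ≤ hb := by
    have hsub : Y.image f ⊆ (univ : Finset (Fin hb)).image
        (fun k => (VO.u (Fin.natAdd hr k) : VO H (hr + hb) s q L₀ I M J C)) := by
      intro a ha
      obtain ⟨v, hv, rfl⟩ := Finset.mem_image.1 ha
      obtain ⟨k, hk⟩ := (hYm v).1 hv
      have : Nontrivial (Fin n) := Fin.nontrivial_iff_two_le.2 hn
      obtain ⟨v', hv'⟩ := hH.preconnected.exists_adj_of_nontrivial v
      obtain ⟨-, e1, e2, -⟩ := blue_edge (hadj v v' hv')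
      rw [hk] at e1 e2
      have hlow : ∃ i w x, f v' = .l i w x := by
        rcases hfv : f v' with k' | ⟨i, w, x⟩ | ⟨m, ps, j, k', v1⟩ | ⟨m, ps, j, k', φ, v1, c⟩
        · rw [hfv] at e1
          rcases e1 with e1 | e1
          · exact False.elim e1
          · exact False.elim e1
        · exact ⟨i, w, x, rfl⟩
        · rw [hfv] at e1
          rcases e1 with e1 | e1
          · exact False.elim e1
          · exact False.elim e1
        · rw [hfv] at e1
          rcases e1 with e1 | e1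
          · exact False.elim e1
          · exact False.elim e1
      obtain ⟨i, w, x, hl⟩ := hlow
      rw [hl] at e2
      have hk' : hr ≤ k.val := Nat.le_of_not_lt e2
      rw [Finset.mem_image]
      refine ⟨⟨k.val - hr, by omega⟩, Finset.mem_univ _, ?_⟩
      rw [hk]
      congr 1
      ext
      simp only [Fin.natAdd_mk]
      omega
    have h3 := Finset.card_le_card hsub
    rw [Finset.card_image_of_injective Y hf] at h3
    refine h3.trans (Finset.card_image_le.trans ?_)
    rw [Finset.card_univ, Fintype.card_fin]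
  have hnm : ¬ Meets H L Y := fun h => absurd (hmin Y hYI h) (by omega)
  unfold Meets at hnm
  push Not at hnm
  obtain ⟨e, he, heY⟩ := hnm
  have hdn : d ≤ n := by
    have h3 := Fintype.card_le_of_injective e he.1
    rwa [Fintype.card_fin, Fintype.card_fin] at h3
  refine blk_core h1 h2 hn hd hdn hT2 hcon hfree hX hTw hδ hsp (f := fun i => f (e i))
    (fun i j hij => he.1 (hf hij)) (fun i j hij => hadj _ _ (he.2 i j hij)) ?_
  intro i k hk
  exact heY i ((hYm _).2 ⟨k, hk⟩)

end MP3240CO
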