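import Pool.Agent.Lib.MP_3240be_co.CO.Base
import Pool.Agent.Lib.MP_3240be_co.H80t.Tw1
import Pool.Agent.Lib.MP_3240be_co.N49.Hb

/-!
# MP_3240be_co, Theorem CORE, row BPL

The numerical criterion gives (EX): the graph `B` is the disjoint union of `host 1 r`, of the TW
system `Γ_M(H - X₂)` and of the graph `Θ` for `H - X₀` (row THT).
-/

set_option autoImplicit false

namespace MP3240CO

open Finset MP3240T MP3240W
open MP3240K (Core IsE)
open MP3240TW (GV Gam)
open Pool.Agent.Lib.MP_3240be_co.H36 (LocCol Blow)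

/-- The edges of `H` inside `S`. -/
def ins {n : ℕ} (H : SimpleGraph (Fin n)) (S : Finset (Fin n)) : SimpleGraph (Fin n) where
  Adj x y := H.Adj x y ∧ x ∈ S ∧ y ∈ S
  symm := ⟨fun _ _ h => ⟨h.1.symm, h.2.2, h.2.1⟩⟩
  loopless := ⟨fun x h => H.loopless.irrefl x h.1⟩

theorem ins_acyclic {n : ℕ} {H : SimpleGraph (Fin n)} {S : Finset (Fin n)}
    (h : (H.induce {x | x ∈ S}).IsAcyclic) : (ins H S).IsAcyclic := by
  rw [SimpleGraph.isAcyclic_iff_free_cycleGraph] at h ⊢
  rintro m hm ⟨f⟩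
  apply h m hm
  obtain ⟨k, rfl⟩ : ∃ k, m = k + 3 := ⟨m - 3, by omega⟩
  have hS : ∀ i, f i ∈ S := by
    intro i
    have h1 : (SimpleGraph.cycleGraph (k + 3)).Adj i (i + 1) := by
      rw [SimpleGraph.cycleGraph_adj]
      right
      simp
    exact (f.toHom.map_adj h1).2.1
  refine ⟨⟨⟨fun i => ⟨f i, hS i⟩, fun {a b} hab => ?_⟩, fun a b hab => ?_⟩⟩
  · exact (f.toHom.map_adj hab).1
  · exact f.injective (congrArg Subtype.val hab)

/-- A connected subgraph of a disjoint union lies in one of the two parts. -/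
theorem emb_sum {X α β : Type} {L : SimpleGraph X} (hL : L.Connected) {A : SimpleGraph α}
    {B : SimpleGraph β} (h : Emb L (A ⊕g B)) : Emb L A ∨ Emb L B := by
  obtain ⟨f, hf, hA⟩ := h
  have h1 : ∀ x y, L.Reachable x y → (f x).isLeft = (f y).isLeft := by
    rintro x y ⟨w⟩
    induction w with
    | nil => rfl
    | @cons u v _ huv _ ih =>
      rw [← ih]
      have h2 := hA u v huv
      rcases hu : f u with a | a <;> rcases hv : f v with b | b <;> rw [hu, hv] at h2 <;>
        simp_all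
  obtain ⟨x₀⟩ := hL.nonempty
  rcases h0 : f x₀ with a | a
  · left
    have h2 : ∀ x, ∃ a, f x = Sum.inl a := by
      intro x
      have h3 := h1 x₀ x (hL.preconnected x₀ x)
      rw [h0] at h3
      exact Sum.isLeft_iff.mp (h3.symm.trans rfl)
    choose g hg using h2
    refine ⟨g, fun x y hxy => hf (by rw [hg, hg, hxy]), fun x y hxy => ?_⟩
    have h4 := hA x y hxy
    rw [hg, hg] at h4
    exact h4
  · right
    have h2 : ∀ x, ∃ a, f x = Sum.inr a := by
      intro x
      have h3 := h1 x₀ x (hL.preconnected x₀ x)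
      rw [h0] at h3
      rcases h4 : f x with b | b
      · rw [h4] at h3
        simp at h3
      · exact ⟨b, rfl⟩
    choose g hg using h2
    refine ⟨g, fun x y hxy => hf (by rw [hg, hg, hxy]), fun x y hxy => ?_⟩
    have h4 := hA x y hxy
    rw [hg, hg] at h4
    exact h4

theorem bpl_proof (hT : ThtStatement) : BplStatement := by
  classical
  intro n d r hr hb H L X₀ X X₂ hr1 hC hX₀ hX hX₂ hcard hV hF
  obtain ⟨V, hVc, hVa⟩ := hV
  obtain ⟨v₀⟩ := hC.con.nonempty
  obtain ⟨S, -, hS, -⟩ := hC.heavy v₀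
  -- `L` is not `r`-colourable
  have hL : ∀ κ : Fin d → Fin r, ∃ a b, L.Adj a b ∧ κ a = κ b := by
    intro κ
    by_contra hcon
    push Not at hcon
    exact hS ⟨κ, fun a _ b _ hab => hcon a b hab⟩
  have hn : 0 < n := by
    obtain ⟨f, -, -⟩ := hC.emb
    exact (f v₀).pos
  by_cases hd : 3 ≤ d
  swap
  · -- the trivial case
    have hr2 : r = 1 := by
      by_contra hr2
      obtain ⟨a, b, hab, h⟩ := hL fun i => ⟨i.1, by omega⟩
      exact L.loopless.irrefl a (by
        have : a = b := Fin.ext (by simpa using h)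
        rw [← this] at hab
        exact hab)
    subst hr2
    have hE : ∀ x y, x ∉ X₀ → y ∉ X₀ → ¬ H.Adj x y := by
      intro x y hx hy hxy
      have h1 : IsE L H (fun i => if i.1 = 0 then x else y) := by
        refine ⟨fun i j hij => ?_, fun i j hij => ?_⟩
        · have h2 := i.2
          have h3 := j.2
          by_cases hi : i.1 = 0 <;> by_cases hj : j.1 = 0
          · exact Fin.ext (by omega)
          · simp only [hi, hj, if_true, if_false] at hij
            exact absurd hij hxy.ne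
          · simp only [hi, hj, if_true, if_false] at hij
            exact absurd hij hxy.ne'
          · exact Fin.ext (by omega)
        · have h2 := i.2
          have h3 := j.2
          have h4 : i.1 ≠ j.1 := fun h => hij.ne (Fin.ext h)
          by_cases hi : i.1 = 0
          · have hj : j.1 ≠ 0 := by omega
            simp only [hi, hj, if_true, if_false]
            exact hxy
          · have hj : j.1 = 0 := by omega
            simp only [hi, hj, if_true, if_false]
            exact hxy.symm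
      obtain ⟨i, hi⟩ := hX₀ _ h1
      by_cases h0 : i.1 = 0
      · simp only [h0, if_true] at hi
        exact hx hi
      · simp only [h0, if_false] at hi
        exact hy hi
    refine ⟨n, ⊥, ?_, ?_, ?_⟩
    · rintro ⟨f, -, hf⟩
      obtain ⟨a, b, hab, -⟩ := hL fun _ => 0
      exact hf a b hab
    · intro c _
      refine ⟨1, 1, le_rfl, ⟨fun _ x => x, fun _ _ _ h => h, ?_⟩, ⟨fun _ x => x, fun _ _ _ h => h, ?_⟩⟩
      · intro i j hij
        exact absurd (Subsingleton.elim i j) hij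
      · intro i j hij
        exact absurd (Subsingleton.elim i j) hij
    · intro c _ b
      right
      left
      refine ⟨id, fun x _ y _ h => h, fun x hx y hy hxy => ?_⟩
      rw [mem_compl] at hx hy
      exact absurd hxy (hE x y hx hy)
  -- the three graphs
  obtain ⟨b₁, B₁, hB₁, hA₁⟩ := MP3240N.hb_proof n r d hr1
  let W : Type := ({x | x ∉ X₂} : Set (Fin n))
  let _ : Fintype W := Fintype.ofFinite W
  let R : SimpleGraph W := H.induce {x | x ∉ X₂}
  let M : ℕ := MP3240Tw1.twM (Fintype.card W) n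
  let Y : Type := ({x | x ∉ X₀} : Set (Fin n))
  let _ : Fintype Y := Fintype.ofFinite Y
  let eY : Y ≃ Fin (Fintype.card Y) := Fintype.equivFin Y
  let T₀ : SimpleGraph (Fin (Fintype.card Y)) := (H.induce {x | x ∉ X₀}).comap eY.symm
  have hT₀ : ¬ Emb L T₀ := by
    rintro ⟨f, hf, hA⟩
    obtain ⟨i, hi⟩ := hX₀ (fun i => (eY.symm (f i)).1)
      ⟨fun i j h => hf (eY.symm.injective (Subtype.ext h)), fun i j h => hA i j h⟩
    exact (eY.symm (f i)).2 hi
  obtain ⟨b₃, B₃, hB₃, hA₃⟩ := hT n d _ L T₀ hC.two hC.con hd hT₀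
  let Z : Type := Fin b₁ ⊕ (GV W M ⊕ Fin b₃)
  let _ : Fintype Z := Fintype.ofFinite Z
  let eZ : Z ≃ Fin (Fintype.card Z) := Fintype.equivFin Z
  let BZ : SimpleGraph Z := B₁ ⊕g (Gam R M ⊕g B₃)
  let B : SimpleGraph (Fin (Fintype.card Z)) := BZ.comap eZ.symm
  have hB : ∀ x y, BZ.Adj x y → B.Adj (eZ x) (eZ y) := by
    intro x y h
    change BZ.Adj (eZ.symm (eZ x)) (eZ.symm (eZ y))
    rwa [Equiv.symm_apply_apply, Equiv.symm_apply_apply]
  let i₁ : Fin b₁ → Fin (Fintype.card Z) := fun x => eZ (.inl x)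
  let i₂ : GV W M → Fin (Fintype.card Z) := fun x => eZ (.inr (.inl x))
  let i₃ : Fin b₃ → Fin (Fintype.card Z) := fun x => eZ (.inr (.inr x))
  have hi₁ : Function.Injective i₁ := fun x y h => by
    have := eZ.injective h
    exact Sum.inl_injective this
  have hi₂ : Function.Injective i₂ := fun x y h => by
    have := eZ.injective h
    exact Sum.inl_injective (Sum.inr_injective this)
  have hi₃ : Function.Injective i₃ := fun x y h => by
    have := eZ.injective h
    exact Sum.inr_injective (Sum.inr_injective this)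
  have ha₁ : ∀ x y, B₁.Adj x y → B.Adj (i₁ x) (i₁ y) := fun x y h => hB _ _ h
  have ha₂ : ∀ x y, (Gam R M).Adj x y → B.Adj (i₂ x) (i₂ y) := fun x y h => hB _ _ h
  have ha₃ : ∀ x y, B₃.Adj x y → B.Adj (i₃ x) (i₃ y) := fun x y h => hB _ _ h
  have hbl : ∀ c : Fin (Fintype.card Z) → Fin (Fintype.card Z) → Bool, (∀ x y, c x y = c y x) →
      ∃ A A', r + 1 ≤ A + A' ∧ Blow B c n A true ∧ Blow B c n A' false := by
    intro c hc
    obtain ⟨A, A', h1, ⟨F, hF1, hF2⟩, ⟨F', hF1', hF2'⟩⟩ :=
      hA₁ (fun x y => c (i₁ x) (i₁ y)) fun x y => hc _ _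
    exact ⟨A, A', h1, ⟨fun a u => i₁ (F a u), fun a u w h => hF1 a (hi₁ h),
      fun a a' h u w => ⟨ha₁ _ _ (hF2 a a' h u w).1, (hF2 a a' h u w).2⟩⟩,
      ⟨fun a u => i₁ (F' a u), fun a u w h => hF1' a (hi₁ h),
      fun a a' h u w => ⟨ha₁ _ _ (hF2' a a' h u w).1, (hF2' a a' h u w).2⟩⟩⟩
  -- a vertex
  obtain ⟨z₀⟩ : Nonempty (Fin (Fintype.card Z)) := by
    obtain ⟨A, A', h1, ⟨F, -, -⟩, ⟨F', -, -⟩⟩ := hbl (fun _ _ => true) fun _ _ => rfl
    rcases Nat.eq_zero_or_pos A with rfl | h2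
    · exact ⟨F' ⟨0, by omega⟩ ⟨0, hn⟩⟩
    · exact ⟨F ⟨0, h2⟩ ⟨0, hn⟩⟩
  refine ⟨Fintype.card Z, B, ?_, hbl, ?_⟩
  · rintro ⟨f, hf, hA⟩
    have h1 : Emb L BZ := ⟨fun i => eZ.symm (f i), fun i j h => hf (eZ.symm.injective h),
      fun i j h => hA i j h⟩
    rcases emb_sum hC.con h1 with h2 | h2
    · obtain ⟨g, hg, hgA⟩ := h2
      obtain ⟨κ, hκ1, hκ2⟩ := hB₁ (univ.image g) (card_image_le.trans (by simp))
      obtain ⟨a, b, hab, h3⟩ := hL fun i => ⟨κ (g i), hκ1 _⟩
      exact hκ2 (g a) (mem_image_of_mem _ (mem_univ _)) (g b) (mem_image_of_mem _ (mem_univ _))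
        (hgA a b hab) (by simpa using h3)
    · rcases emb_sum hC.con h2 with h3 | h3
      · obtain ⟨g, hg, hgA⟩ := h3
        exact hF (MP3240TW.folds_of_gam ⟨g, hg, hgA⟩)
      · exact hB₃ h3
  · intro c hc b
    rcases MP3240Tw1.tw1 (M := M) R n le_rfl (fun x y => c (i₂ x) (i₂ y) = b) with h1 | h1
    swap
    · left
      obtain ⟨v, w, hvw, f, g, hf, hg, hfg, hred⟩ := h1
      refine ⟨fun k => i₂ ⟨v, f k⟩, fun k => i₂ ⟨w, g k⟩, fun k l h => ?_, fun k l h => ?_,
        fun k l => ⟨ha₂ _ _ ⟨hvw, fun u hu hw => hfg k l u hu hw⟩, hred k l⟩⟩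
      · have h2 := hi₂ h
        rw [Sigma.mk.injEq] at h2
        exact hf (eq_of_heq h2.2)
      · have h2 := hi₂ h
        rw [Sigma.mk.injEq] at h2
        exact hg (eq_of_heq h2.2)
    · obtain ⟨a, ha⟩ := h1
      right
      rcases hA₃ (fun x y => c (i₃ x) (i₃ y)) (fun x y => hc _ _) b with h2 | h2
      · left
        obtain ⟨f, hf, hfA⟩ := h2
        refine ⟨fun x => if h : x ∉ X₀ then i₃ (f (eY ⟨x, h⟩)) else z₀, ?_, ?_⟩
        · intro x hx y hy hxy
          rw [mem_compl] at hx hy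
          simp only [hx, hy, not_false_eq_true, dif_pos] at hxy
          exact congrArg Subtype.val (eY.injective (hf (hi₃ hxy)))
        · intro x hx y hy hxy
          rw [mem_compl] at hx hy
          simp only [hx, hy, not_false_eq_true, dif_pos]
          have h3 := hfA (eY ⟨x, hx⟩) (eY ⟨y, hy⟩) (by
            change H.Adj (eY.symm (eY ⟨x, hx⟩)).1 (eY.symm (eY ⟨y, hy⟩)).1
            rw [Equiv.symm_apply_apply, Equiv.symm_apply_apply]
            exact hxy)
          exact ⟨ha₃ _ _ h3.1, h3.2.1⟩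
      · right
        refine ⟨X, X₂, hX, hX₂, hcard, ?_, V, hVc, ?_⟩
        · refine ⟨fun x => if h : x ∉ X₂ then i₂ ⟨⟨x, h⟩, fun u => a u.1⟩ else z₀, ?_, ?_⟩
          · intro x hx y hy hxy
            rw [mem_compl] at hx hy
            simp only [hx, hy, not_false_eq_true, dif_pos] at hxy
            have h3 := hi₂ hxy
            rw [Sigma.mk.injEq] at h3
            exact congrArg Subtype.val h3.1
          · intro x hx y hy hxy
            rw [mem_compl] at hx hy
            simp only [hx, hy, not_false_eq_true, dif_pos]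
            refine ⟨ha₂ _ _ ⟨hxy, fun u _ _ => rfl⟩, ?_⟩
            have h4 := ha ⟨x, hx⟩ ⟨y, hy⟩ hxy
            revert h4
            cases c (i₂ ⟨⟨x, hx⟩, fun u => a u.1⟩) (i₂ ⟨⟨y, hy⟩, fun u => a u.1⟩) <;>
              cases b <;> simp
        · intro k
          obtain ⟨f, hf, hfA⟩ := h2 (ins H (V k)) (ins_acyclic (hVa k))
          refine ⟨fun x => i₃ (f x), fun x _ y _ hxy => hf (hi₃ hxy), fun x hx y hy hxy => ?_⟩
          have h3 := hfA x y ⟨hxy, hx, hy⟩
          exact ⟨ha₃ _ _ h3.1, h3.2.1⟩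

end MP3240CO
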