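import Pool.Agent.Lib.MP_3240be_co.CO.Base
import Pool.Agent.Lib.MP_3240be_co.C4.Cla

/-!
# MP_3240be_co: Theorem CORE, row CLA, host-free part: classes of copies of `B` in one world
-/

set_option autoImplicit false

namespace MP3240CO

open Finset MP3240T MP3240W
open MP3240N (BigC CopyB Homog)
open MP3240M (MData)
open Pool.Agent.Lib.MP_3240be_co.H36 (Blow)

/-- The copies `e` of `B` in the world `l` of class `s`; `u` = the hubs. -/
def CopW {n b₀ L r g : ℕ} {V : Type} (H : SimpleGraph (Fin n)) (B : SimpleGraph (Fin b₀))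
    (T : SimpleGraph (Fin L)) (c : V → V → Bool) (u : Fin g → V) (l : Fin L → V)
    (s : QK n r g) (e : Fin b₀ → Fin L) : Prop :=
  CopyB B T e ∧ (∀ x k, c (u k) (l (e x)) = s.1 k) ∧
    (∀ b, Blow B (fun x y => c (l (e x)) (l (e y))) n (s.2.1 b) b) ∧
    ∀ b S, s.2.2 b S = true ↔ CopV H B (fun x y => c (l (e x)) (l (e y))) b S

/-- A class of one world. -/
theorem cla_world {n r hr g b₀ L : ℕ} {H : SimpleGraph (Fin n)} (D : MData H r hr) {V : Type}
    (G : SimpleGraph V) (c : V → V → Bool) (hc : ∀ x y, c x y = c y x)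
    (hno : ∀ b, ¬ Emb H (cls G c b)) (B : SimpleGraph (Fin b₀)) (hb₀ : 1 ≤ b₀)
    (hB : ∀ c : Fin b₀ → Fin b₀ → Bool, (∀ x y, c x y = c y x) →
      ∃ A A', r + 1 ≤ A + A' ∧ Blow B c n A true ∧ Blow B c n A' false)
    {Γ K : Type} (T : Γ → SimpleGraph (Fin L)) (K' : Γ → Type)
    (hHo : Homog B Γ (QK n r g) (Fin g → Bool) K T K') (a : Γ) (u : Fin g → V) (l : Fin L → V)
    (hl : Function.Injective l) (hT : ∀ t t', (T a).Adj t t' → G.Adj (l t) (l t')) :
    ∃ s : QK n r g, r + 1 ≤ ((s.2.1 true : Fin (r + 1)) : ℕ) + s.2.1 false ∧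
      BigC (CopW H B (T a) c u l s) (K' a) ∧ ∃ t : Fin L, ∀ k, c (u k) (l t) = s.1 k := by
  classical
  set ψ₀ : Fin L → (Fin g → Bool) := fun t k => c (u k) (l t) with hψ₀
  have hnum : ∀ e : Fin b₀ → Fin L, ∃ ν : Bool → Fin (r + 1),
      CopyB B (T a) e → r + 1 ≤ ((ν true : Fin (r + 1)) : ℕ) + ν false ∧
        ∀ b, Blow B (fun x y => c (l (e x)) (l (e y))) n (ν b) b := by
    intro e
    by_cases he : CopyB B (T a) e
    · obtain ⟨A, A', h1, h2, h3⟩ := hB (fun x y => c (l (e x)) (l (e y))) (fun _ _ => hc _ _)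
      have hinj : Function.Injective (fun x => l (e x)) := fun x y h => he.1 (hl h)
      have hadj : ∀ x y, B.Adj x y → G.Adj (l (e x)) (l (e y)) := fun x y h => hT _ _ (he.2.1 x y h)
      have hA : A < r + 1 := by
        by_contra hA
        exact hno true (MP3240C.cla_emb_of_blow G c hc D.κ D.prop B
          (fun x => l (e x)) hinj hadj A (by omega) true h2)
      have hA' : A' < r + 1 := by
        by_contra hA'
        exact hno false (MP3240C.cla_emb_of_blow G c hc D.κ D.prop B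
          (fun x => l (e x)) hinj hadj A' (by omega) false h3)
      refine ⟨fun b => if b then ⟨A, hA⟩ else ⟨A', hA'⟩, fun _ => ⟨by simpa using h1, ?_⟩⟩
      intro b
      cases b
      · simpa using h3
      · simpa using h2
    · exact ⟨fun _ => 0, fun h => absurd h he⟩
  choose ν hν using hnum
  obtain ⟨s, hs⟩ := hHo.sel a ψ₀
    (fun e => ((fun k => ψ₀ (e ⟨0, by omega⟩) k), ν e,
      fun b S => decide (CopV H B (fun x y => c (l (e x)) (l (e y))) b S)))
  have hcop : ∀ e : Fin b₀ → Fin L, (CopyB B (T a) e ∧ (∀ x y, ψ₀ (e x) = ψ₀ (e y)) ∧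
      (((fun k => ψ₀ (e ⟨0, by omega⟩) k), ν e,
        fun b S => decide (CopV H B (fun x y => c (l (e x)) (l (e y))) b S)) : QK n r g) = s) →
      CopW H B (T a) c u l s e := by
    rintro e ⟨h1, h2, h3⟩
    refine ⟨h1, ?_, ?_, ?_⟩
    · intro x k
      have := congrFun (h2 x ⟨0, by omega⟩) k
      rw [← h3]
      exact this
    · intro b
      rw [← h3]
      exact (hν e h1).2 b
    · intro b S
      rw [← h3]
      simp
  obtain ⟨k₀⟩ := hHo.ne a
  obtain ⟨e, he, _⟩ := hs (fun _ => k₀)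
  refine ⟨s, ?_, ?_, ?_⟩
  · rw [← he.2.2]
    exact (hν e he.1).1
  · intro κ
    obtain ⟨e, he, h4⟩ := hs κ
    exact ⟨e, hcop e he, h4⟩
  · exact ⟨e ⟨0, by omega⟩, fun k => (hcop e he).2.1 _ k⟩

end MP3240CO
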