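import Pool.Agent.Lib.MP_3240be_co.CO.Defs
import Pool.Agent.Lib.MP_3240be_co.CO.Cl0

/-!
# MP_3240be_co: Theorem CORE, row CLA: classes exist
-/

set_option autoImplicit false

namespace MP3240CO

open Finset MP3240T MP3240W
open MP3240N (BigC CopyB Homog)
open MP3240M (MData)
open Pool.Agent.Lib.MP_3240be_co.H36 (Blow)

theorem cla_proof : ClaStatement := by
  classical
  intro n h hr s q L₀ b₀ t r sp H M₀ Bl J I M C W T K' D δ X B c _ hb₀ hHo hB hc hno
  have key : ∀ (i : I) (w : Fin q), ∃ σ : QK n r h,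
      r + 1 ≤ ((σ.2.1 true : Fin (r + 1)) : ℕ) + σ.2.1 false ∧
      BigC (CopO B T c i w σ) (K' w) ∧ ∃ x : Fin L₀, ∀ k, c (.u k) (.l i w x) = σ.1 k := by
    intro i w
    exact cla_world M₀ (FO W T D δ X) c hc hno B hb₀ hB T K' hHo w (fun k => .u k)
      (fun x => .l i w x) (fun x y hxy => by injection hxy)
      (fun x x' hx => adj_T W T D δ X hx i)
  choose σ h1 h2 x h3 using key
  exact ⟨⟨σ, h1, h2, x, h3⟩⟩

end MP3240CO
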