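import Pool.Agent.Lib.MP_3240be_co.CO.Num

/-!
# MP_3240be_co, Theorem CORE: row COX (cores from the main theorem)
-/

set_option autoImplicit false

namespace MP3240CO

open Finset MP3240T MP3240W
open MP3240N (Sig)
open MP3240M (MData)
open MP3240C (BadS)
open MP3240K (Core IsE)

/-- A core has at least three vertices. -/
theorem core_three {n d r : ℕ} {H : SimpleGraph (Fin n)} {L : SimpleGraph (Fin d)} (hr : 2 ≤ r)
    (hL : Core H r L) : 3 ≤ d := by
  by_contra hd
  apply core_not_colorable hL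
  refine ⟨SimpleGraph.Coloring.mk (fun x => (⟨x.1, by omega⟩ : Fin r)) ?_⟩
  intro x y hxy he
  exact hxy.ne (Fin.ext (Fin.mk.inj_iff.1 he))

/-- Row COX. -/
theorem cox_proof (hM : MainStatement) (hG : GqcStatement) : CoreExStatement := by
  classical
  intro n d r hr hb b₀ H L D X₀ B hr2 hS hcon hL hX₀ hm hc hmin hEx
  obtain ⟨p, rfl⟩ : ∃ p, r = p + 1 := ⟨r - 1, by omega⟩
  have hp : 1 ≤ p := by omega
  obtain ⟨X', s, xs, ys, hX', hcard, hF⟩ := hL.xf hr2 hX₀ hm
  have hdn : d ≤ n := by
    obtain ⟨f, hf, -⟩ := hL.emb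
    have := Fintype.card_le_of_injective f hf
    rwa [Fintype.card_fin, Fintype.card_fin] at this
  have hs : 1 ≤ s := by
    by_contra h0
    have h1 : Meets H L X' := by
      intro f hf
      rcases hF.hit f hf with h | ⟨t, -⟩
      · exact h
      · exact absurd t.2 (by omega)
    have := hmin X' hX' h1
    omega
  exact hM n d p s hr hb b₀ H L D X₀ X' xs ys B hp hs hS hcon hL.con hL.two (core_three hr2 hL)
    hdn hX₀ hc hmin hX' (by omega) ⟨hF.adj, hF.off, hF.ind⟩ (hG n d p s H L X' xs ys hp hL hF) hEx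

end MP3240CO
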