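import Pool.Agent.Lib.MP_3240be_co.CO.Defs
import Pool.Agent.Lib.MP_3240be_co.H43.Bv1h

/-!
# MP_3240be_co, Theorem CORE, row GAK: no blue copy of `L` in the gadgets of one hyperedge
-/

set_option autoImplicit false

namespace MP3240CO

open Finset MP3240T MP3240W MP3240W.Bvh
open MP3240X (VQ cq bz)
open Pool.Agent.Lib.MP_3240be_co.H36.Chrom (Sparse)

namespace Gak

variable {n h s q L₀ t : ℕ} {H : SimpleGraph (Fin n)} {Bl J I M C : Type}

/-- The vertex of the gadget. -/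
def AtO (D : GD H s q Bl J) (δ : M → SO Bl n q L₀ → I) (m : M) (ps : Fin q → Fin L₀) :
    VO H h s q L₀ I M J C → VQ H s Bl J C → Prop
  | a, .b b v => a = lowO D δ m ps b v
  | a, .z j k v => a = .z m ps j k v
  | a, .g j k φ v c => a = .g m ps j k φ v c

theorem low_inj {D : GD H s q Bl J} {δ : M → SO Bl n q L₀ → I} {m m' : M} {b b' : Bl}
    {v v' : Fin n} {ps ps' : Fin q → Fin L₀}
    (h1 : (lowO D δ m ps b v : VO H h s q L₀ I M J C) = lowO D δ m' ps' b' v') :
    δ m ((b, v), ps) = δ m' ((b', v'), ps') := by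
  unfold lowO at h1
  injection h1

theorem cq_symm {xs ys : Fin s → Fin n} {ty : Bl → Fin s → H.Dart} {io : Bl → Fin s → J}
    {R : C → C → Prop} {A : C → Prop} (hR : ∀ a b, R a b → R b a) {p p' : VQ H s Bl J C}
    (h1 : cq xs ys ty io R A p p') : cq xs ys ty io R A p' p := by
  rcases p with ⟨b, w⟩ | ⟨j, i, v⟩ | ⟨j, i, φ, w, c⟩ <;>
    rcases p' with ⟨b', w'⟩ | ⟨j', i', v'⟩ | ⟨j', i', φ', w', c'⟩
  · exact ⟨h1.1.symm, h1.2.symm⟩
  · exact h1
  · exact h1
  · exact h1
  · exact h1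
  · exact h1
  · exact h1
  · exact h1
  · obtain ⟨⟨e1, e2, e3, e4⟩, e5⟩ := h1
    exact ⟨⟨e1.symm, e2.symm, e3.symm, e4.symm⟩, hR _ _ e5⟩

/-- Slots are inner, attachments are near. -/
def Gok (D : GD H s q Bl J) : VQ H s Bl J C → Prop
  | .b _ v => D.inr v
  | .z _ _ _ => True
  | .g j _ _ v _ => Near H D.xs D.ys j v

/-- A directed blue edge of the gadgets of `m`. -/
theorem edge (hr : ℕ) (W : SimpleGraph (Fin q)) (T : Fin q → SimpleGraph (Fin L₀))
    (D : GD H s q Bl J) (δ : M → SO Bl n q L₀ → I) (X : Att q C t) {g : ℕ} (hg : 2 ≤ g)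
    (hδ : ∀ m, Function.Injective (δ m)) (hsp : Sparse g δ) (m : M) (ps ps' : Fin q → Fin L₀)
    (a b : VO H h s q L₀ I M J C) (p p' : VQ H s Bl J C) (ha : AtO D δ m ps a p)
    (hb : AtO D δ m ps' b p') (hrel : relO W T D δ X a b) (hab : a ≠ b)
    (hn1 : ¬ redO hr W X a b) :
    ps = ps' ∧ cq D.xs D.ys D.ty D.io (fun a b => X.G.Adj a b ∧ ¬ X.red a b) X.att p p' ∧
      Gok D p ∧ Gok D p' := by
  rcases p with ⟨b1, w⟩ | ⟨j, k, v⟩ | ⟨j, k, φ, w, c⟩ <;>
    rcases p' with ⟨b2, w'⟩ | ⟨j', k', v'⟩ | ⟨j', k', φ', w', c'⟩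
  · have ha' : a = lowO D δ m ps b1 w := ha
    have hb' : b = lowO D δ m ps' b2 w' := hb
    rw [ha', hb'] at hrel hn1 hab
    have hr' : W.Adj (D.kd b1) (D.kd b2) ∨
        (δ m ((b1, w), ps) = δ m ((b2, w'), ps') ∧ D.kd b1 = D.kd b2 ∧
          (T (D.kd b1)).Adj (ps (D.kd b1)) (ps' (D.kd b2))) ∨
        ∃ m1 ps1 b3 v v', (lowO D δ m ps b1 w : VO H h s q L₀ I M J C) = lowO D δ m1 ps1 b3 v ∧
          (lowO D δ m ps' b2 w' : VO H h s q L₀ I M J C) = lowO D δ m1 ps1 b3 v' ∧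
            H.Adj v v' ∧ D.inr v ∧ D.inr v' := hrel
    rcases hr' with h1 | ⟨h1, -, -⟩ | ⟨m1, ps1, b3, v, v', h1, h2, h3, h4, h5⟩
    · exact absurd (show redO hr W X (lowO D δ m ps b1 w : VO H h s q L₀ I M J C)
        (lowO D δ m ps' b2 w') from h1) hn1
    · exfalso
      apply hab
      have h2 := hδ m h1
      have h4 : b1 = b2 := congrArg (fun x : SO Bl n q L₀ => x.1.1) h2
      have h5 : w = w' := congrArg (fun x : SO Bl n q L₀ => x.1.2) h2
      have h6 : ps = ps' := congrArg (fun x : SO Bl n q L₀ => x.2) h2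
      rw [h4, h5, h6]
    · have e1 := low_inj h1
      have e2 := low_inj h2
      by_cases hm : m1 = m
      · subst hm
        have e3 := hδ m1 e1
        have e4 := hδ m1 e2
        have a1 : b1 = b3 := congrArg (fun x : SO Bl n q L₀ => x.1.1) e3
        have a2 : w = v := congrArg (fun x : SO Bl n q L₀ => x.1.2) e3
        have a3 : ps = ps1 := congrArg (fun x : SO Bl n q L₀ => x.2) e3
        have c1 : b2 = b3 := congrArg (fun x : SO Bl n q L₀ => x.1.1) e4
        have c2 : w' = v' := congrArg (fun x : SO Bl n q L₀ => x.1.2) e4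
        have c3 : ps' = ps1 := congrArg (fun x : SO Bl n q L₀ => x.2) e4
        refine ⟨a3.trans c3.symm, ⟨a1.trans c1.symm, ?_⟩, ?_, ?_⟩
        · rw [a2, c2]
          exact h3
        · show D.inr w
          rw [a2]
          exact h4
        · show D.inr w'
          rw [c2]
          exact h5
      · exfalso
        apply hab
        have h6 := lin hg hsp hm e1.symm e2.symm
        have h7 := hδ m1 h6
        have h8 : v = v' := congrArg (fun x : SO Bl n q L₀ => x.1.2) h7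
        rw [h1, h2, h8]
  · have ha' : a = lowO D δ m ps b1 w := ha
    have hb' : b = .z m ps' j' k' v' := hb
    subst ha' hb'
    exact (hrel : False).elim
  · have ha' : a = lowO D δ m ps b1 w := ha
    have hb' : b = .g m ps' j' k' φ' w' c' := hb
    subst ha' hb'
    exact (hrel : False).elim
  · have ha' : a = .z m ps j k v := ha
    have hb' : b = lowO D δ m ps' b2 w' := hb
    subst ha' hb'
    obtain ⟨b3, v1, h1, h2, h3⟩ := (hrel : ∃ b3 v1, (lowO D δ m ps' b2 w' :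
      VO H h s q L₀ I M J C) = lowO D δ m ps b3 v1 ∧ D.inr v1 ∧
        bz D.xs D.ys D.ty D.io b3 v1 j k v)
    have h4 := hδ m (low_inj h1)
    have a1 : b2 = b3 := congrArg (fun x : SO Bl n q L₀ => x.1.1) h4
    have a2 : w' = v1 := congrArg (fun x : SO Bl n q L₀ => x.1.2) h4
    have a3 : ps' = ps := congrArg (fun x : SO Bl n q L₀ => x.2) h4
    refine ⟨a3.symm, ?_, ?_, ?_⟩
    · show bz D.xs D.ys D.ty D.io b2 w' j k v
      rw [a1, a2]
      exact h3
    · trivial
    · show D.inr w'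
      rw [a2]
      exact h2
  · have ha' : a = .z m ps j k v := ha
    have hb' : b = .z m ps' j' k' v' := hb
    subst ha' hb'
    exact absurd trivial hn1
  · have ha' : a = .z m ps j k v := ha
    have hb' : b = .g m ps' j' k' φ' w' c' := hb
    subst ha' hb'
    exact (hrel : False).elim
  · have ha' : a = .g m ps j k φ w c := ha
    have hb' : b = lowO D δ m ps' b2 w' := hb
    subst ha' hb'
    have hr' : (X.att c ∧ ∃ b3, (lowO D δ m ps' b2 w' : VO H h s q L₀ I M J C) =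
        lowO D δ m ps b3 w ∧ D.inr w ∧ D.io b3 j = k ∧ D.ty b3 = φ ∧ Near H D.xs D.ys j w) ∨
          X.lo c (D.kd b2) := hrel
    rcases hr' with ⟨h0, b3, h1, h2, h3, h4, hnr⟩ | h1
    · have h5 := hδ m (low_inj h1)
      have a1 : b2 = b3 := congrArg (fun x : SO Bl n q L₀ => x.1.1) h5
      have a2 : w' = w := congrArg (fun x : SO Bl n q L₀ => x.1.2) h5
      have a3 : ps' = ps := congrArg (fun x : SO Bl n q L₀ => x.2) h5
      refine ⟨a3.symm, ?_, ?_, ?_⟩
      · show D.io b2 j = k ∧ D.ty b2 = φ ∧ w' = w ∧ X.att c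
        rw [a1]
        exact ⟨h3, h4, a2, h0⟩
      · exact hnr
      · show D.inr w'
        rw [a2]
        exact h2
    · exact absurd (show redO hr W X (.g m ps j k φ w c : VO H h s q L₀ I M J C)
        (lowO D δ m ps' b2 w') from h1) hn1
  · have ha' : a = .g m ps j k φ w c := ha
    have hb' : b = .z m ps' j' k' v' := hb
    subst ha' hb'
    exact (hrel : False).elim
  · have ha' : a = .g m ps j k φ w c := ha
    have hb' : b = .g m ps' j' k' φ' w' c' := hb
    subst ha' hb'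
    obtain ⟨-, e2, e3, e4, e5, e6, e7, e8⟩ := (hrel : m = m ∧ ps = ps' ∧ j = j' ∧ k = k' ∧
      φ = φ' ∧ w = w' ∧ X.G.Adj c c' ∧ Near H D.xs D.ys j w)
    refine ⟨e2, ⟨⟨e3, e4, e5, e6⟩, e7, fun e => hn1 e⟩, e8, ?_⟩
    show Near H D.xs D.ys j' w'
    rw [← e3, ← e6]
    exact e8

end Gak

open Gak in
/-- Row GAK. -/
theorem gak_proof : GakStatement := by
  classical
  intro n d hr hb s q L₀ t p H L Bl J I M C W T D δ X hn hd hcon hfree hX hδ hsp f m hf hadj hall
  have hnn : 2 ≤ n * n := by nlinarith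
  have hblue : ∀ i k, L.Adj i k → f i ≠ f k ∧ (relO W T D δ X (f i) (f k) ∨
      relO W T D δ X (f k) (f i)) ∧ ¬ redO hr W X (f i) (f k) ∧ ¬ redO hr W X (f k) (f i) := by
    intro i k hik
    have hab := hadj i k hik
    have e1 := (SimpleGraph.fromRel_adj _ _ _).1 hab.1
    have e2 : ¬ (redO hr W X (f i) (f k) ∨ redO hr W X (f k) (f i)) := by
      have e3 := hab.2.1
      unfold cO at e3
      exact of_decide_eq_false e3
    exact ⟨e1.1, e1.2, fun e => e2 (Or.inl e), fun e => e2 (Or.inr e)⟩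
  have hF : ∀ i, ∃ (ps : Fin q → Fin L₀) (p : VQ H s Bl J C), AtO D δ m ps (f i) p := by
    intro i
    rcases hall i with ⟨ps, j, k, v, h1⟩ | ⟨b, v, ps, h1⟩ | ⟨ps, j, k, φ, v, a, h1⟩
    · exact ⟨ps, .z j k v, h1⟩
    · exact ⟨ps, .b b v, h1⟩
    · exact ⟨ps, .g j k φ v a, h1⟩
  choose P F hF using hF
  have hRs : ∀ a b, (X.G.Adj a b ∧ ¬ X.red a b) → (X.G.Adj b a ∧ ¬ X.red b a) :=
    fun a b e => ⟨e.1.symm, fun e' => e.2 (hX.sym _ _ e')⟩
  have hE : ∀ i k, L.Adj i k → P i = P k ∧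
      cq D.xs D.ys D.ty D.io (fun a b => X.G.Adj a b ∧ ¬ X.red a b) X.att (F i) (F k) ∧
      Gok D (F i) := by
    intro i k hik
    obtain ⟨e0, e1, e2, e3⟩ := hblue i k hik
    rcases e1 with e1 | e1
    · obtain ⟨g1, g2, g3, -⟩ := edge hr W T D δ X hnn hδ hsp m _ _ _ _ _ _ (hF i) (hF k) e1 e0 e2
      exact ⟨g1, g2, g3⟩
    · obtain ⟨g1, g2, -, g4⟩ := edge hr W T D δ X hnn hδ hsp m _ _ _ _ _ _ (hF k) (hF i) e1
        e0.symm e3
      exact ⟨g1.symm, cq_symm hRs g2, g4⟩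
  have hPc : ∀ i k, P i = P k := by
    intro i k
    obtain ⟨p⟩ := hcon.preconnected i k
    induction p with
    | nil => rfl
    | cons hac p ih => exact (hE _ _ hac).1.trans ih
  have hFi : Function.Injective F := by
    intro i k hik
    apply hf
    have h1 := hF i
    have h2 := hF k
    rw [← hik, ← hPc i k] at h2
    rcases hp : F i with ⟨b, v⟩ | ⟨j, k, v⟩ | ⟨j, k, φ, v, c⟩
    · rw [hp] at h1 h2
      exact Eq.trans h1 (Eq.symm h2)
    · rw [hp] at h1 h2
      exact Eq.trans h1 (Eq.symm h2)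
    · rw [hp] at h1 h2
      exact Eq.trans h1 (Eq.symm h2)
  have hno : ∀ u : Fin d, ∃ v, L.Adj u v := by
    intro u
    have : Nontrivial (Fin d) := Fin.nontrivial_iff_two_le.2 hd
    exact hcon.preconnected.exists_adj_of_nontrivial u
  refine hfree F hFi ?_ ?_ (fun u v huv => (hE u v huv).2.1)
  · intro u b w huw
    obtain ⟨v, hv⟩ := hno u
    have h1 := (hE u v hv).2.2
    rw [huw] at h1
    exact h1
  · intro u j i φ w a huw
    obtain ⟨v, hv⟩ := hno u
    have h1 := (hE u v hv).2.2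
    rw [huw] at h1
    exact h1

end MP3240CO
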