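import Pool.Agent.Lib.MP_3240be_co.CO.Base
import Pool.Agent.Lib.MP_3240be_co.H19K.Gad

/-!
# MP_3240be_co, Theorem CORE, row GQC
-/

set_option autoImplicit false

namespace MP3240CO

theorem gqc_proof : GqcStatement := by
  intro n d p s H L X' xs ys hp hC hF Bl J C ty io R A hinj hio _ hX F hFi hinn _ hadj
  exact MP3240K.gadget_free hC hp hF hX hinj hio hFi hadj hinn

end MP3240CO
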