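import Pool.Agent.Lib.MP_3240be_co.CO.Defs

/-!
# MP_3240be_co, Theorem CORE, row HST: homogeneous copies in the worlds of an index
-/

set_option autoImplicit false

namespace MP3240CO

open Finset MP3240T MP3240W
open MP3240N (Sig BigC CopyB Homog)

theorem hst_proof : HstStatement := by
  intro n h s q L₀ b₀ r sp H J I M C T K' B c hHo Cs i S
  obtain ⟨e, he⟩ := hHo.hom
    (fun w e => CopO B T c i w (Cs.s i w) e)
    (by
      intro w e h1
      exact h1.1)
    (by
      intro w
      exact Cs.big i w)
    (fun w t k => c (S k) (.l i w t))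
    (fun w t w' t' => c (.l i w t) (.l i w' t'))
  refine ⟨⟨e, ?_, ?_, ?_⟩⟩
  · intro w
    exact (he w).1
  · intro w k x y
    exact congrFun ((he w).2.1 x y) k
  · intro w w' hw x y x' y'
    exact (he w).2.2 w' hw x y x' y'

end MP3240CO
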