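import Pool.Agent.Lib.MP_3240be_co.CO.Defs

/-!
# MP_3240be_co, Theorem CORE, row NFK: the host is not Ramsey for `H'`
-/

set_option autoImplicit false

namespace MP3240CO

open Finset MP3240T MP3240W
open MP3240X (VQ cq bz)
open Pool.Agent.Lib.MP_3240be_co.H36.Chrom (Sparse)

section

variable {n h s q L₀ t hr : ℕ} {H : SimpleGraph (Fin n)} {Bl J I M C : Type}

theorem nfk_symm (W : SimpleGraph (Fin q)) (X : Att q C t) (a b : VO H h s q L₀ I M J C) :
    cO hr W X a b = cO hr W X b a := by
  unfold cO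
  exact decide_eq_decide.2 or_comm

/-- The red neighbours of the passengers are passengers of the same set, and they are neighbours in
`H`. -/
theorem nfk_red_z {W : SimpleGraph (Fin q)} {T : Fin q → SimpleGraph (Fin L₀)}
    {D : GD H s q Bl J} {δ : M → SO Bl n q L₀ → I} {X : Att q C t} {m : M}
    {ps : Fin q → Fin L₀} {j : Fin s} {k : J} {v : Fin n} {w : VO H h s q L₀ I M J C}
    (hw : (cls (FO W T D δ X) (cO hr W X) true).Adj (.z m ps j k v) w) :
    ∃ v', w = .z m ps j k v' ∧ H.Adj v v' := by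
  classical
  obtain ⟨h1, h2, -⟩ := hw
  unfold cO at h2
  rw [decide_eq_true_eq] at h2
  have h3 : ∃ m' ps' j' k' v', w = .z m' ps' j' k' v' := by
    rcases h2 with h2 | h2 <;> cases w <;> simp only [redO] at h2 <;>
      first | exact h2.elim | exact ⟨_, _, _, _, _, rfl⟩
  obtain ⟨m', ps', j', k', v', rfl⟩ := h3
  unfold FO at h1
  rw [SimpleGraph.fromRel_adj] at h1
  rcases h1.2 with ⟨e1, e2, e3, e4, h4⟩ | ⟨e1, e2, e3, e4, h4⟩
  · subst e1 e2 e3 e4
    exact ⟨v', rfl, h4⟩
  · subst e1 e2 e3 e4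
    exact ⟨v', rfl, h4.symm⟩

end

/-- Row NFK. -/
theorem nfk_proof (hR : RdkStatement) (hB : BlkStatement) : NfkStatement := by
  intro n n' d hr hb s q L₀ t p H H' L Bl J I M C W T D δ X hn hH hd hT2 hcon hfree hX hmin hTw
    hδ hsp hH' hHH' hH'H hArr
  obtain ⟨b, f, hf, hf'⟩ := hArr (cO hr W X) (nfk_symm W X)
  obtain ⟨e, he, he'⟩ := hHH'
  cases b with
  | false =>
    exact hB n d hr hb s q L₀ t p H L Bl J I M C W T D δ X hn hH hd hT2 hcon hfree hX hmin hTw
      hδ hsp ⟨fun i => f (e i), fun i j hij => he (hf hij),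
        fun i j hij => hf' _ _ (he' _ _ hij)⟩
  | true =>
    obtain ⟨m, ps, j, k, hm⟩ := hR n hr hb s q L₀ t p H Bl J I M C W T D δ X hn hH hX
      (fun i => f (e i)) (fun i j hij => he (hf hij)) (fun i j hij => hf' _ _ (he' _ _ hij))
    have key : ∀ u u' : Fin n', H'.Walk u u' → (∃ v, f u = .z m ps j k v) →
        ∃ v, f u' = .z m ps j k v := by
      intro u u' w
      induction w with
      | nil => exact id
      | cons hadj _ ih =>
        rintro ⟨v, hv⟩
        apply ih
        have h1 := hf' _ _ hadj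
        rw [hv] at h1
        obtain ⟨v', h2, -⟩ := nfk_red_z h1
        exact ⟨v', h2⟩
    have hall : ∀ u, ∃ v, f u = .z m ps j k v := by
      intro u
      obtain ⟨w⟩ := hH'.preconnected (e ⟨0, by omega⟩) u
      exact key _ _ w (hm ⟨0, by omega⟩)
    choose v hv using hall
    refine hH'H ⟨v, ?_, ?_⟩
    · intro u u' huu
      apply hf
      rw [hv u, hv u', huu]
    · intro u u' huu
      have h1 := hf' _ _ huu
      rw [hv u, hv u'] at h1
      obtain ⟨v', h2, h3⟩ := nfk_red_z h1
      injection h2 with _ _ _ _ h4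
      rw [h4]
      exact h3

end MP3240CO
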