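import Pool.Agent.Lib.MP_3240be_co.CO.Atts
import Pool.Agent.Lib.MP_3240be_co.C4.Cxg

/-!
# MP_3240be_co: Theorem CORE, row AT4 (helper57)
-/

set_option autoImplicit false

namespace MP3240CO

open Finset MP3240T MP3240W
open MP3240N (Sig)
open MP3240C (CV CxGood)
open Pool.Agent.Lib.MP_3240be_co.H36 (LocCol Blow)

namespace At4

variable {hr q : ℕ} {A E C : Type}

/-- The kind of a vertex of the red graph. -/
def knd (kd : C → Option (Fin q)) : RV hr q A E C → Option (Fin q)
  | .inl _ => none
  | .inr (.inl x) => some x.1
  | .inr (.inr x) => kd x.2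

/-- The component of a vertex of the red graph. -/
def lab (kd : C → Option (Fin q)) : RV hr q A E C → Option E
  | .inl _ => none
  | .inr (.inl _) => none
  | .inr (.inr x) => match kd x.2 with
    | some _ => none
    | none => some x.1

theorem lab_none {kd : C → Option (Fin q)} {e : E} {a : C} (h : kd a = none) :
    lab (hr := hr) (A := A) kd (.inr (.inr (e, a))) = some e := by
  show (match kd a with
    | some _ => none
    | none => some e) = some e
  rw [h]

theorem lab_some {kd : C → Option (Fin q)} {e : E} {a : C} {w : Fin q} (h : kd a = some w) :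
    lab (hr := hr) (A := A) kd (.inr (.inr (e, a))) = none := by
  show (match kd a with
    | some _ => none
    | none => some e) = none
  rw [h]

theorem kd_of {kd : C → Option (Fin q)} {e : E} {a : C}
    (h : lab (hr := hr) (A := A) kd (.inr (.inr (e, a))) = none) : ∃ w, kd a = some w := by
  cases hk : kd a with
  | none => rw [lab_none hk] at h; cases h
  | some w => exact ⟨w, rfl⟩

/-- A function that is constant along the edges of a connected graph is constant. -/
theorem const_of {n : ℕ} {H : SimpleGraph (Fin n)} (hc : H.Connected) {L : Type} (g : Fin n → L)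
    (hg : ∀ i j, H.Adj i j → g i = g j) (i j : Fin n) : g i = g j := by
  obtain ⟨p⟩ := hc.preconnected i j
  induction p with
  | nil => rfl
  | cons hadj _ ih => exact (hg _ _ hadj).trans ih

/-- At most `hr` vertices are mapped to hubs. -/
theorem card_hub {n : ℕ} (f : Fin n → RV hr q A E C) (hf : Function.Injective f)
    (S : Finset (Fin n)) (hS : ∀ i ∈ S, ∃ k, f i = .inl k) : S.card ≤ hr := by
  classical
  by_cases hh : hr = 0
  · subst hh
    rw [Nat.le_zero, Finset.card_eq_zero, Finset.eq_empty_iff_forall_notMem]
    intro i hi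
    obtain ⟨k, -⟩ := hS i hi
    exact k.elim0
  · have h0 : 0 < hr := Nat.pos_of_ne_zero hh
    let φ : RV hr q A E C → Fin hr := fun a => match a with
      | .inl i => i
      | _ => ⟨0, h0⟩
    calc S.card ≤ (univ : Finset (Fin hr)).card := by
          refine Finset.card_le_card_of_injOn (fun i => φ (f i)) (fun _ _ => Finset.mem_univ _) ?_
          intro i hi j hj hij
          obtain ⟨k, hk⟩ := hS i hi
          obtain ⟨k', hk'⟩ := hS j hj
          apply hf
          have h5 : φ (f i) = φ (f j) := hij
          rw [hk, hk'] at h5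
          have h6 : k = k' := h5
          rw [hk, hk', h6]
      _ = hr := by rw [Finset.card_univ, Fintype.card_fin]

/-- Abstract form of the red part. -/
theorem red_ok {n p t : ℕ} {H : SimpleGraph (Fin n)} {W : SimpleGraph (Fin q)} (X : Att q C t)
    (kd : C → Option (Fin q)) (hsig : Sig H (p + 1) hr) (hc : H.Connected)
    (hW : LocCol W n (p + 1)) (hsym : ∀ a b, X.red a b → X.red b a)
    (hlo : ∀ a w, X.lo a w → ∃ w', kd a = some w' ∧ W.Adj w' w)
    (hkk : ∀ a b i j, kd a = some i → kd b = some j → X.G.Adj a b → X.red a b → W.Adj i j)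
    (hkn : ∀ a b i, kd a = some i → kd b = none → X.G.Adj a b → ¬ X.red a b)
    (hrc : ∀ Y : Finset C, Y.card ≤ n → ∃ κ : C → Fin (p + 1), ∀ a ∈ Y, ∀ b ∈ Y, kd a = none →
      kd b = none → X.G.Adj a b → X.red a b → κ a ≠ κ b) : RedOK H hr W X := by
  classical
  intro A E f hinj hf
  obtain ⟨i0⟩ := hc.nonempty
  have hlab : ∀ i j, H.Adj i j → lab kd (f i) = lab kd (f j) := by
    intro i j hij
    have h := hf i j hij
    rcases hi : f i with a | a | ⟨e, a⟩ <;> rcases hj : f j with b | b | ⟨e', b⟩ <;>
      rw [hi, hj] at h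
    · rfl
    · rfl
    · exact h.elim
    · rfl
    · rfl
    · obtain ⟨w', h1, -⟩ := hlo b _ h
      exact (lab_some h1).symm
    · exact h.elim
    · obtain ⟨w', h1, -⟩ := hlo a _ h
      exact lab_some h1
    · obtain ⟨h1, h2, h3⟩ := h
      have h1' : e = e' := h1
      subst h1'
      cases hk : kd a with
      | none =>
        cases hk' : kd b with
        | none => rw [lab_none hk, lab_none hk']
        | some w => exact absurd (hsym _ _ h3) (hkn _ _ _ hk' hk h2.symm)
      | some w =>
        cases hk' : kd b with
        | none => exact absurd h3 (hkn _ _ _ hk hk' h2)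
        | some w' => rw [lab_some hk, lab_some hk']
  have hconst := const_of hc (fun i => lab kd (f i)) hlab
  cases hl : lab kd (f i0) with
  | none =>
    have hl' : ∀ i, lab kd (f i) = none := fun i => (hconst i i0).trans hl
    let Y : Finset (Fin q) := univ.filter (fun w => ∃ i, knd kd (f i) = some w)
    have hY : ∀ i w, knd kd (f i) = some w → w ∈ Y := fun i w hi =>
      Finset.mem_filter.2 ⟨Finset.mem_univ _, i, hi⟩
    have hY' : ∀ w ∈ Y, ∃ i, knd kd (f i) = some w := fun w hw => (Finset.mem_filter.1 hw).2
    have hYcard : Y.card ≤ n := by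
      have : Nonempty (Fin n) := ⟨i0⟩
      choose! ix hix using hY'
      calc Y.card ≤ (univ : Finset (Fin n)).card := by
            refine Finset.card_le_card_of_injOn ix (fun _ _ => Finset.mem_univ _) ?_
            intro w hw w' hw' e
            have h1 := hix w hw
            have h2 := hix w' hw'
            have e' : ix w = ix w' := e
            rw [e', h2] at h1
            exact (Option.some.inj h1).symm
        _ = n := by rw [Finset.card_univ, Fintype.card_fin]
    obtain ⟨g, hg, hgX⟩ := hW Y hYcard
    let κ : Fin n → Option (Fin (p + 1)) := fun i => (knd kd (f i)).map (fun w => ⟨g w, hg w⟩)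
    have hnone : ∀ i, knd kd (f i) = none → ∃ k, f i = .inl k := by
      intro i h1
      have h0 := hl' i
      rcases hi : f i with a | a | ⟨e, a⟩ <;> rw [hi] at h0 h1
      · exact ⟨a, rfl⟩
      · cases h1
      · obtain ⟨w, hw⟩ := kd_of h0
        have h2 : kd a = none := h1
        rw [hw] at h2
        cases h2
    have key : ∀ i j, H.Adj i j → (knd kd (f i) = none ∧ ∃ w, knd kd (f j) = some w) ∨
        (knd kd (f j) = none ∧ ∃ w, knd kd (f i) = some w) ∨
        ∃ w w', knd kd (f i) = some w ∧ knd kd (f j) = some w' ∧ W.Adj w w' := by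
      intro i j hij
      have h := hf i j hij
      have h0 := hl' i
      have h0' := hl' j
      rcases hi : f i with a | a | ⟨e, a⟩ <;> rcases hj : f j with b | b | ⟨e', b⟩ <;>
        rw [hi, hj] at h <;> rw [hi] at h0 <;> rw [hj] at h0'
      · exact h.elim
      · exact Or.inl ⟨rfl, _, rfl⟩
      · exact h.elim
      · exact Or.inr (Or.inl ⟨rfl, _, rfl⟩)
      · exact Or.inr (Or.inr ⟨_, _, rfl, rfl, h⟩)
      · obtain ⟨w', h1, h2⟩ := hlo b _ h
        exact Or.inr (Or.inr ⟨_, _, rfl, h1, h2.symm⟩)
      · exact h.elim
      · obtain ⟨w', h1, h2⟩ := hlo a _ h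
        exact Or.inr (Or.inr ⟨_, _, h1, rfl, h2⟩)
      · obtain ⟨w, hw⟩ := kd_of h0
        obtain ⟨w', hw'⟩ := kd_of h0'
        exact Or.inr (Or.inr ⟨_, _, hw, hw', hkk _ _ _ _ hw hw' h.2.1 h.2.2⟩)
    have hκ : ∀ i j, H.Adj i j → κ i ≠ κ j := by
      intro i j hij
      obtain ⟨h1, w, h2⟩ | ⟨h1, w, h2⟩ | ⟨w, w', h1, h2, h3⟩ := key i j hij
      · show (knd kd (f i)).map _ ≠ (knd kd (f j)).map _
        rw [h1, h2]
        simp
      · show (knd kd (f i)).map _ ≠ (knd kd (f j)).map _
        rw [h1, h2]
        simp
      · show (knd kd (f i)).map _ ≠ (knd kd (f j)).map _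
        rw [h1, h2]
        intro h4
        have h5 : g w = g w' := by simpa using h4
        exact hgX w (hY i w h1) w' (hY j w' h2) h3 h5
    have h1 := hsig κ hκ
    have h2 : (univ.filter (fun x => κ x = none)).card ≤ hr := by
      refine card_hub f hinj _ ?_
      intro i hi
      have h3 : κ i = none := (Finset.mem_filter.1 hi).2
      refine hnone i ?_
      have h5 : (knd kd (f i)).map (fun w => (⟨g w, hg w⟩ : Fin (p + 1))) = none := h3
      simpa using h5
    omega
  | some e =>
    have hg : ∀ i, ∃ a, f i = .inr (.inr (e, a)) ∧ kd a = none := by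
      intro i
      have hi : lab kd (f i) = some e := (hconst i i0).trans hl
      rcases hfi : f i with a | a | ⟨e', a⟩ <;> rw [hfi] at hi
      · cases hi
      · cases hi
      · cases hk : kd a with
        | none =>
          rw [lab_none hk] at hi
          have h6 : e' = e := Option.some.inj hi
          subst h6
          exact ⟨a, rfl, hk⟩
        | some w => rw [lab_some hk] at hi; cases hi
    choose a ha hka using hg
    obtain ⟨κ, hκ⟩ := hrc (univ.image a) (Finset.card_image_le.trans (by simp))
    have h1 := hsig (fun i => some (κ (a i))) (by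
      intro i j hij h2
      have h := hf i j hij
      rw [ha i, ha j] at h
      exact hκ (a i) (Finset.mem_image_of_mem _ (Finset.mem_univ _)) (a j)
        (Finset.mem_image_of_mem _ (Finset.mem_univ _)) (hka i) (hka j) h.2.1 h.2.2
        (Option.some.inj h2))
    have h2 : (univ.filter (fun i : Fin n => (some (κ (a i)) : Option (Fin (p + 1))) = none))
        = ∅ := by
      rw [Finset.eq_empty_iff_forall_notMem]
      intro i hi
      have h3 := (Finset.mem_filter.1 hi).2
      cases h3
    rw [h2] at h1
    simp at h1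

end At4

/-- Row AT4. -/
theorem at4_proof : At4Statement := by
  intro n hr p q LR LQ H W TR TQ hp hsig hc hW hR hQ
  have hX := MP3240C.cxg_proof n p q LR LQ W TR TQ hR hQ
  refine ⟨hX.sym, ?_, fun k => k.elim0, ?_, hX.bc⟩
  · rintro a w ha ⟨w', h1, -⟩
    rw [hX.an a ha] at h1
    cases h1
  · exact At4.red_ok (at4 W TR TQ) (MP3240C.cx W TR TQ).kd hsig hc hW hX.sym
      (fun a w h => h) hX.kk hX.kn hX.rc

end MP3240CO
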