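import Pool.Agent.Lib.MP_3240be_co.CO.Defs
import Pool.Agent.Lib.MP_3240be_co.CO.At4

/-!
# MP_3240be_co: Theorem CORE, row RDK: the red copies of `H` are passenger sets (helper57)
-/

set_option autoImplicit false

namespace MP3240CO

open Finset MP3240T MP3240W

namespace Rdk

variable {n s q L₀ t : ℕ} {H : SimpleGraph (Fin n)} {Bl J I M C : Type}

/-- The passenger set of a vertex. -/
def lab {h : ℕ} : VO H h s q L₀ I M J C → Option (M × (Fin q → Fin L₀) × Fin s × J)
  | .z m ps j k _ => some (m, ps, j, k)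
  | _ => none

/-- The position of a vertex in the red graph. -/
inductive Pos {hr hb : ℕ} : VO H (hr + hb) s q L₀ I M J C →
    RV hr q (I × Fin L₀) (M × (Fin q → Fin L₀) × Fin s × J × (Fin s → H.Dart) × Fin n) C → Prop
  | u (k : Fin (hr + hb)) (hk : k.val < hr) : Pos (.u k) (.inl ⟨k.val, hk⟩)
  | l (i : I) (w : Fin q) (x : Fin L₀) : Pos (.l i w x) (.inr (.inl (w, (i, x))))
  | g (m : M) (ps : Fin q → Fin L₀) (j : Fin s) (k : J) (φ : Fin s → H.Dart) (v : Fin n)
      (a : C) : Pos (.g m ps j k φ v a) (.inr (.inr ((m, ps, j, k, φ, v), a)))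

theorem Pos.inj {hr hb : ℕ} {a b : VO H (hr + hb) s q L₀ I M J C}
    {x : RV hr q (I × Fin L₀) (M × (Fin q → Fin L₀) × Fin s × J × (Fin s → H.Dart) × Fin n) C}
    (ha : Pos a x) (hb' : Pos b x) : a = b := by
  generalize hy : x = y at hb'
  rcases ha with ⟨k, hk⟩ | ⟨i, w, x⟩ | ⟨m, ps, j, k, φ, v, a⟩ <;>
    rcases hb' with ⟨k', hk'⟩ | ⟨i', w', x'⟩ | ⟨m', ps', j', k', φ', v', a'⟩
  · have h1 := Sum.inl.inj hy
    have h2 : k.val = k'.val := by
      have h3 := congrArg (fun x : Fin hr => x.val) h1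
      exact h3
    rw [Fin.ext h2]
  · cases hy
  · cases hy
  · cases hy
  · cases hy
    rfl
  · cases hy
  · cases hy
  · cases hy
  · cases hy
    rfl

theorem red_of {hr hb : ℕ} {W : SimpleGraph (Fin q)} {T : Fin q → SimpleGraph (Fin L₀)}
    {D : GD H s q Bl J} {δ : M → SO Bl n q L₀ → I} {X : Att q C t}
    {a b : VO H (hr + hb) s q L₀ I M J C}
    (hab : (cls (FO W T D δ X) (cO hr W X) true).Adj a b) :
    (redO hr W X a b ∨ redO hr W X b a) ∧
      (relO W T D δ X a b ∨ relO W T D δ X b a) := by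
  obtain ⟨h1, h2, -⟩ := hab
  refine ⟨?_, ?_⟩
  · unfold cO at h2
    simpa using h2
  · unfold FO at h1
    rw [SimpleGraph.fromRel_adj] at h1
    exact h1.2

theorem lab_red {hr hb : ℕ} {W : SimpleGraph (Fin q)} {T : Fin q → SimpleGraph (Fin L₀)}
    {D : GD H s q Bl J} {δ : M → SO Bl n q L₀ → I} {X : Att q C t}
    (a b : VO H (hr + hb) s q L₀ I M J C) (h1 : redO hr W X a b)
    (h2 : relO W T D δ X a b ∨ relO W T D δ X b a) : lab a = lab b := by
  rcases a with _ | _ | ⟨m, ps, j, k, v⟩ | ⟨m, ps, j, k, φ, v, a⟩ <;>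
    rcases b with _ | _ | ⟨m', ps', j', k', v'⟩ | ⟨m', ps', j', k', φ', v', a'⟩ <;>
    first
    | rfl
    | exact h1.elim
    | skip
  have h3 : m = m' ∧ ps = ps' ∧ j = j' ∧ k = k' := by
    obtain ⟨h3, h4, h5, h6, -⟩ | ⟨h3, h4, h5, h6, -⟩ := h2
    · exact ⟨h3, h4, h5, h6⟩
    · exact ⟨h3.symm, h4.symm, h5.symm, h6.symm⟩
  obtain ⟨rfl, rfl, rfl, rfl⟩ := h3
  rfl

theorem lab_adj {hr hb : ℕ} {W : SimpleGraph (Fin q)} {T : Fin q → SimpleGraph (Fin L₀)}
    {D : GD H s q Bl J} {δ : M → SO Bl n q L₀ → I} {X : Att q C t}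
    {a b : VO H (hr + hb) s q L₀ I M J C}
    (hab : (cls (FO W T D δ X) (cO hr W X) true).Adj a b) : lab a = lab b := by
  obtain ⟨h1 | h1, h2⟩ := red_of hab
  · exact lab_red a b h1 h2
  · exact (lab_red b a h1 h2.symm).symm

theorem pos_adj {hr hb : ℕ} {W : SimpleGraph (Fin q)} {T : Fin q → SimpleGraph (Fin L₀)}
    {D : GD H s q Bl J} {δ : M → SO Bl n q L₀ → I} {X : Att q C t}
    (hs : ∀ a b, X.red a b → X.red b a) {a b : VO H (hr + hb) s q L₀ I M J C}
    {x y : RV hr q (I × Fin L₀) (M × (Fin q → Fin L₀) × Fin s × J × (Fin s → H.Dart) × Fin n) C}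
    (ha : Pos a x) (hb' : Pos b y) (h1 : redO hr W X a b ∨ redO hr W X b a)
    (h2 : relO W T D δ X a b ∨ relO W T D δ X b a) : redR W X x y := by
  rcases ha with ⟨k, hk⟩ | ⟨i, w, x⟩ | ⟨m, ps, j, k, φ, v, a⟩ <;>
    rcases hb' with ⟨k', hk'⟩ | ⟨i', w', x'⟩ | ⟨m', ps', j', k', φ', v', a'⟩
  · exact h1.elim (fun h => h.elim) (fun h => h.elim)
  · exact trivial
  · exact h1.elim (fun h => h.elim) (fun h => h.elim)
  · exact trivial
  · obtain h1 | h1 := h1
    · exact h1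
    · exact SimpleGraph.Adj.symm h1
  · exact h1.elim (fun h => h.elim) (fun h => h)
  · exact h1.elim (fun h => h.elim) (fun h => h.elim)
  · exact h1.elim (fun h => h) (fun h => h.elim)
  · have h3 : m = m' ∧ ps = ps' ∧ j = j' ∧ k = k' ∧ φ = φ' ∧ v = v' ∧ X.G.Adj a a' := by
      obtain ⟨h3, h4, h5, h6, h7, h8, h9, -⟩ | ⟨h3, h4, h5, h6, h7, h8, h9, -⟩ := h2
      · exact ⟨h3, h4, h5, h6, h7, h8, h9⟩
      · exact ⟨h3.symm, h4.symm, h5.symm, h6.symm, h7.symm, h8.symm, h9.symm⟩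
    obtain ⟨rfl, rfl, rfl, rfl, rfl, rfl, h9⟩ := h3
    have h4 : X.red a a' := by
      obtain h1 | h1 := h1
      · exact h1
      · exact hs _ _ h1
    exact ⟨rfl, h9, h4⟩

end Rdk

open Rdk in
/-- Row RDK. -/
theorem rdk_proof : RdkStatement := by
  classical
  intro n hr hb s q L₀ t p H Bl J I M C W T D δ X hn hc hX f hinj hf
  obtain ⟨i0⟩ := hc.nonempty
  have hconst : ∀ i j, lab (f i) = lab (f j) :=
    At4.const_of hc (fun i => lab (f i)) (fun i j hij => lab_adj (hf i j hij))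
  have hnb : ∀ i, ∃ j, H.Adj i j := by
    intro i
    have : Nontrivial (Fin n) := Fin.nontrivial_iff_two_le.mpr hn
    obtain ⟨j, hj⟩ := exists_ne i
    obtain ⟨w⟩ := hc.preconnected i j
    cases w with
    | nil => exact absurd rfl hj
    | cons hadj _ => exact ⟨_, hadj⟩
  cases hl : lab (f i0) with
  | some x =>
    obtain ⟨m, ps, j, k⟩ := x
    refine ⟨m, ps, j, k, fun i => ?_⟩
    have hi : lab (f i) = some (m, ps, j, k) := (hconst i i0).trans hl
    rcases hfi : f i with _ | _ | ⟨m', ps', j', k', v'⟩ | ⟨m', ps', j', k', φ', v', a'⟩ <;>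
      rw [hfi] at hi
    · cases hi
    · cases hi
    · cases hi
      exact ⟨v', rfl⟩
    · cases hi
  | none =>
    exfalso
    have hl' : ∀ i, lab (f i) = none := fun i => (hconst i i0).trans hl
    -- red hubs
    have hu : ∀ i k, f i = .u k → k.val < hr := by
      intro i k hk
      obtain ⟨j, hij⟩ := hnb i
      obtain ⟨h1, -⟩ := red_of (hf i j hij)
      rw [hk] at h1
      rcases hj : f j with _ | _ | ⟨m', ps', j', k', v'⟩ | ⟨m', ps', j', k', φ', v', a'⟩ <;>
        rw [hj] at h1 <;> rcases h1 with h1 | h1 <;>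
        first
        | exact h1
        | exact h1.elim
    have hpos : ∀ i, ∃ x : RV hr q (I × Fin L₀)
        (M × (Fin q → Fin L₀) × Fin s × J × (Fin s → H.Dart) × Fin n) C, Pos (f i) x := by
      intro i
      have hi := hl' i
      rcases hfi : f i with k | ⟨i, w, x⟩ | ⟨m', ps', j', k', v'⟩ |
        ⟨m', ps', j', k', φ', v', a'⟩
      · exact ⟨_, Pos.u k (hu i k hfi)⟩
      · exact ⟨_, Pos.l i w x⟩
      · rw [hfi] at hi
        cases hi
      · exact ⟨_, Pos.g m' ps' j' k' φ' v' a'⟩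
    choose g hg using hpos
    refine hX.red _ _ g ?_ ?_
    · intro i j hij
      apply hinj
      have h1 := hg i
      rw [hij] at h1
      exact h1.inj (hg j)
    · intro i j hij
      obtain ⟨h1, h2⟩ := red_of (hf i j hij)
      exact pos_adj hX.sym (hg i) (hg j) h1 h2

end MP3240CO
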