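import Pool.Agent.Lib.MP_3240be_co.CO.Defs
import Pool.Agent.Lib.MP_3240be_co.M3.Joi

/-!
# MP_3240be_co: Theorem CORE, row RU1 (RULE 1)
-/

set_option autoImplicit false

namespace MP3240CO

open Finset MP3240T MP3240W
open MP3240N (Sig BigC CopyB Homog)
open MP3240M (MData)
open Pool.Agent.Lib.MP_3240be_co.H36 (LocCol Blow)

/-- RULE 1 without the host: a vertex `v` and `hr` hubs over `S` and the `E j`, `j ≠ j₀`. -/
theorem ru1_free {n r hr b₀ : ℕ} {V : Type} (H : SimpleGraph (Fin n))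
    (D : MData H r hr) (G : SimpleGraph V) (c : V → V → Bool) (hc : ∀ x y, c x y = c y x)
    (b : Bool) (hno : ¬ Emb H (cls G c b)) (E : Fin r → Fin b₀ → V)
    (hEi : ∀ j, Function.Injective (E j))
    (hEa : ∀ j j' x y, j ≠ j' → G.Adj (E j x) (E j' y))
    (hEc : ∀ j j' x y, j ≠ j' → c (E j x) (E j' y) = b)
    (g : Fin n → Fin b₀) (hg : Function.Injective g)
    (U : Fin hr → V) (hU : Function.Injective U)
    (hUE : ∀ k j x, G.Adj (U k) (E j x) ∧ c (U k) (E j x) = b)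
    (j₀ : Fin r) (v : V) (S : Finset V) (hS : n ≤ S.card)
    (hvE : ∀ j x, j ≠ j₀ → G.Adj v (E j x) ∧ c v (E j x) = b)
    (hvS : ∀ a ∈ S, G.Adj v a ∧ c v a = b)
    (hUS : ∀ a ∈ S, ∀ k, G.Adj (U k) a ∧ c (U k) a = b)
    (hSE : ∀ a ∈ S, ∀ j x, j ≠ j₀ → G.Adj a (E j x) ∧ c a (E j x) = b)
    (hvU : ∀ k, v ≠ U k) : False := by
  classical
  have hcl : ∀ x y, G.Adj x y ∧ c x y = b → (cls G c b).Adj x y := fun x y h1 =>
    ⟨h1.1, h1.2, by rw [hc]; exact h1.2⟩
  obtain ⟨f, hf1, hf2⟩ : ∃ f : Fin n → V, Function.Injective f ∧ ∀ x, f x ∈ S := by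
    obtain ⟨S', hS', hS'c⟩ := exists_subset_card_eq hS
    have e := S'.equivFinOfCardEq hS'c
    exact ⟨fun x => (e.symm x).1, fun x y h => e.symm.injective (Subtype.ext h),
      fun x => hS' (e.symm x).2⟩
  set F : Fin r → Fin n → V := fun j x => if j = j₀ then f x else E j (g x) with hF
  have hF0 : ∀ x, F j₀ x = f x := fun x => by simp [hF]
  have hF1 : ∀ j x, j ≠ j₀ → F j x = E j (g x) := fun j x hj => by simp [hF, hj]
  refine hno (MP3240M.joi_proof n r hr H D V (cls G c b) F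
    (insert v (univ.image U)) ?_ ?_ ?_ ?_)
  · intro j x y hxy
    by_cases hj : j = j₀
    · subst hj
      rw [hF0, hF0] at hxy
      exact hf1 hxy
    · rw [hF1 j _ hj, hF1 j _ hj] at hxy
      exact hg (hEi j hxy)
  · intro j j' hjj x y
    by_cases hj : j = j₀
    · subst hj
      rw [hF0, hF1 j' _ (Ne.symm hjj)]
      exact hcl _ _ (hSE _ (hf2 x) j' _ (Ne.symm hjj))
    · by_cases hj' : j' = j₀
      · subst hj'
        rw [hF0, hF1 j _ hj]
        exact (hcl _ _ (hSE _ (hf2 y) j _ hj)).symm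
      · rw [hF1 j _ hj, hF1 j' _ hj']
        exact hcl _ _ ⟨hEa _ _ _ _ hjj, hEc _ _ _ _ hjj⟩
  · have h1 : v ∉ univ.image U := by
      intro h2
      obtain ⟨k, -, hk⟩ := mem_image.mp h2
      exact hvU k hk.symm
    rw [card_insert_of_notMem h1, card_image_of_injective _ hU, card_univ, Fintype.card_fin]
    exact Nat.lt_succ_self _
  · intro s hs j x
    rcases mem_insert.mp hs with rfl | hs
    · by_cases hj : j = j₀
      · subst hj
        rw [hF0]
        exact hcl _ _ (hvS _ (hf2 x))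
      · rw [hF1 j _ hj]
        exact hcl _ _ (hvE j _ hj)
    · obtain ⟨k, -, rfl⟩ := mem_image.mp hs
      by_cases hj : j = j₀
      · subst hj
        rw [hF0]
        exact hcl _ _ (hUS _ (hf2 x) k)
      · rw [hF1 j _ hj]
        exact hcl _ _ (hUE k j _)

/-- A nonempty finite set with at most `m` elements is the image of `Fin m`. -/
theorem ru1_enum {α : Type} [DecidableEq α] (T : Finset α) (m : ℕ) (hT : T.Nonempty)
    (hc : T.card ≤ m) : ∃ f : Fin m → α, ∀ s ∈ T, ∃ k, f k = s := by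
  obtain ⟨d, hd⟩ := hT
  refine ⟨fun k => if hk : (k : ℕ) < T.card then (T.equivFin.symm ⟨k, hk⟩).1 else d, ?_⟩
  intro s hs
  refine ⟨⟨T.equivFin ⟨s, hs⟩, lt_of_lt_of_le (T.equivFin ⟨s, hs⟩).2 hc⟩, ?_⟩
  have h1 : ((T.equivFin ⟨s, hs⟩ : Fin T.card) : ℕ) < T.card := (T.equivFin ⟨s, hs⟩).2
  simp only
  rw [dif_pos h1]
  simp

/-- The hubs of one colour. -/
theorem ru1_hubs {g m : ℕ} (θ : Fin g → Bool) (b : Bool)
    (hm : (univ.filter (fun k => θ k = b)).card = m) :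
    ∃ f : Fin m → Fin g, Function.Injective f ∧ ∀ k, θ (f k) = b := by
  have e := (univ.filter (fun k => θ k = b)).equivFinOfCardEq hm
  refine ⟨fun k => (e.symm k).1, ?_, ?_⟩
  · intro k k' h
    exact e.symm.injective (Subtype.ext h)
  · intro k
    exact (mem_filter.mp (e.symm k).2).2

theorem ru1_proof (hT : TonStatement) : Ru1Statement := by
  classical
  intro n d hr hb s q L₀ b₀ t r sp H L D X₀ Bl J I M C W T K' D' δ X B c hr2 hsn hEx hX₀ hX₀c hc
    hno Cs hhst i K b hfine i' w x j₀ A hw hA hAu hAv hAn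
  obtain ⟨S, hSA, hSc⟩ := exists_subset_card_eq hAn
  set v : VO H (hr + hb) s q L₀ I M J C := .l i' w x with hv
  -- the special vertices
  have hsp : ∃ f : Fin sp → VO H (hr + hb) s q L₀ I M J C, ∀ s ∈ insert v S, ∃ k, f k = s := by
    refine ru1_enum _ _ ⟨v, mem_insert_self _ _⟩ ?_
    refine (card_insert_le _ _).trans ?_
    rw [hSc]
    exact hsn
  obtain ⟨sf, hsf⟩ := hsp
  obtain ⟨Z⟩ := hhst i sf
  obtain ⟨hcross, hlast⟩ := (hT n d hr hb s q L₀ b₀ t r sp H L D X₀ Bl J I M C W T K' D' δ X B c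
    hr2 hEx hX₀ hX₀c hc hno Cs i sf Z K hfine.adj hfine.same).2 b hfine
  have hr0 : 0 < r := by omega
  -- `n` points
  obtain ⟨g, hg⟩ : ∃ g : Fin n → Fin b₀, Function.Injective g := by
    obtain ⟨F, hF1, _⟩ := (Z.cop (K ⟨0, hr0⟩)).2.2.1 b
    exact ⟨F ⟨0, by rw [hfine.one]; exact Nat.one_pos⟩, hF1 _⟩
  -- the hubs of colour `b`
  obtain ⟨u, hu, hub⟩ := ru1_hubs (Cs.s i (K j₀)).1 b (hfine.hub j₀)
  -- the colour of a special vertex to a world
  have hspec : ∀ (s : VO H (hr + hb) s q L₀ I M J C) (j : Fin r), s ∈ insert v S →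
      (∀ k, s ≠ .u k) → (∀ a, (FO W T D' δ X).Adj s (.l i (K j) a)) →
      ∀ a, (FO W T D' δ X).Adj s (.l i (K j) (Z.e (K j) a)) ∧
        c s (.l i (K j) (Z.e (K j) a)) = b := by
    intro s j hs hsu hadj a
    have h1 := hlast s j hsu (fun a => hadj _)
    push Not at h1
    obtain ⟨a', ha'⟩ := h1
    obtain ⟨k, hk⟩ := hsf s hs
    have h2 := Z.spe (K j) k a a'
    rw [hk] at h2
    refine ⟨hadj _, ?_⟩
    rw [h2]
    cases h6 : c s (.l i (K j) (Z.e (K j) a')) <;> cases b <;> simp_all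
  have hA' : ∀ a ∈ S, ∃ i'' x', a = .l i'' (K j₀) x' := fun a ha => hA a (hSA ha)
  refine ru1_free H D (FO W T D' δ X) c hc b (hno b)
    (fun j a => .l i (K j) (Z.e (K j) a)) ?_ ?_ ?_ g hg (fun k => .u (u k)) ?_ ?_ j₀ v S hSc.ge
    ?_ ?_ ?_ ?_ ?_
  · intro j a a' haa
    injection haa with _ _ h3
    exact (Z.cop (K j)).1.1 h3
  · intro j j' a a' hj
    exact adj_ll W T D' δ X (hfine.adj j j' hj) _ _ _ _
  · intro j j' a a' hj
    exact hcross j j' hj _ _
  · intro k k' hkk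
    injection hkk with h1
    exact hu h1
  · intro k j a
    refine ⟨adj_ul W T D' δ X _ _ _ _, ?_⟩
    have h1 := (Z.cop (K j)).2.1 a (u k)
    rw [h1, hfine.same j j₀]
    exact hub k
  · intro j a hj
    refine hspec v j (mem_insert_self _ _) ?_ ?_ a
    · intro k hk; rw [hv] at hk; cases hk
    · intro a'
      exact adj_ll W T D' δ X (hw j hj) _ _ _ _
  · intro a ha
    exact hAv a (hSA ha)
  · intro a ha k
    refine ⟨?_, hAu a (hSA ha) _ (hub k)⟩
    obtain ⟨i'', x', rfl⟩ := hA' a ha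
    exact adj_ul W T D' δ X _ _ _ _
  · intro a ha j a' hj
    obtain ⟨i'', x', hat⟩ := hA' a ha
    refine hspec a j ?_ ?_ ?_ a'
    · exact mem_insert_of_mem ha
    · intro k hk; rw [hat] at hk; cases hk
    · intro a''
      rw [hat]
      exact adj_ll W T D' δ X (hfine.adj j₀ j hj.symm) _ _ _ _
  · intro k heq
    rw [hv] at heq
    cases heq

end MP3240CO
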