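import Pool.Agent.Lib.MP_3240be_co.CO.Fin
import Pool.Agent.Lib.MP_3240be_co.CO.Ark
import Pool.Agent.Lib.MP_3240be_co.CO.Nfk
import Pool.Agent.Lib.MP_3240be_co.CO.Cla
import Pool.Agent.Lib.MP_3240be_co.CO.Hst
import Pool.Agent.Lib.MP_3240be_co.CO.Ru1
import Pool.Agent.Lib.MP_3240be_co.CO.Rdk
import Pool.Agent.Lib.MP_3240be_co.CO.Blk
import Pool.Agent.Lib.MP_3240be_co.CO.Gak
import Pool.Agent.Lib.MP_3240be_co.CO.Gqc
import Pool.Agent.Lib.MP_3240be_co.CO.Cox
import Pool.Agent.Lib.MP_3240be_co.CO.Bpl
import Pool.Agent.Lib.MP_3240be_co.CO.Tht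
import Pool.Agent.Lib.MP_3240be_co.H43.Pc2
import Pool.Agent.Lib.MP_3240be_co.H36c.Fld

/-!
# MP_3240be_co, Theorem CORE: all rows together
-/

set_option autoImplicit false

namespace MP3240CO

/-- The main theorem for graphs that are not in the gadgets. -/
theorem main_all : MainStatement :=
  main_of (ark_proof cla_proof hst_proof (ton_proof sta_proof) (ru1_proof (ton_proof sta_proof)))
    (nfk_proof rdk_proof (blk_proof MP3240W.pc2_proof gak_proof))

/-- Cores satisfying the existence statement (EX). -/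
theorem coreEx_all : CoreExStatement := cox_proof main_all gqc_proof

/-- Cores satisfying the numerical criterion. -/
theorem coreNum_all : CoreNumStatement := coreNum_proof coreEx_all (bpl_proof tht_proof)

end MP3240CO
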