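import Pool.Agent.Lib.MP_3240be_co.CO.Num
import Pool.Agent.Lib.MP_3240be_co.H34.Defs

/-!
# MP_3240be_co, Theorem CORE: Corollary 1' (blocks with an apex)

If every block of `H` has a vertex whose deletion makes it `r`-colourable, then the vertices of
`H` can be partitioned into `r` sets that induce forests.
-/

set_option autoImplicit false

namespace MP3240CO

open Finset MP3240T MP3240W
open MP3240L (Blk IsBlock)

/-- The edges of `G` with both ends in `S`. -/
def res {V : Type} (G : SimpleGraph V) (S : V → Prop) : SimpleGraph V where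
  Adj x y := G.Adj x y ∧ S x ∧ S y
  symm := ⟨fun _ _ h => ⟨h.1.symm, h.2.2, h.2.1⟩⟩
  loopless := ⟨fun x h => G.loopless.irrefl x h.1⟩

/-- An edge of `S₁` is a bridge of the union if it is a bridge of `S₁`. -/
theorem bridge_glue {V : Type} (G : SimpleGraph V) (S₁ S₂ : V → Prop) (a : V)
    (h : ∀ x y, G.Adj x y → (S₁ x ∧ S₁ y) ∨ (S₂ x ∧ S₂ y)) (hint : ∀ x, S₁ x → S₂ x → x = a)
    (h₁ : (res G S₁).IsAcyclic) {v w : V} (hvw : G.Adj v w) (hv : S₁ v) (hw : S₁ w) :
    G.IsBridge s(v, w) := by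
  classical
  rw [SimpleGraph.isBridge_iff]
  intro hre
  have hb := SimpleGraph.isAcyclic_iff_forall_adj_isBridge.1 h₁ (v := v) (w := w) ⟨hvw, hv, hw⟩
  rw [SimpleGraph.isBridge_iff] at hb
  apply hb
  let ρ : V → V := fun x => if S₁ x then x else a
  have key : ∀ x y, (G.deleteEdges {s(v, w)}).Reachable x y →
      ((res G S₁).deleteEdges {s(v, w)}).Reachable (ρ x) (ρ y) := by
    rintro x y ⟨p⟩
    induction p with
    | nil => exact SimpleGraph.Reachable.refl _
    | @cons x z y hxz _ ih =>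
      refine SimpleGraph.Reachable.trans ?_ ih
      rw [SimpleGraph.deleteEdges_adj] at hxz
      obtain ⟨h3, h4⟩ := hxz
      by_cases hS : S₁ x ∧ S₁ z
      · have h5 : ρ x = x := if_pos hS.1
        have h6 : ρ z = z := if_pos hS.2
        rw [h5, h6]
        refine SimpleGraph.Adj.reachable ?_
        rw [SimpleGraph.deleteEdges_adj]
        exact ⟨⟨h3, hS.1, hS.2⟩, h4⟩
      · have h7 : S₂ x ∧ S₂ z := by
          rcases h x z h3 with h8 | h8
          · exact absurd h8 hS
          · exact h8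
        have h5 : ρ x = a := by
          by_cases hx : S₁ x
          · exact (if_pos hx).trans (hint x hx h7.1)
          · exact if_neg hx
        have h6 : ρ z = a := by
          by_cases hz : S₁ z
          · exact (if_pos hz).trans (hint z hz h7.2)
          · exact if_neg hz
        rw [h5, h6]
  have h9 := key v w hre
  have h5 : ρ v = v := if_pos hv
  have h6 : ρ w = w := if_pos hw
  rw [h5, h6] at h9
  exact h9

/-- Gluing acyclic graphs at (at most) one vertex. -/
theorem acyclic_glue {V : Type} (G : SimpleGraph V) (S₁ S₂ : V → Prop) (a : V)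
    (h : ∀ x y, G.Adj x y → (S₁ x ∧ S₁ y) ∨ (S₂ x ∧ S₂ y)) (hint : ∀ x, S₁ x → S₂ x → x = a)
    (h₁ : (res G S₁).IsAcyclic) (h₂ : (res G S₂).IsAcyclic) : G.IsAcyclic := by
  rw [SimpleGraph.isAcyclic_iff_forall_adj_isBridge]
  intro v w hvw
  rcases h v w hvw with ⟨hv, hw⟩ | ⟨hv, hw⟩
  · exact bridge_glue G S₁ S₂ a h hint h₁ hvw hv hw
  · exact bridge_glue G S₂ S₁ a (fun x y hxy => (h x y hxy).symm) (fun x hx hx' => hint x hx' hx)
      h₂ hvw hv hw

/-- The edges in `S` with ends of the same colour. -/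
def mono {n r : ℕ} (H : SimpleGraph (Fin n)) (κ : Fin n → Fin r) (S : Finset (Fin n)) :
    SimpleGraph (Fin n) where
  Adj x y := H.Adj x y ∧ x ∈ S ∧ y ∈ S ∧ κ x = κ y
  symm := ⟨fun _ _ h => ⟨h.1.symm, h.2.2.1, h.2.1, h.2.2.2.symm⟩⟩
  loopless := ⟨fun x h => H.loopless.irrefl x h.1⟩

/-- A set that does not induce a connected graph. -/
theorem exists_split {n : ℕ} (H : SimpleGraph (Fin n)) (T : Finset (Fin n)) (hT : T.Nonempty)
    (h : ¬ (H.induce {x | x ∈ T}).Connected) : ∃ T₁ T₂ : Finset (Fin n), T₁.Nonempty ∧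
      T₂.Nonempty ∧ T₁ ∪ T₂ = T ∧ Disjoint T₁ T₂ ∧ ∀ x ∈ T₁, ∀ y ∈ T₂, ¬ H.Adj x y := by
  classical
  have hne : Nonempty {x | x ∈ T} := hT.to_subtype
  have h1 : ¬ (H.induce {x | x ∈ T}).Preconnected := fun h2 => h ⟨h2⟩
  unfold SimpleGraph.Preconnected at h1
  push Not at h1
  obtain ⟨u, v, huv⟩ := h1
  refine ⟨T.filter (fun x => ∃ hx : x ∈ T, (H.induce {x | x ∈ T}).Reachable u ⟨x, hx⟩),
    T.filter (fun x => ¬ ∃ hx : x ∈ T, (H.induce {x | x ∈ T}).Reachable u ⟨x, hx⟩), ?_, ?_, ?_,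
    ?_, ?_⟩
  · exact ⟨u.1, mem_filter.2 ⟨u.2, u.2, SimpleGraph.Reachable.refl _⟩⟩
  · refine ⟨v.1, mem_filter.2 ⟨v.2, ?_⟩⟩
    rintro ⟨_, h2⟩
    exact huv h2
  · exact filter_union_filter_not_eq _ _
  · exact disjoint_filter_filter_not _ _ _
  · intro x hx y hy hxy
    obtain ⟨hxT, hx', hre⟩ := mem_filter.1 hx
    obtain ⟨hyT, hy'⟩ := mem_filter.1 hy
    exact hy' ⟨hyT, hre.trans (SimpleGraph.Adj.reachable
      (show (H.induce {x | x ∈ T}).Adj ⟨x, hx'⟩ ⟨y, hyT⟩ from hxy))⟩

/-- Colourings of two parts with at most one common vertex. -/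
theorem glue_col {n r : ℕ} (H : SimpleGraph (Fin n)) (S S₁ S₂ : Finset (Fin n)) (a : Fin n)
    (hS : S = S₁ ∪ S₂) (hint : ∀ x, x ∈ S₁ → x ∈ S₂ → x = a)
    (hno : ∀ x ∈ S₁, ∀ y ∈ S₂, H.Adj x y → x ∈ S₂ ∨ y ∈ S₁) {κ₁ κ₂ : Fin n → Fin r}
    (h₁ : (mono H κ₁ S₁).IsAcyclic) (h₂ : (mono H κ₂ S₂).IsAcyclic) :
    ∃ κ : Fin n → Fin r, (mono H κ S).IsAcyclic := by
  classical
  let π : Equiv.Perm (Fin r) := Equiv.swap (κ₂ a) (κ₁ a)
  have hπ : π (κ₂ a) = κ₁ a := Equiv.swap_apply_left _ _
  let κ : Fin n → Fin r := fun x => if x ∈ S₁ then κ₁ x else π (κ₂ x)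
  have e1 : ∀ x ∈ S₁, κ x = κ₁ x := fun x hx => if_pos hx
  have e2 : ∀ x ∈ S₂, κ x = π (κ₂ x) := by
    intro x hx
    by_cases hx1 : x ∈ S₁
    · rw [e1 x hx1, hint x hx1 hx, hπ]
    · exact if_neg hx1
  refine ⟨κ, acyclic_glue _ (fun x => x ∈ S₁) (fun x => x ∈ S₂) a ?_ hint ?_ ?_⟩
  · rintro x y ⟨hxy, hx, hy, -⟩
    rw [hS, mem_union] at hx hy
    rcases hx with hx | hx <;> rcases hy with hy | hy
    · exact Or.inl ⟨hx, hy⟩
    · rcases hno x hx y hy hxy with h | h
      · exact Or.inr ⟨h, hy⟩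
      · exact Or.inl ⟨hx, h⟩
    · rcases hno y hy x hx hxy.symm with h | h
      · exact Or.inr ⟨hx, h⟩
      · exact Or.inl ⟨h, hy⟩
    · exact Or.inr ⟨hx, hy⟩
  · refine SimpleGraph.IsAcyclic.anti ?_ h₁
    rintro x y ⟨⟨hxy, -, -, he⟩, hx, hy⟩
    exact ⟨hxy, hx, hy, by rw [← e1 x hx, ← e1 y hy, he]⟩
  · refine SimpleGraph.IsAcyclic.anti ?_ h₂
    rintro x y ⟨⟨hxy, -, -, he⟩, hx, hy⟩
    refine ⟨hxy, hx, hy, π.injective ?_⟩
    rw [← e2 x hx, ← e2 y hy, he]

/-- If every 2-connected induced subgraph has a vertex whose deletion makes it `r`-colourable, then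
the vertices can be partitioned into `r` sets that induce forests. -/
theorem forest_partition {n r : ℕ} (H : SimpleGraph (Fin n)) (hr : 1 ≤ r)
    (h : ∀ S, Blk H S → ∃ x ∈ S, ∃ κ : Fin n → Fin r, ∀ y ∈ S, ∀ z ∈ S, y ≠ x → z ≠ x →
      H.Adj y z → κ y ≠ κ z) (k : ℕ) : ∀ S : Finset (Fin n), S.card = k →
    ∃ κ : Fin n → Fin r, (mono H κ S).IsAcyclic := by
  classical
  induction k using Nat.strong_induction_on with
  | _ k ih =>
    intro S hk
    by_cases h3 : 3 ≤ S.card
    · by_cases hc : (H.induce {x | x ∈ S}).Connected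
      · by_cases hcut : ∀ a ∈ S, (H.induce {x | x ∈ S ∧ x ≠ a}).Connected
        · obtain ⟨x, hx, κ, hκ⟩ := h S ⟨h3, hc, hcut⟩
          refine ⟨κ, acyclic_star _ x ?_⟩
          rintro y z ⟨hyz, hy, hz, he⟩
          by_contra hcon
          push Not at hcon
          exact hκ y hy z hz hcon.1 hcon.2 hyz he
        · push Not at hcut
          obtain ⟨a, ha, hcut⟩ := hcut
          have hce : (S.erase a).card = S.card - 1 := card_erase_of_mem ha
          have hne : (S.erase a).Nonempty := card_pos.1 (by omega)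
          have hcut' : ¬ (H.induce {x | x ∈ S.erase a}).Connected := by
            have e : {x | x ∈ S.erase a} = {x | x ∈ S ∧ x ≠ a} := by
              ext x
              simp only [Set.mem_ofPred_eq, mem_erase]
              exact and_comm
            rw [e]
            exact hcut
          obtain ⟨T₁, T₂, hT1, hT2, hU, hD, hE⟩ := exists_split H (S.erase a) hne hcut'
          have hcU : T₁.card + T₂.card = S.card - 1 := by
            rw [← card_union_of_disjoint hD, hU, hce]
          have h1 : 0 < T₁.card := card_pos.2 hT1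
          have h2 : 0 < T₂.card := card_pos.2 hT2
          have ha1 : a ∉ T₁ := fun ha1 => (notMem_erase a S) (hU ▸ mem_union_left _ ha1)
          have ha2 : a ∉ T₂ := fun ha2 => (notMem_erase a S) (hU ▸ mem_union_right _ ha2)
          obtain ⟨κ₁, hκ₁⟩ := ih (insert a T₁).card (by
            rw [card_insert_of_notMem ha1]; omega) (insert a T₁) rfl
          obtain ⟨κ₂, hκ₂⟩ := ih (insert a T₂).card (by
            rw [card_insert_of_notMem ha2]; omega) (insert a T₂) rfl
          refine glue_col H S (insert a T₁) (insert a T₂) a ?_ ?_ ?_ hκ₁ hκ₂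
          · rw [insert_union, union_insert, hU, insert_idem, insert_erase ha]
          · intro x hx hx'
            rw [mem_insert] at hx hx'
            rcases hx with hx | hx
            · exact hx
            · rcases hx' with hx' | hx'
              · exact hx'
              · exact absurd hx' (disjoint_left.1 hD hx)
          · intro x hx y hy hxy
            rw [mem_insert] at hx hy
            rcases hx with hx | hx
            · exact Or.inl (hx ▸ mem_insert_self _ _)
            · rcases hy with hy | hy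
              · exact Or.inr (hy ▸ mem_insert_self _ _)
              · exact absurd hxy (hE x hx y hy)
      · have hne : S.Nonempty := card_pos.1 (by omega)
        obtain ⟨T₁, T₂, hT1, hT2, hU, hD, hE⟩ := exists_split H S hne hc
        have hcU : T₁.card + T₂.card = S.card := by
          rw [← card_union_of_disjoint hD, hU]
        have h1 : 0 < T₁.card := card_pos.2 hT1
        have h2 : 0 < T₂.card := card_pos.2 hT2
        obtain ⟨κ₁, hκ₁⟩ := ih T₁.card (by omega) T₁ rfl
        obtain ⟨κ₂, hκ₂⟩ := ih T₂.card (by omega) T₂ rfl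
        obtain ⟨a, -⟩ := hT1
        refine glue_col H S T₁ T₂ a hU.symm ?_ ?_ hκ₁ hκ₂
        · intro x hx hx'
          exact absurd hx' (disjoint_left.1 hD hx)
        · intro x hx y hy hxy
          exact absurd hxy (hE x hx y hy)
    · -- at most two vertices
      refine ⟨fun _ => ⟨0, by omega⟩, ?_⟩
      rcases S.eq_empty_or_nonempty with rfl | ⟨a, ha⟩
      · rw [SimpleGraph.isAcyclic_iff_forall_adj_isBridge]
        rintro v w ⟨-, hv, -⟩
        exact absurd hv (notMem_empty _)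
      · refine acyclic_star _ a ?_
        rintro x y ⟨hxy, hx, hy, -⟩
        by_contra hcon
        push Not at hcon
        have h4 : ({a, x, y} : Finset (Fin n)).card = 3 := by
          rw [card_insert_of_notMem, card_pair hxy.ne]
          simp only [mem_insert, mem_singleton, not_or]
          exact ⟨hcon.1.symm, hcon.2.symm⟩
        have h5 : ({a, x, y} : Finset (Fin n)) ⊆ S := by
          intro z hz
          simp only [mem_insert, mem_singleton] at hz
          rcases hz with rfl | rfl | rfl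
          · exact ha
          · exact hx
          · exact hy
        have h6 := card_le_card h5
        omega

/-- A 2-connected induced subgraph lies in a block. -/
theorem exists_block {n : ℕ} (H : SimpleGraph (Fin n)) (S : Finset (Fin n)) (hS : Blk H S) :
    ∃ S', IsBlock H S' ∧ S ⊆ S' := by
  classical
  obtain ⟨S', h1, h2⟩ := Finset.exists_max_image
    (univ.filter (fun S' => Blk H S' ∧ S ⊆ S')) Finset.card ⟨S, by
      rw [mem_filter]
      exact ⟨mem_univ _, hS, Subset.refl _⟩⟩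
  rw [mem_filter] at h1
  refine ⟨S', ⟨h1.2.1, ?_⟩, h1.2.2⟩
  intro S'' hB hsub
  have h3 := h2 S'' (by
    rw [mem_filter]
    exact ⟨mem_univ _, hB, h1.2.2.trans hsub⟩)
  have h4 := eq_of_subset_of_card_le hsub h3
  rw [h4]

/-- Corollary 1': every block has a vertex whose deletion makes it `r`-colourable. -/
theorem apex_arb {n r : ℕ} (H : SimpleGraph (Fin n)) (hr : 1 ≤ r)
    (h : ∀ S, IsBlock H S → ∃ x ∈ S, (H.induce {y | y ∈ S ∧ y ≠ x}).Colorable r) :
    ∃ κ : Fin n → Fin r, ∀ a, (H.induce {x | κ x = a}).IsAcyclic := by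
  classical
  obtain ⟨κ, hκ⟩ := forest_partition H hr (by
    intro S hS
    obtain ⟨S', hS', hsub⟩ := exists_block H S hS
    obtain ⟨x, hx, ⟨C⟩⟩ := h S' hS'
    let κ : Fin n → Fin r := fun y => if hy : y ∈ S' ∧ y ≠ x then C ⟨y, hy⟩ else ⟨0, hr⟩
    have hκ : ∀ y z, H.Adj y z → y ∈ S' → z ∈ S' → y ≠ x → z ≠ x → κ y ≠ κ z := by
      intro y z hyz hy hz hyx hzx
      simp only [κ, dif_pos (And.intro hy hyx), dif_pos (And.intro hz hzx)]
      exact C.valid (show (H.induce {y | y ∈ S' ∧ y ≠ x}).Adj ⟨y, hy, hyx⟩ ⟨z, hz, hzx⟩ from hyz)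
    by_cases hxS : x ∈ S
    · exact ⟨x, hxS, κ, fun y hy z hz hyx hzx hyz => hκ y z hyz (hsub hy) (hsub hz) hyx hzx⟩
    · have h1 : 0 < S.card := by
        have := hS.three
        omega
      obtain ⟨x', hx'⟩ := card_pos.1 h1
      refine ⟨x', hx', κ, fun y hy z hz _ _ hyz => hκ y z hyz (hsub hy) (hsub hz) ?_ ?_⟩
      · rintro rfl
        exact hxS hy
      · rintro rfl
        exact hxS hz) _ univ rfl
  refine ⟨κ, fun a => ?_⟩
  refine hκ.comap ⟨fun x : {x | κ x = a} => x.1, ?_⟩ Subtype.val_injective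
  rintro ⟨x, hx⟩ ⟨y, hy⟩ hxy
  have hx' : κ x = a := hx
  have hy' : κ y = a := hy
  exact ⟨hxy, mem_univ _, mem_univ _, hx'.trans hy'.symm⟩

/-- Corollary 1'. -/
theorem apex_proof (hA : ArbStatement) : ∀ (n r : ℕ) (H : SimpleGraph (Fin n)), 2 ≤ r →
    H.Connected → ¬ H.Colorable r → H.Colorable (r + 1) →
    (∀ S, IsBlock H S → ∃ x ∈ S, (H.induce {y | y ∈ S ∧ y ≠ x}).Colorable r) → Sep H :=
  fun n r H hr hc h1 h2 h => hA n r H hr hc h1 h2 (apex_arb H (by omega) h)

end MP3240CO
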