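import Pool.Agent.Lib.MP_3240be_co.CO.Atts
import Pool.Agent.Lib.MP_3240be_co.S36.Rob

/-!
# MP_3240be_co, Theorem CORE: rows AT3a, AT3b (attachments for `r = 2`)

`at3a`: `t` twins without edges inside.  `at3b`: `t` twins and one graph `Q(w)` for every kind `w`,
joined (red) to the twins and to the lows of kind `w`.
-/

set_option autoImplicit false

namespace MP3240CO

open Finset MP3240T MP3240W
open MP3240N (Sig)
open MP3240M (AStar)
open MP3240C (CxB)
open Pool.Agent.Lib.MP_3240be_co.H36 (LocCol Blow)

namespace At3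

/-- The kind of a low. -/
def knd {hr q : ℕ} {A E C : Type} : RV hr q A E C → Option (Fin q)
  | .inl _ => none
  | .inr (.inl x) => some x.1
  | .inr (.inr _) => none

/-- The kinds in a set of `n` vertices are `r`-colourable. -/
theorem cols {n q r : ℕ} {V : Type} {W : SimpleGraph (Fin q)} (hW : LocCol W n r) (f : Fin n → V)
    (kd : V → Option (Fin q)) :
    ∃ g : Fin q → ℕ, (∀ w, g w < r) ∧ ∀ i j w w', kd (f i) = some w → kd (f j) = some w' →
      W.Adj w w' → g w ≠ g w' := by
  classical
  let X : Finset (Fin q) := univ.filter (fun w => ∃ i, kd (f i) = some w)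
  have hX : ∀ i w, kd (f i) = some w → w ∈ X := fun i w hi =>
    Finset.mem_filter.2 ⟨Finset.mem_univ _, i, hi⟩
  have hX' : ∀ w ∈ X, ∃ i, kd (f i) = some w := fun w hw => (Finset.mem_filter.1 hw).2
  have hXcard : X.card ≤ n := by
    rcases X.eq_empty_or_nonempty with h0 | ⟨w0, hw0⟩
    · rw [h0, card_empty]
      exact Nat.zero_le _
    · obtain ⟨i0, -⟩ := hX' w0 hw0
      have : Nonempty (Fin n) := ⟨i0⟩
      choose! ix hix using hX'
      calc X.card ≤ (univ : Finset (Fin n)).card := by
            refine Finset.card_le_card_of_injOn ix (fun _ _ => Finset.mem_univ _) ?_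
            intro w hw w' hw' e
            have h1 := hix w hw
            have h2 := hix w' hw'
            have e' : ix w = ix w' := e
            rw [e', h2] at h1
            exact (Option.some.inj h1).symm
        _ = n := by rw [Finset.card_univ, Fintype.card_fin]
  obtain ⟨g, hg, hgX⟩ := hW X hXcard
  exact ⟨g, hg, fun i j w w' h1 h2 h3 => hgX w (hX i w h1) w' (hX j w' h2) h3⟩

/-- At most `hr` vertices are mapped to hubs. -/
theorem card_u {n hr q : ℕ} {A E C : Type} (f : Fin n → RV hr q A E C)
    (hf : Function.Injective f) (S : Finset (Fin n)) (hS : ∀ i ∈ S, ∃ k, f i = .inl k) :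
    S.card ≤ hr := by
  classical
  have h1 : (S.image f).card ≤ ((univ : Finset (Fin hr)).image
      (fun k => (.inl k : RV hr q A E C))).card := by
    refine card_le_card ?_
    intro a ha
    obtain ⟨i, hi, rfl⟩ := mem_image.1 ha
    obtain ⟨k, hk⟩ := hS i hi
    exact mem_image.2 ⟨k, mem_univ _, hk.symm⟩
  rw [card_image_of_injective _ hf] at h1
  refine h1.trans (card_image_le.trans ?_)
  rw [card_univ, Fintype.card_fin]

end At3

open At3

/-- Row AT3a. -/
theorem attA_ok {n q t r hr p : ℕ} (H : SimpleGraph (Fin n)) (W : SimpleGraph (Fin q))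
    (hsig : Sig H r hr) (hc : H.Connected) (hn : 2 ≤ n) (hp : 1 ≤ p)
    (hW : LocCol W n r) : AttOK H hr p W (at3a q t) where
  sym := fun _ _ h => h
  al := fun _ _ _ h => h
  twa := fun _ => trivial
  red := by
    classical
    intro A E f hf hh
    have hdeg : ∀ i, ∃ j, H.Adj i j := by
      have : Nontrivial (Fin n) := Fin.nontrivial_iff_two_le.2 hn
      exact fun i => hc.preconnected.exists_adj_of_nontrivial i
    obtain ⟨g, hg, hgX⟩ := cols hW f knd
    let κ : Fin n → Option (Fin r) := fun i => (knd (f i)).map (fun w => ⟨g w, hg w⟩)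
    have hκ : ∀ i j, H.Adj i j → κ i ≠ κ j := by
      intro i j hij
      have h1 := hh i j hij
      have h2 : ∀ w w', knd (f i) = some w → knd (f j) = some w' → W.Adj w w' → κ i ≠ κ j := by
        intro w w' h3 h4 h5 h6
        have h7 : (knd (f i)).map (fun w => (⟨g w, hg w⟩ : Fin r)) =
            (knd (f j)).map (fun w => (⟨g w, hg w⟩ : Fin r)) := h6
        rw [h3, h4] at h7
        have h8 : g w = g w' := by simpa using h7
        exact hgX i j w w' h3 h4 h5 h8
      rcases hfi : f i with k | x | x <;> rcases hfj : f j with k' | y | y <;>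
        rw [hfi, hfj] at h1
      · exact h1.elim
      · show (knd (f i)).map _ ≠ (knd (f j)).map _
        rw [hfi, hfj]
        simp [knd]
      · exact h1.elim
      · show (knd (f i)).map _ ≠ (knd (f j)).map _
        rw [hfi, hfj]
        simp [knd]
      · exact h2 x.1 y.1 (by rw [hfi]; rfl) (by rw [hfj]; rfl) h1
      · exact h1.elim
      · exact h1.elim
      · exact h1.elim
      · exact h1.2.2.elim
    have h1 := hsig κ hκ
    have h2 : (univ.filter (fun x => κ x = none)).card ≤ hr := by
      refine card_u f hf _ ?_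
      intro i hi
      have h3 : κ i = none := (mem_filter.1 hi).2
      have h4 : knd (f i) = none := by
        have h5 : (knd (f i)).map (fun w => (⟨g w, hg w⟩ : Fin r)) = none := h3
        simpa using h5
      obtain ⟨j, hij⟩ := hdeg i
      have h6 := hh i j hij
      rcases hfi : f i with k | x | x
      · exact ⟨k, rfl⟩
      · rw [hfi] at h4
        cases h4
      · exfalso
        rcases hfj : f j with k' | y | y <;> rw [hfi, hfj] at h6
        · exact h6
        · exact h6
        · exact h6.2.2
    omega
  blu := by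
    intro Y _
    refine ⟨fun _ => some ⟨0, hp⟩, ?_, ?_⟩
    · intro a _ b _ hab
      exact absurd hab.1 (by simp [at3a])
    · intro a _ _
      simp

/-- Row AT3A. -/
theorem at3a_proof : At3aStatement := fun _ _ _ _ H W hn hs hc hW =>
  attA_ok H W hs hc hn le_rfl hW

/-- Row AT3B. -/
theorem at3b_proof : At3bStatement := by
  classical
  intro n hr q t LQ H W TQ _ _ hW hA hQ
  refine ⟨?_, ?_, fun _ => trivial, ?_, ?_⟩
  · rintro (a | a) (b | b) h
    · exact h
    · exact trivial
    · exact trivial
    · exact h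
  · rintro (a | a) w h1 h2
    · exact h2
    · exact h1
  · intro A E f hf hh
    apply hA
    let kd : RV hr q A E (Fin t ⊕ (Fin q × Fin LQ)) → Option (Fin q) := fun a => match a with
      | .inl _ => none
      | .inr (.inl x) => some x.1
      | .inr (.inr (_, .inl _)) => none
      | .inr (.inr (_, .inr x)) => some x.1
    obtain ⟨g, hg, hgX⟩ := cols hW f kd
    let κ₀ : RV hr q A E (Fin t ⊕ (Fin q × Fin LQ)) → Bool := fun a => match a with
      | .inl _ => true
      | .inr (.inl x) => decide (g x.1 = 0)
      | .inr (.inr (_, .inl _)) => true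
      | .inr (.inr (_, .inr x)) => !decide (g x.1 = 0)
    -- a neighbour of a twin is a vertex of some `Q(w)`
    have htw : ∀ i j, H.Adj i j → (∃ e k, f i = .inr (.inr (e, .inl k))) →
        ∃ e x, f j = .inr (.inr (e, .inr x)) := by
      rintro i j hij ⟨e, k, hi⟩
      have h1 := hh i j hij
      rw [hi] at h1
      rcases hfj : f j with k' | y | ⟨e', y | y⟩ <;> rw [hfj] at h1
      · exact h1.elim
      · exact h1.elim
      · exact h1.2.2.elim
      · exact ⟨e', y, rfl⟩
    have huu : ∀ i j, H.Adj i j → (∃ k, f i = .inl k) → ∃ x, f j = .inr (.inl x) := by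
      rintro i j hij ⟨k, hi⟩
      have h1 := hh i j hij
      rw [hi] at h1
      rcases hfj : f j with k' | y | y <;> rw [hfj] at h1
      · exact h1.elim
      · exact ⟨y, rfl⟩
      · exact h1.elim
    refine ⟨univ.filter (fun i => ∃ e k, f i = .inr (.inr (e, .inl k))),
      univ.filter (fun i => ∃ k, f i = .inl k), fun i => κ₀ (f i), ?_, ?_, ?_, ?_, ?_, ?_⟩
    · intro a ha b hb hab
      obtain ⟨e, k, hb'⟩ := (mem_filter.1 hb).2
      obtain ⟨e', x, h1⟩ := htw a b hab (mem_filter.1 ha).2
      rw [hb'] at h1
      cases h1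
    · intro a ha b hb u v hau hbv huv
      obtain ⟨e, x, h1⟩ := htw a u hau (mem_filter.1 ha).2
      obtain ⟨e', x', h3⟩ := htw b v hbv (mem_filter.1 hb).2
      have h4 := hh u v huv
      rw [h1, h3] at h4
      exact h4.2.2
    · intro a ha b hb hab
      obtain ⟨k, hb'⟩ := (mem_filter.1 hb).2
      obtain ⟨x, h1⟩ := huu a b hab (mem_filter.1 ha).2
      rw [hb'] at h1
      cases h1
    · exact card_u f hf _ (fun i hi => (mem_filter.1 hi).2)
    · intro a ha u hau hu
      obtain ⟨e, x, h1⟩ := htw a u hau (mem_filter.1 ha).2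
      obtain ⟨k, h2⟩ := (mem_filter.1 hu).2
      rw [h1] at h2
      cases h2
    · intro u v huv hu hv hu' hv'
      have hu1 : ∀ e k, f u ≠ .inr (.inr (e, .inl k)) := fun e k h =>
        hu (mem_filter.2 ⟨mem_univ _, e, k, h⟩)
      have hv1 : ∀ e k, f v ≠ .inr (.inr (e, .inl k)) := fun e k h =>
        hv (mem_filter.2 ⟨mem_univ _, e, k, h⟩)
      have hu2 : ∀ k, f u ≠ .inl k := fun k h => hu' (mem_filter.2 ⟨mem_univ _, k, h⟩)
      have hv2 : ∀ k, f v ≠ .inl k := fun k h => hv' (mem_filter.2 ⟨mem_univ _, k, h⟩)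
      have h1 := hh u v huv
      show κ₀ (f u) ≠ κ₀ (f v)
      rcases hfu : f u with k | x | ⟨e, x | x⟩
      · exact absurd hfu (hu2 k)
      · rcases hfv : f v with k' | y | ⟨e', y | y⟩
        · exact absurd hfv (hv2 k')
        · rw [hfu, hfv] at h1
          have h2 : g x.1 ≠ g y.1 :=
            hgX u v x.1 y.1 (by rw [hfu]) (by rw [hfv]) h1
          have h3 := hg x.1
          have h4 := hg y.1
          show decide (g x.1 = 0) ≠ decide (g y.1 = 0)
          intro h5
          by_cases h6 : g x.1 = 0
          · have h7 : g y.1 = 0 := by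
              rw [decide_eq_true h6] at h5
              exact of_decide_eq_true h5.symm
            exact h2 (h6.trans h7.symm)
          · have h7 : g y.1 ≠ 0 := by
              rw [decide_eq_false h6] at h5
              exact of_decide_eq_false h5.symm
            omega
        · exact absurd hfv (hv1 e' y)
        · rw [hfu, hfv] at h1
          have h2 : y.1 = x.1 := h1
          show decide (g x.1 = 0) ≠ !decide (g y.1 = 0)
          rw [h2]
          cases decide (g x.1 = 0) <;> simp
      · exact absurd hfu (hu1 e x)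
      · rcases hfv : f v with k' | y | ⟨e', y | y⟩
        · exact absurd hfv (hv2 k')
        · rw [hfu, hfv] at h1
          have h2 : x.1 = y.1 := h1
          show (!decide (g x.1 = 0)) ≠ decide (g y.1 = 0)
          rw [h2]
          cases decide (g y.1 = 0) <;> simp
        · exact absurd hfv (hv1 e' y)
        · rw [hfu, hfv] at h1
          exact h1.2.2.elim
  · intro Y hY
    -- colours of the graph `Q(w)`, for every `w`
    have hcol : ∀ w : Fin q, ∃ g : Fin LQ → ℕ, (∀ s, g s < 2) ∧
        ∀ s s', (.inr (w, s) : Fin t ⊕ (Fin q × Fin LQ)) ∈ Y →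
          (.inr (w, s') : Fin t ⊕ (Fin q × Fin LQ)) ∈ Y → (TQ w).Adj s s' → g s ≠ g s' := by
      intro w
      let X : Finset (Fin LQ) :=
        univ.filter (fun s => (.inr (w, s) : Fin t ⊕ (Fin q × Fin LQ)) ∈ Y)
      have hXc : X.card ≤ n := by
        refine le_trans ?_ hY
        refine card_le_card_of_injOn (fun s => (.inr (w, s) : Fin t ⊕ (Fin q × Fin LQ)))
          (fun s hs => (mem_filter.1 hs).2) ?_
        intro s _ s' _ hss
        have h2 : (.inr (w, s) : Fin t ⊕ (Fin q × Fin LQ)) = .inr (w, s') := hss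
        injection h2 with h3
        exact congrArg Prod.snd h3
      obtain ⟨g, hg, hgX⟩ := hQ w X hXc
      exact ⟨g, hg, fun s s' h1 h2 h3 => hgX s (mem_filter.2 ⟨mem_univ _, h1⟩) s'
        (mem_filter.2 ⟨mem_univ _, h2⟩) h3⟩
    choose g hg hgX using hcol
    refine ⟨fun a => match a with
      | .inl _ => some 0
      | .inr x => if g x.1 x.2 = 0 then none else some 0, ?_, ?_⟩
    · rintro (a | a) ha (b | b) hb ⟨h1, h2⟩
      · rcases h1 with ⟨-, h1 | h1⟩
        · exact h1.elim
        · exact h1.elim
      · exact absurd trivial h2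
      · exact absurd trivial h2
      · obtain ⟨w, s⟩ := a
        obtain ⟨w', s'⟩ := b
        have h3 : w = w' ∧ (TQ w).Adj s s' := by
          rcases h1 with ⟨-, h1 | h1⟩
          · exact h1
          · obtain ⟨h4, h5⟩ := h1
            have h4' : w' = w := h4
            subst h4'
            exact ⟨rfl, SimpleGraph.Adj.symm h5⟩
        obtain ⟨rfl, h3⟩ := h3
        have h6 := hgX w s s' ha hb h3
        have h4 := hg w s
        have h5 := hg w s'
        show (if g w s = 0 then none else some 0) ≠ (if g w s' = 0 then none else some (0 : Fin 1))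
        by_cases h7 : g w s = 0
        · rw [if_pos h7, if_neg (by omega)]
          simp
        · rw [if_neg h7, if_pos (by omega)]
          simp
    · rintro (a | a) _ h
      · show some (0 : Fin 1) ≠ none
        simp
      · exact h.elim

/-- The graph `Q` of `at3b`: robust for `B`, locally bipartite. -/
theorem robQ (b g r : ℕ) (B : SimpleGraph (Fin b)) (K : Type) [Finite K] [Nonempty K] (hr : 2 ≤ r)
    (hB : LocCol B (2 * g ^ 2) r) :
    ∃ (L : ℕ) (Q : SimpleGraph (Fin L)), LocCol Q g r ∧ ∀ κ : Fin L → K, ∃ e : Fin b → Fin L,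
      Function.Injective e ∧ (∀ x y, B.Adj x y → Q.Adj (e x) (e y)) ∧
        ∀ x y, κ (e x) = κ (e y) := by
  classical
  obtain ⟨L, T, hT, hL⟩ := MP3240S.robust_nat b g K
  refine ⟨L, (T B).comap (fun i : Fin L => (i : ℕ)), (hT B r (by omega) hB).comap _, ?_⟩
  intro κ
  obtain ⟨e, he1, he2, he3, he4⟩ := hL
    (fun w => if h : w < L then κ ⟨w, h⟩ else Classical.arbitrary K)
  refine ⟨fun j => ⟨e j, he2 j⟩, ?_, ?_, ?_⟩
  · intro j j' h
    exact he1 (Fin.mk.inj h)
  · intro j j' hjj
    exact he3 B j j' hjj
  · intro j j'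
    have h1 := he4 j j'
    simp only [he2 j, he2 j', dif_pos] at h1
    exact h1

end MP3240CO
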