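import Pool.Agent.Lib.MP_3240be_co.CO.Base

/-!
# MP_3240be_co: Theorem CORE, the attachments

`at4`: the complexes of Theorem C4 (`χ(H) ≥ 4`); `at3a`: twins (`χ(H) = 3`, `(A*)` holds); `at3b`:
twins and pendant worlds (`χ(H) = 3`, `(A*)` fails).  Paper: finding 4776, section 6.
-/

set_option autoImplicit false

namespace MP3240CO

open Finset MP3240T MP3240W
open MP3240N (Sig)
open MP3240M (AStar)
open Pool.Agent.Lib.MP_3240be_co.H36 (LocCol Blow)

/-- The complex of Theorem C4 as an attachment (no twins). -/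
def at4 {p q LR LQ : ℕ} (W : SimpleGraph (Fin q)) (TR : Option (Fin p) → SimpleGraph (Fin LR))
    (TQ : Fin q → SimpleGraph (Fin LQ)) : Att q (MP3240C.CV p q LR LQ) 0 where
  G := (MP3240C.cx W TR TQ).G
  red := (MP3240C.cx W TR TQ).red
  att := (MP3240C.cx W TR TQ).att
  lo := fun c w => ∃ w', (MP3240C.cx W TR TQ).kd c = some w' ∧ W.Adj w' w
  tw := Fin.elim0

/-- Row AT4.  Proof: CXG (C4/Cxg.lean) for `sym`, `an`, `bc`; `red`: as C4/Rdc.lean (a copy of `H`
in the insides of the windows is `(p + 1)`-colourable on small sets; otherwise colour by the kinds,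
the hubs `none`; `Sig`). -/
def At4Statement : Prop :=
  ∀ (n hr p q LR LQ : ℕ) (H : SimpleGraph (Fin n)) (W : SimpleGraph (Fin q))
    (TR : Option (Fin p) → SimpleGraph (Fin LR)) (TQ : Fin q → SimpleGraph (Fin LQ)), 1 ≤ p →
    Sig H (p + 1) hr → H.Connected → LocCol W n (p + 1) → (∀ j, LocCol (TR j) n (p + 1)) →
    (∀ a, LocCol (TQ a) n p) → AttOK H hr p W (at4 W TR TQ)

/-- Twins. -/
def at3a (q t : ℕ) : Att q (Fin t) t where
  G := ⊥
  red := fun _ _ => False
  att := fun _ => True
  lo := fun _ _ => False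
  tw := id

/-- Row AT3A. -/
def At3aStatement : Prop :=
  ∀ (n hr q t : ℕ) (H : SimpleGraph (Fin n)) (W : SimpleGraph (Fin q)), 2 ≤ n → Sig H 2 hr →
    H.Connected → LocCol W n 2 → AttOK H hr 1 W (at3a q t)

/-- The edges between twins and pendant worlds, in one direction. -/
def rel3b {q t LQ : ℕ} (TQ : Fin q → SimpleGraph (Fin LQ)) :
    Fin t ⊕ (Fin q × Fin LQ) → Fin t ⊕ (Fin q × Fin LQ) → Prop
  | .inl _, .inr _ => True
  | .inr x, .inr y => x.1 = y.1 ∧ (TQ x.1).Adj x.2 y.2
  | _, _ => False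

/-- Twins and pendant worlds. -/
def at3b {q LQ : ℕ} (t : ℕ) (TQ : Fin q → SimpleGraph (Fin LQ)) :
    Att q (Fin t ⊕ (Fin q × Fin LQ)) t where
  G := SimpleGraph.fromRel (rel3b TQ)
  red := fun a b => match a, b with
    | .inl _, .inr _ => True
    | .inr _, .inl _ => True
    | _, _ => False
  att := fun a => match a with
    | .inl _ => True
    | .inr _ => False
  lo := fun a w => match a with
    | .inl _ => False
    | .inr x => x.1 = w
  tw := Sum.inl

/-- Row AT3B.  `red`: `I` = the vertices on twins, `X` = the vertices on hubs; the neighbours of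
`I` are in the pendant worlds, so they are independent; the rest is in `W` with pendant vertices:
`(A*)`. -/
def At3bStatement : Prop :=
  ∀ (n hr q t LQ : ℕ) (H : SimpleGraph (Fin n)) (W : SimpleGraph (Fin q))
    (TQ : Fin q → SimpleGraph (Fin LQ)), 2 ≤ n → H.Connected → LocCol W n 2 → ¬ AStar H hr →
    (∀ a, LocCol (TQ a) n 2) → AttOK H hr 1 W (at3b t TQ)

end MP3240CO
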