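import Pool.Agent.Lib.MP_3240be_co.C4.Defs
import Pool.Agent.Lib.MP_3240be_co.H18TW.Tw2
import Pool.Agent.Lib.MP_3240be_co.H19K.Core
import Pool.Agent.Lib.MP_3240be_co.X70.Crq

/-!
# MP_3240be_co: Theorem CORE, definitions and rows without the host

Paper: finding 4776 (helper39).  `H` is connected, `χ(H) = r + 1 ≥ 3`, `L` a core of `H`
(`MP3240K.Core`), `hr + 1 = σ` is the least size of an independent set whose complement is
`r`-colourable, `hb + 1 = τ` the least size of an independent set `X₀` meeting all copies of `L`.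
-/

set_option autoImplicit false

namespace MP3240CO

open Finset MP3240T MP3240W
open MP3240N (Sig BigC CopyB Homog)
open MP3240M (MData)
open MP3240C (BadS MinBad CxB)
open MP3240K (Core IsE)
open Pool.Agent.Lib.MP_3240be_co.H36 (LocCol Blow)
open Pool.Agent.Lib.MP_3240be_co.H36.Chrom (Sparse)

/-- `H` is separated from all larger connected graphs. -/
def Sep {n : ℕ} (H : SimpleGraph (Fin n)) : Prop :=
  ∀ (n' : ℕ) (H' : SimpleGraph (Fin n')), H'.Connected → Emb H H' → ¬ Emb H' H →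
    ∃ (m : ℕ) (F : SimpleGraph (Fin m)), Arr F H ∧ ¬ Arr F H'

/-- `X` is independent. -/
def Ind {n : ℕ} (H : SimpleGraph (Fin n)) (X : Finset (Fin n)) : Prop :=
  ∀ x ∈ X, ∀ y ∈ X, ¬ H.Adj x y

/-- `X` meets all copies of `L` in `H`. -/
def Meets {n d : ℕ} (H : SimpleGraph (Fin n)) (L : SimpleGraph (Fin d)) (X : Finset (Fin n)) :
    Prop := ∀ f, IsE L H f → ∃ i, f i ∈ X

/-! ## The graph `B` of the worlds -/

/-- `H[V]` has a copy in `B` all whose edges have colour `b`. -/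
def CopV {n b₀ : ℕ} (H : SimpleGraph (Fin n)) (B : SimpleGraph (Fin b₀))
    (c : Fin b₀ → Fin b₀ → Bool) (b : Bool) (V : Finset (Fin n)) : Prop :=
  ∃ g : Fin n → Fin b₀, (∀ x ∈ V, ∀ y ∈ V, g x = g y → x = y) ∧
    ∀ x ∈ V, ∀ y ∈ V, H.Adj x y → B.Adj (g x) (g y) ∧ c (g x) (g y) = b

/-- `B` has a complete bipartite graph with `n + n` vertices of colour `b`. -/
def Knn {b₀ : ℕ} (n : ℕ) (B : SimpleGraph (Fin b₀)) (c : Fin b₀ → Fin b₀ → Bool) (b : Bool) :
    Prop :=
  ∃ e e' : Fin n → Fin b₀, Function.Injective e ∧ Function.Injective e' ∧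
    ∀ i j, B.Adj (e i) (e' j) ∧ c (e i) (e' j) = b

/-- The property (EX) of the paper. -/
structure ExB {n d b₀ : ℕ} (H : SimpleGraph (Fin n)) (r hr hb : ℕ) (L : SimpleGraph (Fin d))
    (X₀ : Finset (Fin n)) (B : SimpleGraph (Fin b₀)) : Prop where
  free : ¬ Emb L B
  bl : ∀ c : Fin b₀ → Fin b₀ → Bool, (∀ x y, c x y = c y x) →
    ∃ A A', r + 1 ≤ A + A' ∧ Blow B c n A true ∧ Blow B c n A' false
  ex : ∀ c : Fin b₀ → Fin b₀ → Bool, (∀ x y, c x y = c y x) → ∀ b,
    Knn n B c b ∨ CopV H B c (!b) X₀ᶜ ∨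
      ∃ X X₂ : Finset (Fin n), Ind H X ∧ Ind H X₂ ∧ X.card + X₂.card < hr + hb + 2 ∧
        CopV H B c (!b) X₂ᶜ ∧
        ∃ V : Fin r → Finset (Fin n), (∀ x, x ∉ X → ∃ a, x ∈ V a) ∧ ∀ a, CopV H B c b (V a)

/-- Row THT (the graph `Θ`).  Proof: copies of `T₀` on the hyperedges of a sparse hypergraph such
that every colouring of the points with `n` colours has a constant hyperedge (`H36.Chrom.Good`);
without a `T₀` of colour `!b` the edges of colour `b` have no proper colouring with `n` colours, so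
they have a subgraph of minimum degree at least `n` (H80t/Tre.lean).  A copy of `L` lies in one
`T₀`. -/
def ThtStatement : Prop :=
  ∀ (n d t : ℕ) (L : SimpleGraph (Fin d)) (T₀ : SimpleGraph (Fin t)), TwoC (ed L) →
    L.Connected → 3 ≤ d → ¬ Emb L T₀ →
    ∃ (b₀ : ℕ) (B : SimpleGraph (Fin b₀)), ¬ Emb L B ∧
      ∀ c : Fin b₀ → Fin b₀ → Bool, (∀ x y, c x y = c y x) → ∀ b,
        Emb T₀ (cls B c (!b)) ∨ ∀ F : SimpleGraph (Fin n), F.IsAcyclic → Emb F (cls B c b)

/-- Row BPL (the numerical criterion gives (EX)).  Proof: disjoint union of `host 1 r`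
(`HbStatement`), `Γ_M(H - X₂)` (`tw1`, `folds_of_gam`) and `Θ` for `H - X₀` (THT). -/
def BplStatement : Prop :=
  ∀ (n d r hr hb : ℕ) (H : SimpleGraph (Fin n)) (L : SimpleGraph (Fin d))
    (X₀ X X₂ : Finset (Fin n)), 1 ≤ r → Core H r L → Meets H L X₀ → Ind H X → Ind H X₂ →
    X.card + X₂.card < hr + hb + 2 →
    (∃ V : Fin r → Finset (Fin n), (∀ x, x ∉ X → ∃ a, x ∈ V a) ∧
      ∀ a, (H.induce {x | x ∈ V a}).IsAcyclic) →
    ¬ MP3240TW.Folds L (H.induce {x | x ∉ X₂}) →
    ∃ (b₀ : ℕ) (B : SimpleGraph (Fin b₀)), ExB H r hr hb L X₀ B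

/-- Row GRL (homogenisation).  Proof: as N49/Grp.lean with the property `L`-free instead of
`LocCol`: the new graph `T a` consists of copies of `B` with a pendant vertex at every vertex on
the hyperedges of a sparse hypergraph (`H36.Chrom.Good`). -/
def GrlStatement : Prop :=
  ∀ (b d : ℕ) (B : SimpleGraph (Fin b)) (L : SimpleGraph (Fin d)), TwoC (ed L) → L.Connected →
    3 ≤ d → ¬ Emb L B →
    ∀ (Γ Q K₀ K : Type) [Finite Γ] [Finite Q] [Nonempty Q] [Finite K₀] [Nonempty K₀] [Finite K]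
      [Nonempty K], ∃ (L₀ : ℕ) (T : Γ → SimpleGraph (Fin L₀)) (K' : Γ → Type),
        (∀ a, ¬ Emb L (T a)) ∧ Homog B Γ Q K₀ K T K'

/-! ## Classes and states -/

/-- The classes of copies of `B`: colours to the hubs, numbers of parts of the blow-ups, the sets
`V` such that `H[V]` has a copy of colour `b`. -/
abbrev QK (n r g : ℕ) : Type :=
  (Fin g → Bool) × (Bool → Fin (r + 1)) × (Bool → Finset (Fin n) → Bool)

/-- Row STA (states).  `r` copies `E j` of `B`, completely joined to each other, with colours `η`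
between them, equal numbers `ρ` and contents `κ`; the hubs `φ k` are joined to all of them, with
colours `θ k`.  Proof: paper, section 5. -/
def StaStatement : Prop :=
  ∀ (n d r hr hb b₀ : ℕ) (H : SimpleGraph (Fin n)) (L : SimpleGraph (Fin d)) (_ : MData H r hr)
    (X₀ : Finset (Fin n)) (B : SimpleGraph (Fin b₀)) (V : Type) (G : SimpleGraph V)
    (c : V → V → Bool) (E : Fin r → Fin b₀ → V) (η : Fin r → Fin r → Bool)
    (ρ : Bool → Fin (r + 1)) (κ : Bool → Finset (Fin n) → Bool) (φ : Fin (hr + hb) → V)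
    (θ : Fin (hr + hb) → Bool), 2 ≤ r → (∀ x y, c x y = c y x) →
    (∀ b, ¬ Emb H (cls G c b)) → ExB H r hr hb L X₀ B → Ind H X₀ → X₀.card = hb + 1 →
    (∀ j, Function.Injective (E j)) → (∀ j j' x y, j ≠ j' → G.Adj (E j x) (E j' y)) →
    (∀ j j' x y, j ≠ j' → c (E j x) (E j' y) = η j j') →
    (∀ j x y, B.Adj x y → G.Adj (E j x) (E j y)) →
    (∀ j b, Blow B (fun x y => c (E j x) (E j y)) n (ρ b) b) →
    r + 1 ≤ (ρ true : ℕ) + ρ false →
    (∀ j b S, κ b S = true ↔ CopV H B (fun x y => c (E j x) (E j y)) b S) →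
    Function.Injective φ → (∀ k j x, G.Adj (φ k) (E j x)) → (∀ k j x, c (φ k) (E j x) = θ k) →
    ∃ b, (∀ j j', j ≠ j' → η j j' = b) ∧ (ρ b : ℕ) = 1 ∧ (ρ (!b) : ℕ) = r ∧
      (univ.filter (fun k => θ k = b)).card = hr ∧ (univ.filter (fun k => θ k = !b)).card = hb ∧
      κ (!b) X₀ᶜ = true ∧
      ∀ s j, (∀ k, s ≠ φ k) → (∀ x, G.Adj s (E j x)) → ¬ ∀ x, c s (E j x) = !b

/-! ## The inner hypergraph -/

/-- Row SPL: the parts of the hyperedges of a sparse hypergraph form a sparse hypergraph. -/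
def SplStatement : Prop :=
  ∀ (g s : ℕ) (V M Y : Type) (δ : M → Y × Fin s → V), (∀ m, Function.Injective (δ m)) →
    Sparse g δ → Sparse g (fun (p : Y × M) (j : Fin s) => δ p.2 (p.1, j))

/-- Row INN: blobs with kinds and types; `io b j` = the index of the passenger set of the special
pair `j` of the blob `b`.  Proof: HYP for `T = (Fin q × Φ) × Fin s`, `K = Φ × Fin q`,
`Bl = (Fin q × Φ) × M`, and SPL. -/
def InnStatement : Prop :=
  ∀ (n s q D : ℕ) (Φ : Type) [Finite Φ] [Nonempty Φ], 1 ≤ s → 1 ≤ q →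
    ∃ (Bl J : Type) (_ : Finite Bl) (_ : Finite J) (kd : Bl → Fin q) (ty : Bl → Φ)
      (io : Bl → Fin s → J), (∀ b, Function.Injective (io b)) ∧ Sparse (n * n) io ∧
        ∀ (lab : J → Φ × Fin q) (bad : J → Finset Bl), (∀ i, (bad i).card ≤ D) →
          ∃ b, ∀ j, lab (io b j) = (ty b, kd b) ∧ b ∉ bad (io b j)

/-! ## Attachments -/

/-- An attachment: its graph, the red edges of the good colouring, the vertices joined (blue) to
the slots, the vertices joined (red) to all lows of the kind `w`, the twins. -/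
structure Att (q : ℕ) (C : Type) (t : ℕ) where
  G : SimpleGraph C
  red : C → C → Prop
  att : C → Prop
  lo : C → Fin q → Prop
  tw : Fin t → C

/-- The vertices of the red graph: hubs, lows, attachments. -/
abbrev RV (hr q : ℕ) (A E C : Type) : Type := Fin hr ⊕ (Fin q × A) ⊕ (E × C)

/-- The red graph. -/
def redR {hr q t : ℕ} {A E C : Type} (W : SimpleGraph (Fin q)) (X : Att q C t) :
    RV hr q A E C → RV hr q A E C → Prop
  | .inl _, .inr (.inl _) => True
  | .inr (.inl _), .inl _ => True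
  | .inr (.inl x), .inr (.inl y) => W.Adj x.1 y.1
  | .inr (.inr x), .inr (.inl y) => X.lo x.2 y.1
  | .inr (.inl y), .inr (.inr x) => X.lo x.2 y.1
  | .inr (.inr x), .inr (.inr y) => x.1 = y.1 ∧ X.G.Adj x.2 y.2 ∧ X.red x.2 y.2
  | _, _ => False

/-- The red graph has no copy of `H`. -/
def RedOK {n q t : ℕ} {C : Type} (H : SimpleGraph (Fin n)) (hr : ℕ) (W : SimpleGraph (Fin q))
    (X : Att q C t) : Prop :=
  ∀ (A E : Type) (f : Fin n → RV hr q A E C), Function.Injective f →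
    (∀ i j, H.Adj i j → redR W X (f i) (f j)) → False

/-- The properties of attachments used for the good colouring, `p + 1 = r`. -/
structure AttOK {n q t : ℕ} {C : Type} (H : SimpleGraph (Fin n)) (hr p : ℕ)
    (W : SimpleGraph (Fin q)) (X : Att q C t) : Prop where
  sym : ∀ a b, X.red a b → X.red b a
  al : ∀ a w, X.att a → ¬ X.lo a w
  twa : ∀ k, X.att (X.tw k)
  red : RedOK H hr W X
  blu : CxB (fun a b => X.G.Adj a b ∧ ¬ X.red a b) X.att n p

/-- The damage vectors: for every special pair `j` nothing or (type, end, slot, signature). -/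
abbrev Dam (s n t : ℕ) (Φ : Type) : Type := Fin s → Option (Φ × Bool × Fin n × (Fin t → Bool))

/-! ## The gadgets -/

/-- The properties of `X'` and of the special pairs `xs j`, `ys j` used by the host. -/
structure XG {n s : ℕ} (H : SimpleGraph (Fin n)) (X' : Finset (Fin n)) (xs ys : Fin s → Fin n) :
    Prop where
  adj : ∀ t, H.Adj (xs t) (ys t)
  off : ∀ t, ∀ x ∈ X', x ≠ xs t ∧ x ≠ ys t ∧ ¬ H.Adj x (xs t) ∧ ¬ H.Adj x (ys t)
  ind : ∀ t t', t ≠ t' → xs t ≠ xs t' ∧ xs t ≠ ys t' ∧ ys t ≠ xs t' ∧ ys t ≠ ys t' ∧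
    ¬ H.Adj (xs t) (xs t') ∧ ¬ H.Adj (xs t) (ys t') ∧ ¬ H.Adj (ys t) (xs t') ∧
    ¬ H.Adj (ys t) (ys t')

/-- Inner vertices. -/
def Inn {n s : ℕ} (X' : Finset (Fin n)) (xs ys : Fin s → Fin n) (w : Fin n) : Prop :=
  w ∉ X' ∧ ∀ j, w ≠ xs j ∧ w ≠ ys j

/-- The position `w` is adjacent to an end of the special pair `j`. -/
def Near {n s : ℕ} (H : SimpleGraph (Fin n)) (xs ys : Fin s → Fin n) (j : Fin s) (w : Fin n) :
    Prop := H.Adj w (xs j) ∨ H.Adj w (ys j)

/-- No blue gadget (graph of `MP3240X.cq`, only inner slots, attachments only of types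
`(j, i, φ, w)` with `Near H xs ys j w`) contains `D`. -/
def GQFree {n d s : ℕ} (H : SimpleGraph (Fin n)) (D : SimpleGraph (Fin d)) (X' : Finset (Fin n))
    (xs ys : Fin s → Fin n) (p : ℕ) : Prop :=
  ∀ (Bl J C : Type) (ty : Bl → Fin s → H.Dart) (io : Bl → Fin s → J) (R : C → C → Prop)
    (A : C → Prop), (∀ b, Function.Injective (io b)) → Sparse (n * n) io →
    (∀ a b, R a b → R b a) → CxB R A n p →
    ∀ F : Fin d → MP3240X.VQ H s Bl J C, Function.Injective F →
      (∀ u b w, F u = .b b w → Inn X' xs ys w) →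
      (∀ u j i φ w a, F u = .g j i φ w a → Near H xs ys j w) →
      (∀ u v, D.Adj u v → MP3240X.cq xs ys ty io R A (F u) (F v)) → False

/-- Row GQC (closure).  Proof: `crq_sparse`, `blob_closure`, `forest_field`. -/
def GqcStatement : Prop :=
  ∀ (n d p s : ℕ) (H : SimpleGraph (Fin n)) (L : SimpleGraph (Fin d)) (X' : Finset (Fin n))
    (xs ys : Fin s → Fin n), 1 ≤ p → Core H (p + 1) L → MP3240K.XF H L X' xs ys →
    GQFree H L X' xs ys p

/-- Row MNK: the main theorem for an abstract missing graph `D`. -/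
def MainStatement : Prop :=
  ∀ (n d p s hr hb b₀ : ℕ) (H : SimpleGraph (Fin n)) (D : SimpleGraph (Fin d))
    (_ : MData H (p + 1) hr) (X₀ X' : Finset (Fin n)) (xs ys : Fin s → Fin n)
    (B : SimpleGraph (Fin b₀)), 1 ≤ p → 1 ≤ s → Sig H (p + 1) hr → H.Connected → D.Connected →
    TwoC (ed D) → 3 ≤ d → d ≤ n → Ind H X₀ → X₀.card = hb + 1 →
    (∀ X, Ind H X → Meets H D X → hb + 1 ≤ X.card) → Ind H X' → X'.card ≤ hb →
    XG H X' xs ys → GQFree H D X' xs ys p → ExB H (p + 1) hr hb D X₀ B → Sep H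

/-! ## Numbers and final forms -/

/-- Row EXC: a core exists.  Proof: among all sets `J` of edges of `H` with `TwoC J` and
`SHv H r J` take one with the most edges (the edges inside a minimal bad set are such a set,
`CtcStatement`), `L` = its graph on its vertices. -/
def ExcStatement : Prop :=
  ∀ (n r : ℕ) (H : SimpleGraph (Fin n)), 2 ≤ r → ¬ H.Colorable r →
    ∃ (d : ℕ) (L : SimpleGraph (Fin d)), Core H r L

/-- The main theorem for cores, from (EX).  Proof: `Core.xf`, GQC and MNK. -/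
def CoreExStatement : Prop :=
  ∀ (n d r hr hb b₀ : ℕ) (H : SimpleGraph (Fin n)) (L : SimpleGraph (Fin d)) (_ : MData H r hr)
    (X₀ : Finset (Fin n)) (B : SimpleGraph (Fin b₀)), 2 ≤ r → Sig H r hr → H.Connected →
    Core H r L → Ind H X₀ → Meets H L X₀ → X₀.card = hb + 1 →
    (∀ X, Ind H X → Meets H L X → hb + 1 ≤ X.card) → ExB H r hr hb L X₀ B → Sep H

/-- Corollary 1: vertex arboricity at most `χ(H) - 1`. -/
def ArbStatement : Prop :=
  ∀ (n r : ℕ) (H : SimpleGraph (Fin n)), 2 ≤ r → H.Connected → ¬ H.Colorable r →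
    H.Colorable (r + 1) →
    (∃ κ : Fin n → Fin r, ∀ a, (H.induce {x | κ x = a}).IsAcyclic) → Sep H

/-- Corollary 2: a rigid core. -/
def RigStatement : Prop :=
  ∀ (n d r : ℕ) (H : SimpleGraph (Fin n)) (L : SimpleGraph (Fin d)), 2 ≤ r → H.Connected →
    ¬ H.Colorable r → H.Colorable (r + 1) → Core H r L →
    (∀ (m : ℕ) (R : SimpleGraph (Fin m)), Emb R H → MP3240TW.Folds L R → Emb L R) → Sep H

/-- The numerical criterion. -/
def CoreNumStatement : Prop :=
  ∀ (n d r : ℕ) (H : SimpleGraph (Fin n)) (L : SimpleGraph (Fin d)) (X X₂ : Finset (Fin n)),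
    2 ≤ r → H.Connected → ¬ H.Colorable r → H.Colorable (r + 1) → Core H r L →
    Ind H X → Ind H X₂ → (∃ V : Fin r → Finset (Fin n), (∀ x, x ∉ X → ∃ a, x ∈ V a) ∧
      ∀ a, (H.induce {x | x ∈ V a}).IsAcyclic) →
    ¬ MP3240TW.Folds L (H.induce {x | x ∉ X₂}) →
    (∀ Y Z : Finset (Fin n), Ind H Y → Ind H Z → (H.induce {x | x ∉ Y}).Colorable r →
      Meets H L Z → X.card + X₂.card < Y.card + Z.card) → Sep H

end MP3240CO
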