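import Pool.Agent.Lib.MP_3240be_co.C4.Lnk
import Pool.Agent.Lib.MP_3240be_co.C4.Rar
import Pool.Agent.Lib.MP_3240be_co.M3.Joi

/-!
# MP_3240be_co, board core_modules: the host-free parts of the rows CPK and RU2-4 (helper4)

`cpa`: the windows of a complex `g : CV → V` inside any coloured graph without monochromatic `H`
are forced, as soon as there are generic vertices `P j` of the kinds `K j` with the colour `b` to
every chosen vertex of the special worlds of the other kinds.  `cpb`: slots of all kinds, of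
colour `b` to a vertex and to the hubs of main colour, are impossible.  Ports of C4/Cpf.lean and
C4/Ru2.lean.
-/

set_option autoImplicit false

namespace MP3240CO

open Finset MP3240T MP3240W
open MP3240M (MData)
open MP3240C (CV cx cxRel HomC RamR)
open Pool.Agent.Lib.MP_3240be_co.H36 (LocCol Blow)

/-- Adjacency in the complex. -/
theorem cpa_adj {p q LR LQ : ℕ} (W : SimpleGraph (Fin q)) (TR : Option (Fin p) → SimpleGraph (Fin LR))
    (TQ : Fin q → SimpleGraph (Fin LQ)) (a b : CV p q LR LQ) (hne : a ≠ b)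
    (hab : cxRel W TR TQ a b) : (cx W TR TQ).G.Adj a b := by
  show (SimpleGraph.fromRel (cxRel W TR TQ)).Adj a b
  rw [SimpleGraph.fromRel_adj]
  exact ⟨hne, Or.inl hab⟩

/-- **The windows are forced.** -/
theorem cpa {n p hr b₀ b₁ q LR LQ : ℕ} {H : SimpleGraph (Fin n)} (D : MData H (p + 1) hr)
    {V : Type} {G : SimpleGraph V} {c : V → V → Bool} {b : Bool} {ι : Type}
    {W : SimpleGraph (Fin q)} {TR : Option (Fin p) → SimpleGraph (Fin LR)}
    {TQ : Fin q → SimpleGraph (Fin LQ)} {B : SimpleGraph (Fin b₀)} {B₁ : SimpleGraph (Fin b₁)}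
    (hp : 2 ≤ p) (hb₀ : 1 ≤ b₀) (hb₁ : 1 ≤ b₁) (hc : ∀ x y, c x y = c y x)
    (hno : ∀ b, ¬ Emb H (cls G c b))
    (hTR : HomC B (Option (Fin p)) ((Fin q → Fin LQ → Bool) × (ι → Bool)) TR)
    (hTQ : HomC B₁ (Fin q) Bool TQ)
    (hB : ∀ c : Fin b₀ → Fin b₀ → Bool, (∀ x y, c x y = c y x) →
      ∃ A A', p + 2 ≤ A + A' ∧ Blow B c n A true ∧ Blow B c n A' false)
    (hB₁ : ∀ c : Fin b₁ → Fin b₁ → Bool, (∀ x y, c x y = c y x) →
      ∃ A A', p + 1 ≤ A + A' ∧ Blow B₁ c n A true ∧ Blow B₁ c n A' false)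
    (g : CV p q LR LQ → V) (hgi : Function.Injective g)
    (hga : ∀ a b, (cx W TR TQ).G.Adj a b → G.Adj (g a) (g b)) (sl : ι → V)
    (K : Fin (p + 1) → Fin q) (hK : ∀ j j', j ≠ j' → W.Adj (K j) (K j'))
    (hP : ∀ S : Fin ((p + 1) * b₁) → Fin (p + 1) × Fin LQ, ∃ P : Fin (p + 1) → Fin n → V,
      (∀ j, Function.Injective (P j)) ∧
      (∀ j j' x y, j ≠ j' → G.Adj (P j x) (P j' y) ∧ c (P j x) (P j' y) = b) ∧
      ∀ k j', (S k).1 ≠ j' → ∀ a, G.Adj (g (.inr (K (S k).1, (S k).2))) (P j' a) ∧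
        c (g (.inr (K (S k).1, (S k).2))) (P j' a) = b) :
    ∃ E : Option (Fin p) → Fin b₀ → Fin LR,
      (∀ j, Function.Injective (E j)) ∧ (∀ j x y, B.Adj x y → (TR j).Adj (E j x) (E j y)) ∧
      (∀ j, Blow B (fun x y => c (g (.inl (j, E j x))) (g (.inl (j, E j y)))) n (p + 1) b) ∧
      (∀ j j', j ≠ j' → ∀ x y, c (g (.inl (j, E j x))) (g (.inl (j', E j' y))) = !b) ∧
      ∀ j ν x y, c (g (.inl (j, E j x))) (sl ν) = c (g (.inl (j, E j y))) (sl ν) := by
  classical
  set x0 : Fin b₀ := ⟨0, hb₀⟩ with hx0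
  set y0 : Fin b₁ := ⟨0, hb₁⟩ with hy0
  -- the windows
  obtain ⟨e, he⟩ := hTR
    (fun j t => (fun a s => c (g (.inl (j, t))) (g (.inr (a, s))),
      fun ν => c (g (.inl (j, t))) (sl ν)))
    (fun j t j' t' => c (g (.inl (j, t))) (g (.inl (j', t'))))
  have heQ : ∀ j t t' a s, c (g (.inl (j, e j t))) (g (.inr (a, s))) =
      c (g (.inl (j, e j t'))) (g (.inr (a, s))) := by
    intro j t t' a s
    have h1 := congrArg Prod.fst ((he j).2.2.1 t t')
    exact congrFun (congrFun h1 a) s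
  have heS : ∀ j t t' ν, c (g (.inl (j, e j t))) (sl ν) = c (g (.inl (j, e j t'))) (sl ν) := by
    intro j t t' ν
    have h1 := congrArg Prod.snd ((he j).2.2.1 t t')
    exact congrFun h1 ν
  -- the special worlds
  obtain ⟨f, hf⟩ := hTQ
    (fun a s => c (g (.inl (none, e none x0))) (g (.inr (a, s))))
    (fun a s a' s' => c (g (.inr (a, s))) (g (.inr (a', s'))))
  have hKi : Function.Injective K := by
    intro j j' hj
    by_contra hne
    exact (hK j j' hne).ne hj
  set F : Fin (p + 1) → Fin b₁ → V := fun j t => g (.inr (K j, f (K j) t)) with hFdef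
  -- the special vertices
  set S : Fin ((p + 1) * b₁) → Fin (p + 1) × Fin LQ := fun k =>
    ((finProdFinEquiv.symm k).1, f (K (finProdFinEquiv.symm k).1) (finProdFinEquiv.symm k).2)
    with hS
  have hSF : ∀ j t, ∃ k, S k = (j, f (K j) t) := by
    intro j t
    refine ⟨finProdFinEquiv (j, t), ?_⟩
    have h1 : finProdFinEquiv.symm (finProdFinEquiv (j, t)) = (j, t) :=
      Equiv.symm_apply_apply _ _
    simp only [hS]
    rw [h1]
  obtain ⟨P, hP1, hP2, hP3⟩ := hP S
  -- blow-ups in the windows and in the special worlds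
  have hρ : ∀ j : Option (Fin p), ∃ ρ : Bool → ℕ, p + 2 ≤ ρ true + ρ false ∧ ∀ β,
      Blow B (fun t t' => c (g (.inl (j, e j t))) (g (.inl (j, e j t')))) n (ρ β) β := by
    intro j
    obtain ⟨A, A', hA, hA1, hA2⟩ := hB
      (fun t t' => c (g (.inl (j, e j t))) (g (.inl (j, e j t')))) (fun _ _ => hc _ _)
    exact ⟨fun β => if β then A else A', by simpa using hA, fun β => by
      cases β
      · simpa using hA2
      · simpa using hA1⟩
  choose ρ hρ1 hρ2 using hρ
  have hρF : ∀ j : Fin (p + 1), ∃ ρ : Bool → ℕ, p + 1 ≤ ρ true + ρ false ∧ ∀ β,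
      Blow B₁ (fun t t' => c (F j t) (F j t')) n (ρ β) β := by
    intro j
    obtain ⟨A, A', hA, hA1, hA2⟩ := hB₁ (fun t t' => c (F j t) (F j t')) (fun _ _ => hc _ _)
    exact ⟨fun β => if β then A else A', by simpa using hA, fun β => by
      cases β
      · simpa using hA2
      · simpa using hA1⟩
  choose ρF hρF1 hρF2 using hρF
  obtain ⟨k1, k2⟩ := MP3240C.lnk_proof n p hr b₀ b₁ H D B B₁ V G c b
    (fun j t => g (.inl (j, e j t)))
    (fun j j' => c (g (.inl (j, e j x0))) (g (.inl (j', e j' x0)))) ρ F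
    (fun j j' => c (F j y0) (F j' y0)) ρF (fun j => c (g (.inl (none, e none x0))) (F j y0))
    P hp hc hno
    (by
      intro j t t' htt
      have h1 := hgi htt
      simp only [Sum.inl.injEq, Prod.mk.injEq, true_and] at h1
      exact (he j).1 h1)
    (by
      intro j j' t t' hjj
      refine hga _ _ (cpa_adj W TR TQ _ _ ?_ (Or.inl hjj))
      intro h0
      simp only [Sum.inl.injEq, Prod.mk.injEq] at h0
      exact hjj h0.1)
    (by
      intro j j' t t' hjj
      exact (he j).2.2.2 j' hjj t x0 t' x0)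
    (by
      intro j t t' htt
      have h1 := (he j).2.1 t t' htt
      refine hga _ _ (cpa_adj W TR TQ _ _ ?_ (Or.inr h1))
      intro h0
      simp only [Sum.inl.injEq, Prod.mk.injEq] at h0
      exact h1.ne h0.2)
    hρ2 hρ1
    (by
      intro j t t' htt
      have h1 := hgi htt
      simp only [Sum.inr.injEq, Prod.mk.injEq, true_and] at h1
      exact (hf (K j)).1 h1)
    (by
      intro j j' t t' hjj
      refine hga _ _ (cpa_adj W TR TQ _ _ ?_ (Or.inl (hK j j' hjj)))
      intro h0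
      simp only [Sum.inr.injEq, Prod.mk.injEq] at h0
      exact hjj (hKi h0.1))
    (by
      intro j j' t t' hjj
      exact (hf (K j)).2.2.2 (K j') (fun h0 => hjj (hKi h0)) t y0 t' y0)
    (by
      intro j t t' htt
      have h1 := (hf (K j)).2.1 t t' htt
      refine hga _ _ (cpa_adj W TR TQ _ _ ?_ (Or.inr ⟨rfl, h1⟩))
      intro h0
      simp only [Sum.inr.injEq, Prod.mk.injEq] at h0
      exact h1.ne h0.2)
    hρF2 hρF1
    (by
      intro j t t'
      exact hga _ _ (cpa_adj W TR TQ _ _ (by simp) rfl))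
    (by
      intro j t t'
      show c (g (.inl (none, e none t))) (g (.inr (K j, f (K j) t'))) =
        c (g (.inl (none, e none x0))) (g (.inr (K j, f (K j) y0)))
      rw [heQ none t x0]
      exact (hf (K j)).2.2.1 t' y0)
    hP1 (fun j j' x y hjj => hP2 j j' x y hjj)
    (by
      intro j j' t u hjj
      obtain ⟨k, hk⟩ := hSF j t
      have h1 := hP3 k j' (by rw [hk]; exact hjj) u
      rw [hk] at h1
      exact h1)
  refine ⟨e, fun j => (he j).1, fun j t t' htt => (he j).2.1 t t' htt, ?_, ?_, ?_⟩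
  · intro j
    have h1 := hρ2 j b
    rw [k2 j] at h1
    exact h1
  · intro j j' hjj t t'
    rw [← k1 j j' hjj]
    exact (he j).2.2.2 j' hjj t x0 t' x0
  · intro j ν t t'
    exact heS j t t' ν

theorem cpb_ne1 : ∀ e b : Bool, e ≠ (!b) → e = b := by decide

theorem cpb_ne2 : ∀ e b : Bool, e ≠ b → e = !b := by decide

/-- **Slots of all kinds, of colour `b` to `hr + 1` vertices, are impossible.** -/
theorem cpb {n p hr b₀ q LR LQ N₂ : ℕ} {H : SimpleGraph (Fin n)} (D : MData H (p + 1) hr)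
    {V : Type} {G : SimpleGraph V} {c : V → V → Bool} {b : Bool} {ι : Type}
    {W : SimpleGraph (Fin q)} {TR : Option (Fin p) → SimpleGraph (Fin LR)}
    {TQ : Fin q → SimpleGraph (Fin LQ)} {B : SimpleGraph (Fin b₀)}
    (hb₀ : 1 ≤ b₀) (hc : ∀ x y, c x y = c y x) (hno : ∀ b, ¬ Emb H (cls G c b))
    (hram : RamR n N₂ (p + 1) Unit (Fin p → Bool))
    (g : CV p q LR LQ → V) (hgi : Function.Injective g)
    (hga : ∀ a b, (cx W TR TQ).G.Adj a b → G.Adj (g a) (g b)) (sl : ι → V)
    (E : Option (Fin p) → Fin b₀ → Fin LR)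
    (hE1 : ∀ j, Function.Injective (E j)) (hE2 : ∀ j x y, B.Adj x y → (TR j).Adj (E j x) (E j y))
    (hE3 : ∀ j, Blow B (fun x y => c (g (.inl (j, E j x))) (g (.inl (j, E j y)))) n (p + 1) b)
    (hE4 : ∀ j j', j ≠ j' → ∀ x y, c (g (.inl (j, E j x))) (g (.inl (j', E j' y))) = !b)
    (hE5 : ∀ j ν x y, c (g (.inl (j, E j x))) (sl ν) = c (g (.inl (j, E j y))) (sl ν))
    (s : Fin (p + 1) → Fin N₂ → ι) (hs : ∀ j, Function.Injective (fun a => sl (s j a)))
    (hss : ∀ j j', j ≠ j' → ∀ a a', G.Adj (sl (s j a)) (sl (s j' a')))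
    (hws : ∀ i t j a, G.Adj (g (.inl (some i, t))) (sl (s j a)))
    (T : Finset V) (hT : hr < T.card)
    (hTs : ∀ u ∈ T, ∀ j a, G.Adj u (sl (s j a)) ∧ c u (sl (s j a)) = b) : False := by
  classical
  set x0 : Fin b₀ := ⟨0, hb₀⟩ with hx0
  obtain ⟨e, k₁, θ, β, he, -, hθ, hβ⟩ := hram (fun _ => ())
    (fun j ν i => c (g (.inl (some i, E (some i) x0))) (sl (s j ν)))
    (fun j j' ν ν' => c (sl (s j ν)) (sl (s j' ν')))
  have hJ := MP3240M.joi_proof
  have hcls : ∀ (e : Bool) (s t : V), G.Adj s t → c s t = e → (cls G c e).Adj s t :=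
    fun e s t h1 h2 => ⟨h1, h2, by rw [hc]; exact h2⟩
  have hcls' : ∀ (e : Bool) (s t : V), (cls G c e).Adj s t → (cls G c e).Adj t s :=
    fun e s t h1 => h1.symm
  have hhn : hr + 1 ≤ n := by
    have h1 := card_le_univ (univ.filter (fun x => D.κ x = none))
    rw [D.cardA, Fintype.card_fin] at h1
    exact h1
  have hn0 : 0 < n := by omega
  -- the slots
  let Lw : Fin (p + 1) → Fin n → V := fun j a => sl (s j (e j a))
  have hLi : ∀ j, Function.Injective (Lw j) := fun j a a' haa => he j (hs j haa)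
  have hLL : ∀ j j', j ≠ j' → ∀ a a', (cls G c (β j j')).Adj (Lw j a) (Lw j' a') := by
    intro j j' hj a a'
    exact hcls _ _ _ (hss j j' hj _ _) (hβ j j' hj a a')
  have hWL : ∀ (i : Fin p) (t : Fin LR) (j : Fin (p + 1)) (a : Fin n),
      G.Adj (g (.inl (some i, t))) (Lw j a) := fun i t j a => hws i t j _
  have hθ' : ∀ (i : Fin p) (j : Fin (p + 1)) (a : Fin n) (t : Fin b₀),
      c (g (.inl (some i, E (some i) t))) (Lw j a) = θ j i := by
    intro i j a t
    rw [hE5 (some i) (s j (e j a)) t x0]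
    exact congrFun (hθ j a) i
  have hwin : ∀ (i i' : Fin p) (t t' : Fin LR), i ≠ i' →
      G.Adj (g (.inl (some i, t))) (g (.inl (some i', t'))) := by
    intro i i' t t' hii
    refine hga _ _ (cpa_adj W TR TQ _ _ ?_ (Or.inl fun h0 => hii (Option.some.inj h0)))
    intro h0
    simp only [Sum.inl.injEq, Prod.mk.injEq, Option.some.injEq] at h0
    exact hii h0.1
  -- step 1
  have hθb : ∀ i j, θ j i = !b := by
    intro i j
    by_contra hne1
    have hθ1 : θ j i = b := cpb_ne1 _ _ hne1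
    obtain ⟨F, hF1, hF2⟩ := hE3 (some i)
    refine hno b (hJ n (p + 1) hr H D _ _ (fun k u => g (.inl (some i, E (some i) (F k u))))
      (univ.image (Lw j)) ?_ ?_ ?_ ?_)
    · intro k u u' huu
      have h1 := hgi huu
      simp only [Sum.inl.injEq, Prod.mk.injEq, true_and] at h1
      exact hF1 k (hE1 _ h1)
    · intro k k' hk u u'
      have h1 := hF2 k k' hk u u'
      have h2 := hE2 (some i) _ _ h1.1
      refine hcls _ _ _ (hga _ _ (cpa_adj W TR TQ _ _ ?_ (Or.inr h2))) h1.2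
      intro h0
      simp only [Sum.inl.injEq, Prod.mk.injEq] at h0
      exact h2.ne h0.2
    · rw [card_image_of_injective _ (hLi j), card_univ, Fintype.card_fin]
      omega
    · intro v hv k u
      obtain ⟨a, _, rfl⟩ := mem_image.1 hv
      exact hcls' _ _ _ (hcls _ _ _ (hWL i _ j a) ((hθ' i j a _).trans hθ1))
  -- step 2
  have hβb : ∀ j j', j ≠ j' → β j j' = b := by
    intro j j' hj
    by_contra hne1
    have hβ1 : β j j' = !b := cpb_ne2 _ _ hne1
    have hpt : ∀ i : Fin p, ∃ φ : Fin n → Fin b₀, Function.Injective φ := by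
      intro i
      obtain ⟨F, hF1, _⟩ := hE3 (some i)
      exact ⟨F 0, hF1 0⟩
    choose φ hφ using hpt
    let F : Fin (p + 1) → Fin n → V := fun k =>
      Fin.cases (Lw j) (fun i u => g (.inl (some i, E (some i) (φ i u)))) k
    have hWi : ∀ i : Fin p, Function.Injective (F i.succ) := by
      intro i u u' huu
      have h1 := hgi (show g (.inl (some i, E (some i) (φ i u))) =
        g (.inl (some i, E (some i) (φ i u'))) from huu)
      simp only [Sum.inl.injEq, Prod.mk.injEq, true_and] at h1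
      exact hφ i (hE1 _ h1)
    have hWLc : ∀ (i : Fin p) (u : Fin n) (j₁ : Fin (p + 1)) (a : Fin n),
        (cls G c (!b)).Adj (g (.inl (some i, E (some i) (φ i u)))) (Lw j₁ a) := by
      intro i u j₁ a
      exact hcls _ _ _ (hWL i _ j₁ a) ((hθ' i j₁ a _).trans (hθb i j₁))
    refine hno (!b) (hJ n (p + 1) hr H D _ _ F (univ.image (Lw j')) ?_ ?_ ?_ ?_)
    · intro k
      refine Fin.cases ?_ (fun i => ?_) k
      · exact hLi j
      · exact hWi i
    · intro k k'
      refine Fin.cases ?_ (fun i => ?_) k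
      · refine Fin.cases ?_ (fun i' => ?_) k'
        · intro h0
          exact absurd rfl h0
        · intro _ u u'
          exact hcls' _ _ _ (hWLc i' u' j u)
      · refine Fin.cases ?_ (fun i' => ?_) k'
        · intro _ u u'
          exact hWLc i u j u'
        · intro hii u u'
          have hii' : i ≠ i' := fun h1 => hii (congrArg Fin.succ h1)
          exact hcls _ _ _ (hwin i i' _ _ hii')
            (hE4 _ _ (fun h0 => hii' (Option.some.inj h0)) _ _)
    · rw [card_image_of_injective _ (hLi j'), card_univ, Fintype.card_fin]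
      omega
    · intro v hv k u
      obtain ⟨a, _, rfl⟩ := mem_image.1 hv
      refine Fin.cases ?_ (fun i => ?_) k
      · have h1 := hLL j j' hj u a
        rw [hβ1] at h1
        exact hcls' _ _ _ h1
      · exact hcls' _ _ _ (hWLc i u j' a)
  -- step 3
  refine hno b (hJ n (p + 1) hr H D _ _ Lw T hLi ?_ hT ?_)
  · intro j j' hj a a'
    have h1 := hLL j j' hj a a'
    rw [hβb j j' hj] at h1
    exact h1
  · intro v hv j a
    exact hcls _ _ _ (hTs v hv j _).1 (hTs v hv j _).2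

/-- **Rows CPK and RU2-4 together, without the host.** -/
theorem cpab {n p hr b₀ b₁ q LR LQ N₂ : ℕ} {H : SimpleGraph (Fin n)} (D : MData H (p + 1) hr)
    {V : Type} {G : SimpleGraph V} {c : V → V → Bool} {b : Bool} {ι : Type}
    {W : SimpleGraph (Fin q)} {TR : Option (Fin p) → SimpleGraph (Fin LR)}
    {TQ : Fin q → SimpleGraph (Fin LQ)} {B : SimpleGraph (Fin b₀)} {B₁ : SimpleGraph (Fin b₁)}
    (hp : 2 ≤ p) (hb₀ : 1 ≤ b₀) (hb₁ : 1 ≤ b₁) (hc : ∀ x y, c x y = c y x)
    (hno : ∀ b, ¬ Emb H (cls G c b))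
    (hTR : HomC B (Option (Fin p)) ((Fin q → Fin LQ → Bool) × (ι → Bool)) TR)
    (hTQ : HomC B₁ (Fin q) Bool TQ)
    (hB : ∀ c : Fin b₀ → Fin b₀ → Bool, (∀ x y, c x y = c y x) →
      ∃ A A', p + 2 ≤ A + A' ∧ Blow B c n A true ∧ Blow B c n A' false)
    (hB₁ : ∀ c : Fin b₁ → Fin b₁ → Bool, (∀ x y, c x y = c y x) →
      ∃ A A', p + 1 ≤ A + A' ∧ Blow B₁ c n A true ∧ Blow B₁ c n A' false)
    (hram : RamR n N₂ (p + 1) Unit (Fin p → Bool))
    (g : CV p q LR LQ → V) (hgi : Function.Injective g)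
    (hga : ∀ a b, (cx W TR TQ).G.Adj a b → G.Adj (g a) (g b)) (sl : ι → V)
    (K : Fin (p + 1) → Fin q) (hK : ∀ j j', j ≠ j' → W.Adj (K j) (K j'))
    (hP : ∀ S : Fin ((p + 1) * b₁) → Fin (p + 1) × Fin LQ, ∃ P : Fin (p + 1) → Fin n → V,
      (∀ j, Function.Injective (P j)) ∧
      (∀ j j' x y, j ≠ j' → G.Adj (P j x) (P j' y) ∧ c (P j x) (P j' y) = b) ∧
      ∀ k j', (S k).1 ≠ j' → ∀ a, G.Adj (g (.inr (K (S k).1, (S k).2))) (P j' a) ∧
        c (g (.inr (K (S k).1, (S k).2))) (P j' a) = b)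
    (s : Fin (p + 1) → Fin N₂ → ι) (hs : ∀ j, Function.Injective (fun a => sl (s j a)))
    (hss : ∀ j j', j ≠ j' → ∀ a a', G.Adj (sl (s j a)) (sl (s j' a')))
    (hws : ∀ i t j a, G.Adj (g (.inl (some i, t))) (sl (s j a)))
    (T : Finset V) (hT : hr < T.card)
    (hTs : ∀ u ∈ T, ∀ j a, G.Adj u (sl (s j a)) ∧ c u (sl (s j a)) = b) : False := by
  obtain ⟨E, h1, h2, h3, h4, h5⟩ := cpa D hp hb₀ hb₁ hc hno hTR hTQ hB hB₁ g hgi hga sl K hK hP
  exact cpb D hb₀ hc hno hram g hgi hga sl E h1 h2 h3 h4 h5 s hs hss hws T hT hTs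

end MP3240CO
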