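import Pool.Agent.Lib.MP_3240be_co.CO.Defs
import Pool.Agent.Lib.MP_3240be_co.CO.Cpa
import Pool.Agent.Lib.MP_3240be_co.C4.Hmc
import Pool.Agent.Lib.MP_3240be_co.C4.Mnc
import Pool.Agent.Lib.MP_3240be_co.N49.Hb
import Pool.Agent.Lib.MP_3240be_co.N49.Grp

/-!
# MP_3240be_co, board core_modules: rows CPK and RU2-4 (helper4)

The host-free parts are `cpa` and `cpb` of CO/Cpa.lean.
-/

set_option autoImplicit false

namespace MP3240CO

open Finset MP3240T MP3240W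
open MP3240N (Sig BigC CopyB Homog)
open MP3240M (MData AStar)
open MP3240X (VQ cq bz)
open Pool.Agent.Lib.MP_3240be_co.H36 (LocCol Blow)
open Pool.Agent.Lib.MP_3240be_co.H36.Chrom (Sparse)

theorem cpk_ne : ∀ e b : Bool, (¬ e = !b) → e = b := by decide

/-- **Row CPK.** -/
theorem cpk_proof (hT : TonStatement) : CpkStatement := by
  classical
  intro n d hr hb s q L₀ b₀ b₁ B₀ LR LQ p sp H L Dm X₀ Bl J I M W T K' D δ TR TQ B B₁ B₂ c hp hb₁
    hB₀ hsp hEx hX₀ hX₀c hc hno hTR hTQ hB₂ hB₁ Cs hHst i K b hfine m ps j k φ v hnr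
  let g : MP3240C.CV p q LR LQ → VO H (hr + hb) s q L₀ I M J (MP3240C.CV p q LR LQ) :=
    fun a => .g m ps j k φ v a
  have hgi : Function.Injective g := by
    intro a a' haa
    have h1 : (VO.g m ps j k φ v a : VO H (hr + hb) s q L₀ I M J (MP3240C.CV p q LR LQ)) =
      .g m ps j k φ v a' := haa
    injection h1
  have hga : ∀ a a', (MP3240C.cx W TR TQ).G.Adj a a' →
      (FO (h := hr + hb) W T D δ (at4 W TR TQ)).Adj (g a) (g a') := by
    intro a a' haa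
    exact adj_gg W T D δ (at4 W TR TQ) haa m ps j k φ v hnr
  suffices hP : ∀ S : Fin ((p + 1) * b₁) → Fin (p + 1) × Fin LQ,
      ∃ P : Fin (p + 1) → Fin n → VO H (hr + hb) s q L₀ I M J (MP3240C.CV p q LR LQ),
      (∀ j, Function.Injective (P j)) ∧
      (∀ j j' x y, j ≠ j' → (FO (h := hr + hb) W T D δ (at4 W TR TQ)).Adj (P j x) (P j' y) ∧
        c (P j x) (P j' y) = b) ∧
      ∀ k j', (S k).1 ≠ j' → ∀ a, (FO (h := hr + hb) W T D δ (at4 W TR TQ)).Adj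
        (g (.inr (K (S k).1, (S k).2))) (P j' a) ∧
        c (g (.inr (K (S k).1, (S k).2))) (P j' a) = b by
    obtain ⟨E, h1, h2, h3, h4, h5⟩ := cpa Dm (G := FO (h := hr + hb) W T D δ (at4 W TR TQ))
      (c := c) (b := b) hp hB₀ hb₁ hc hno hTR hTQ hB₂ hB₁ g hgi hga
      (fun β => lowO D δ m ps β v) K hfine.adj hP
    exact ⟨E, ⟨h1, h2, h3, h4, h5⟩⟩
  intro S
  -- the special vertices
  have hpos : 0 < (p + 1) * b₁ := Nat.mul_pos (by omega) (by omega)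
  set S' : Fin sp → VO H (hr + hb) s q L₀ I M J (MP3240C.CV p q LR LQ) := fun x =>
    if hx : (x : ℕ) < (p + 1) * b₁ then g (.inr (K (S ⟨x, hx⟩).1, (S ⟨x, hx⟩).2))
    else g (.inr (K (S ⟨0, hpos⟩).1, (S ⟨0, hpos⟩).2)) with hS'
  have hSS : ∀ x : Fin ((p + 1) * b₁), ∃ y, S' y = g (.inr (K (S x).1, (S x).2)) := by
    intro x
    refine ⟨⟨x, lt_of_lt_of_le x.2 hsp⟩, ?_⟩
    simp only [hS']
    rw [dif_pos x.2]
  obtain ⟨Z⟩ := hHst i S'
  obtain ⟨-, hT2⟩ := hT n d hr hb s q L₀ b₀ 0 (p + 1) sp H L Dm X₀ Bl J I M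
    (MP3240C.CV p q LR LQ) W T K' D δ (at4 W TR TQ) B c (by omega) hEx hX₀ hX₀c hc hno Cs i S' Z K
    hfine.adj hfine.same
  obtain ⟨hT3, hT4⟩ := hT2 b hfine
  -- one part of a copy
  have hpart : ∃ phi : Fin n → Fin b₀, Function.Injective phi := by
    obtain ⟨Ph, hPh, -⟩ := (Z.cop (K 0)).2.2.1 b
    have h6 : ((Cs.s i (K 0)).2.1 b : ℕ) = 1 := hfine.one 0
    have h7 : 0 < ((Cs.s i (K 0)).2.1 b : ℕ) := by omega
    exact ⟨Ph ⟨0, h7⟩, hPh _⟩
  obtain ⟨phi, hphi⟩ := hpart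
  refine ⟨fun a u => .l i (K a) (Z.e (K a) (phi u)), ?_, ?_, ?_⟩
  · intro a u u' huu
    injection huu with _ _ h8
    exact hphi ((Z.cop (K a)).1.1 h8)
  · intro a a' u u' haa
    exact ⟨adj_ll W T D δ (at4 W TR TQ) (hfine.adj a a' haa) i i _ _, hT3 a a' haa _ _⟩
  · intro x a hxa u
    have hadj : ∀ y, (FO (h := hr + hb) W T D δ (at4 W TR TQ)).Adj
        (g (.inr (K (S x).1, (S x).2))) (.l i (K a) (Z.e (K a) y)) := by
      intro y
      refine adj_gl W T D δ (at4 W TR TQ) ?_ m ps j k φ v i _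
      exact ⟨K (S x).1, rfl, hfine.adj _ _ hxa⟩
    refine ⟨hadj _, ?_⟩
    obtain ⟨y, hy⟩ := hSS x
    refine cpk_ne _ _ fun hne => ?_
    refine hT4 (g (.inr (K (S x).1, (S x).2))) a (by intro k'; simp [g]) hadj ?_
    intro y'
    have h9 := Z.spe (K a) y y' (phi u)
    rw [hy] at h9
    rw [h9]
    exact hne

/-- **Row RU2-4**, from AT4 and CPK. -/
theorem ru24_of (h4 : At4Statement) (hT : TonStatement) (hB : MP3240N.HbStatement)
    (hM : MP3240C.HmcStatement) (hR : MP3240C.RarStatement) : Ru24Statement := by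
  classical
  intro n hr hb p H Dm hp hn hsig hconn
  have x0 : Fin n := ⟨0, by omega⟩
  obtain ⟨b₁, B₁, hB₁l, hB₁c⟩ := hB n p (2 * n ^ 2) (by omega)
  have hb₁ : 1 ≤ b₁ := MP3240C.mnc_pos x0 B₁ hB₁c
  obtain ⟨B₀, B₂, hBl, hBc⟩ := hB n (p + 1) (2 * n ^ 2) (by omega)
  have hB₀ : 1 ≤ B₀ := MP3240C.mnc_pos x0 B₂ hBc
  obtain ⟨N₂, hN₂, hRam⟩ := hR n (p + 1) Unit (Fin p → Bool)
  refine ⟨0, N₂, ?_⟩
  intro s q W Bl _ hWl
  obtain ⟨LQ, TQ, hTQl, hTQc⟩ := hM b₁ n p B₁ hp hB₁l (Fin q) Bool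
  obtain ⟨LR, TR, hTRl, hTRc⟩ := hM B₀ n (p + 1) B₂ (by omega) hBl (Option (Fin p))
    ((Fin q → Fin LQ → Bool) × (Bl → Bool))
  refine ⟨MP3240C.CV p q LR LQ, at4 W TR TQ, (p + 1) * b₁ + n + 1, by omega,
    h4 n hr p q LR LQ H W TR TQ (by omega) hsig hconn hWl hTRl hTQl, ?_⟩
  intro d b₀ L₀ L X₀ B T K' J I M D δ hEx hX₀ hX₀c hδ c hc hno Cs hHst m K b hF hsame ps j k φ v u
    g ν hinr hu hν hkd hcu hcz _
  have hnr : Near H D.xs D.ys j v := hu.imp And.right And.right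
  have y : SO Bl n q L₀ := ((ν 0 ⟨0, by omega⟩, v), ps)
  obtain ⟨E, hE⟩ := cpk_proof hT n d hr hb s q L₀ b₀ b₁ B₀ LR LQ p _ H L Dm X₀ Bl J I M W T K' D
    δ TR TQ B B₁ B₂ c hp hb₁ hB₀ (by omega) hEx hX₀ hX₀c hc hno hTRc hTQc hBc hB₁c Cs hHst
    (δ m y) K b (hF y) m ps j k φ v hnr
  refine cpb Dm (G := FO (h := hr + hb) W T D δ (at4 W TR TQ)) (c := c) (b := b) (W := W)
    (TQ := TQ) hB₀ hc hno hRam
    (fun a => .g m ps j k φ v a) ?_ ?_ (fun β => lowO D δ m ps β v) E hE.inj hE.hom hE.blo hE.crs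
    hE.slo ν ?_ ?_ ?_
    (insert (.z m ps j k u) ((univ.filter (fun k' => (Cs.s (δ m y) (K 0)).1 k' = b)).image
      (fun k' => (.u k' : VO H (hr + hb) s q L₀ I M J (MP3240C.CV p q LR LQ))))) ?_ ?_
  · intro a a' haa
    have h1 : (VO.g m ps j k φ v a : VO H (hr + hb) s q L₀ I M J (MP3240C.CV p q LR LQ)) =
      .g m ps j k φ v a' := haa
    injection h1
  · intro a a' haa
    exact adj_gg W T D δ (at4 W TR TQ) haa m ps j k φ v hnr
  · intro a x x' hxx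
    have h1 : (lowO D δ m ps (ν a x) v :
      VO H (hr + hb) s q L₀ I M J (MP3240C.CV p q LR LQ)) = lowO D δ m ps (ν a x') v := hxx
    unfold lowO at h1
    injection h1 with h2 _ _
    exact hν a (congrArg (fun t : SO Bl n q L₀ => t.1.1) (hδ m h2))
  · intro a a' haa x x'
    refine adj_ll W T D δ (at4 W TR TQ) ?_ _ _ _ _
    rw [(hkd a x).1, (hkd a' x').1]
    exact (hF y).adj a a' haa
  · intro i t a x
    refine adj_gb W T D δ (at4 W TR TQ) ?_ hinr m ps (ν a x) (hkd a x).2.2 (hkd a x).2.1 hnr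
    exact Option.some_ne_none i
  · rw [card_insert_of_notMem, card_image_of_injective, (hF y).hub 0]
    · omega
    · intro k1 k2 hkk
      injection hkk
    · intro hm
      obtain ⟨k1, _, hk⟩ := mem_image.1 hm
      cases hk
  · intro w hw a x
    rcases mem_insert.1 hw with rfl | hw
    · refine ⟨adj_zb W T D δ (at4 W TR TQ) hinr m ps (ν a x) ?_, hcz a x⟩
      refine ⟨(hkd a x).2.2, ?_⟩
      rw [(hkd a x).2.1]
      rcases hu with h1 | h1
      · exact Or.inl h1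
      · exact Or.inr h1
    · obtain ⟨k1, hk1, rfl⟩ := mem_image.1 hw
      refine ⟨adj_ul W T D δ (at4 W TR TQ) _ _ _ _, ?_⟩
      refine hcu a x y k1 ?_
      rw [(hF y).same a 0]
      exact (mem_filter.1 hk1).2

/-- **Row RU2-4.** -/
theorem ru24_proof (h4 : At4Statement) (hT : TonStatement) : Ru24Statement :=
  ru24_of h4 hT MP3240N.hb_proof (MP3240C.hmc_proof MP3240N.grp_proof) MP3240C.rar_proof

end MP3240CO
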