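import Pool.Agent.Lib.MP_3240be_co.CO.Atts

/-!
# MP_3240be_co: Theorem CORE, the host and the rows with the host

Paper: finding 4776 (helper39).  Notation: `H` on `Fin n`, core `L` on `Fin d`, `r = p + 1`,
`h = hr + hb` hubs (`hr + 1 = σ`, `hb + 1 = τ`), `q` kinds (graph `W`), `s` special pairs,
`L₀` = number of positions of the worlds (graphs `T w`), `Bl` blobs, `J` passenger indices, `I`
indices, `M` hyperedges, `X` the attachment on the set `C` with `t` twins.

The host rows are stated for an abstract missing graph `L` (`QFree`, `XG`; no cores).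

Rows: RDK, GAK, BLK, NFK | CLA, HST, TON | RU1 | CPK, RU2-4, RU2-3a, RU2-3b | ARK.
-/

set_option autoImplicit false

namespace MP3240CO

open Finset MP3240T MP3240W
open MP3240N (Sig BigC CopyB Homog)
open MP3240M (MData AStar)
open MP3240C (BadS MinBad CxB)
open MP3240K (Core IsE)
open MP3240X (VQ cq bz)
open Pool.Agent.Lib.MP_3240be_co.H36 (LocCol Blow)
open Pool.Agent.Lib.MP_3240be_co.H36.Chrom (Sparse)

/-! ## The gadgets -/

/-- The data of the gadgets: the set `X'`, the special pairs `xs j`, `ys j`, the blobs with kinds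
`kd`, types `ty` (one dart of `H` for every special pair) and passenger indices `io`. -/
structure GD {n : ℕ} (H : SimpleGraph (Fin n)) (s q : ℕ) (Bl J : Type) where
  X' : Finset (Fin n)
  xs : Fin s → Fin n
  ys : Fin s → Fin n
  kd : Bl → Fin q
  ty : Bl → Fin s → H.Dart
  io : Bl → Fin s → J

section
variable {n s q : ℕ} {H : SimpleGraph (Fin n)} {Bl J : Type}

/-- The inner vertices of `H`. -/
def GD.inr (D : GD H s q Bl J) (w : Fin n) : Prop := Inn D.X' D.xs D.ys w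

/-- The property of the inner data (row INN). -/
def GD.Rob (D : GD H s q Bl J) (B : ℕ) : Prop :=
  ∀ (lab : J → (Fin s → H.Dart) × Fin q) (bad : J → Finset Bl), (∀ k, (bad k).card ≤ B) →
    ∃ b, ∀ j, lab (D.io b j) = (D.ty b, D.kd b) ∧ b ∉ bad (D.io b j)

/-- `L` is not contained in the blue gadget (inner slots, passengers, attachments). -/
def QFree {d t : ℕ} {C : Type} (L : SimpleGraph (Fin d)) (D : GD H s q Bl J) (X : Att q C t) :
    Prop :=
  ∀ F : Fin d → VQ H s Bl J C, Function.Injective F → (∀ u b w, F u = .b b w → D.inr w) →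
    (∀ u j i φ w a, F u = .g j i φ w a → Near H D.xs D.ys j w) →
    (∀ u v, L.Adj u v → cq D.xs D.ys D.ty D.io (fun a b => X.G.Adj a b ∧ ¬ X.red a b) X.att
      (F u) (F v)) → False

theorem qfree_of {d t p hr : ℕ} {C : Type} {L : SimpleGraph (Fin d)} {D : GD H s q Bl J}
    {X : Att q C t} {W : SimpleGraph (Fin q)} (hL : GQFree H L D.X' D.xs D.ys p)
    (hX : AttOK H hr p W X) (hio : ∀ b, Function.Injective (D.io b))
    (hsp : Sparse (n * n) D.io) : QFree L D X := by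
  intro F hF hin hnr hadj
  refine hL Bl J C D.ty D.io _ X.att hio hsp ?_ hX.blu F hF hin hnr hadj
  intro a b h
  exact ⟨h.1.symm, fun h' => h.2 (hX.sym _ _ h')⟩

end

/-! ## The host -/

/-- The vertices of the host: hubs `u k`, lows `l i w x` (index, kind, position), passengers
`z m ps j k v` of the set `(j, k)` of the gadget `(m, ps)`, vertices `g m ps j k φ v a` of the
attachment of type `(j, k, φ, v)`. -/
inductive VO {n : ℕ} (H : SimpleGraph (Fin n)) (h s q L₀ : ℕ) (I M J C : Type) : Type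
  | u : Fin h → VO H h s q L₀ I M J C
  | l : I → Fin q → Fin L₀ → VO H h s q L₀ I M J C
  | z : M → (Fin q → Fin L₀) → Fin s → J → Fin n → VO H h s q L₀ I M J C
  | g : M → (Fin q → Fin L₀) → Fin s → J → (Fin s → H.Dart) → Fin n → C →
      VO H h s q L₀ I M J C

/-- The slots `(b, v)` of the gadgets with positions. -/
abbrev SO (Bl : Type) (n q L₀ : ℕ) : Type := (Bl × Fin n) × (Fin q → Fin L₀)

section
variable {n h s q L₀ t : ℕ} {H : SimpleGraph (Fin n)} {Bl J I M C : Type}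

/-- The low in the slot `(b, v)` of the gadget `(m, ps)`. -/
def lowO (D : GD H s q Bl J) (δ : M → SO Bl n q L₀ → I) (m : M) (ps : Fin q → Fin L₀) (b : Bl)
    (v : Fin n) : VO H h s q L₀ I M J C :=
  .l (δ m ((b, v), ps)) (D.kd b) (ps (D.kd b))

/-- The edges of the host, in one direction. -/
def relO (W : SimpleGraph (Fin q)) (T : Fin q → SimpleGraph (Fin L₀)) (D : GD H s q Bl J)
    (δ : M → SO Bl n q L₀ → I) (X : Att q C t) :
    VO H h s q L₀ I M J C → VO H h s q L₀ I M J C → Prop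
  | .u _, .l _ _ _ => True
  | .l i w x, .l i' w' x' => W.Adj w w' ∨ (i = i' ∧ w = w' ∧ (T w).Adj x x') ∨
      ∃ m ps b v v', VO.l i w x = lowO (h := h) (C := C) D δ m ps b v ∧
        VO.l i' w' x' = lowO (h := h) (C := C) D δ m ps b v' ∧ H.Adj v v' ∧ D.inr v ∧ D.inr v'
  | .z m ps j k v, .l i w x => ∃ b v', VO.l i w x = lowO (h := h) (C := C) D δ m ps b v' ∧
      D.inr v' ∧ bz D.xs D.ys D.ty D.io b v' j k v
  | .z m ps j k v, .z m' ps' j' k' v' => m = m' ∧ ps = ps' ∧ j = j' ∧ k = k' ∧ H.Adj v v'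
  | .g m ps j k φ v a, .l i w x =>
      (X.att a ∧ ∃ b, VO.l i w x = lowO (h := h) (C := C) D δ m ps b v ∧ D.inr v ∧
        D.io b j = k ∧ D.ty b = φ ∧ Near H D.xs D.ys j v) ∨ X.lo a w
  | .g m ps j k φ v a, .g m' ps' j' k' φ' v' a' =>
      m = m' ∧ ps = ps' ∧ j = j' ∧ k = k' ∧ φ = φ' ∧ v = v' ∧ X.G.Adj a a' ∧
        Near H D.xs D.ys j v
  | _, _ => False

/-- The host. -/
def FO (W : SimpleGraph (Fin q)) (T : Fin q → SimpleGraph (Fin L₀)) (D : GD H s q Bl J)
    (δ : M → SO Bl n q L₀ → I) (X : Att q C t) : SimpleGraph (VO H h s q L₀ I M J C) :=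
  SimpleGraph.fromRel (relO W T D δ X)

/-- The red edges of the good colouring, in one direction. -/
def redO (hr : ℕ) (W : SimpleGraph (Fin q)) (X : Att q C t) :
    VO H h s q L₀ I M J C → VO H h s q L₀ I M J C → Prop
  | .u k, .l _ _ _ => k.val < hr
  | .l _ w _, .l _ w' _ => W.Adj w w'
  | .z _ _ _ _ _, .z _ _ _ _ _ => True
  | .g _ _ _ _ _ _ a, .l _ w _ => X.lo a w
  | .g _ _ _ _ _ _ a, .g _ _ _ _ _ _ a' => X.red a a'
  | _, _ => False

/-- The good colouring (`true` = red). -/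
noncomputable def cO (hr : ℕ) (W : SimpleGraph (Fin q)) (X : Att q C t)
    (a b : VO H h s q L₀ I M J C) : Bool := by
  classical exact decide (redO hr W X a b ∨ redO hr W X b a)

end

/-! ## Edges of the host -/

section
variable {n h s q L₀ t : ℕ} {H : SimpleGraph (Fin n)} {Bl J I M C : Type}
  (W : SimpleGraph (Fin q)) (T : Fin q → SimpleGraph (Fin L₀)) (D : GD H s q Bl J)
  (δ : M → SO Bl n q L₀ → I) (X : Att q C t)

theorem adj_ul (k : Fin h) (i : I) (w : Fin q) (x : Fin L₀) :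
    (FO W T D δ X).Adj (.u k) (.l i w x) := by
  rw [FO, SimpleGraph.fromRel_adj]
  exact ⟨fun e => (by injection e), Or.inl trivial⟩

theorem adj_ll {w w' : Fin q} (hw : W.Adj w w') (i i' : I) (x x' : Fin L₀) :
    (FO (h := h) W T D δ X).Adj (.l i w x) (.l i' w' x') := by
  rw [FO, SimpleGraph.fromRel_adj]
  refine ⟨fun e => ?_, Or.inl (Or.inl hw)⟩
  injection e with _ e2 _
  exact hw.ne e2

theorem adj_T {w : Fin q} {x x' : Fin L₀} (hx : (T w).Adj x x') (i : I) :
    (FO (h := h) W T D δ X).Adj (.l i w x) (.l i w x') := by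
  rw [FO, SimpleGraph.fromRel_adj]
  refine ⟨fun e => ?_, Or.inl (Or.inr (Or.inl ⟨rfl, rfl, hx⟩))⟩
  injection e with _ _ e3
  exact hx.ne e3

theorem adj_bb (hδ : ∀ m, Function.Injective (δ m)) {v v' : Fin n} (hv : H.Adj v v')
    (h1 : D.inr v) (h2 : D.inr v') (m : M) (ps : Fin q → Fin L₀) (b : Bl) :
    (FO (h := h) W T D δ X).Adj (lowO D δ m ps b v) (lowO D δ m ps b v') := by
  rw [FO, SimpleGraph.fromRel_adj]
  refine ⟨fun e => ?_, Or.inl (Or.inr (Or.inr ⟨m, ps, b, v, v', rfl, rfl, hv, h1, h2⟩))⟩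
  unfold lowO at e
  injection e with e1 _ _
  exact hv.ne (congrArg (fun t : SO Bl n q L₀ => t.1.2) (hδ m e1))

theorem adj_zb {v' : Fin n} (h1 : D.inr v') (m : M) (ps : Fin q → Fin L₀) (b : Bl) {j : Fin s}
    {k : J} {v : Fin n} (h2 : bz D.xs D.ys D.ty D.io b v' j k v) :
    (FO (h := h) W T D δ X).Adj (.z m ps j k v) (lowO D δ m ps b v') := by
  rw [FO, SimpleGraph.fromRel_adj]
  refine ⟨fun e => ?_, Or.inl ⟨b, v', rfl, h1, h2⟩⟩
  unfold lowO at e
  injection e

theorem adj_zz {v v' : Fin n} (hv : H.Adj v v') (m : M) (ps : Fin q → Fin L₀) (j : Fin s)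
    (k : J) : (FO (h := h) W T D δ X).Adj (.z m ps j k v) (.z m ps j k v') := by
  rw [FO, SimpleGraph.fromRel_adj]
  refine ⟨fun e => ?_, Or.inl ⟨rfl, rfl, rfl, rfl, hv⟩⟩
  injection e with _ _ _ _ e5
  exact hv.ne e5

theorem adj_gb {a : C} (ha : X.att a) {v : Fin n} (h1 : D.inr v) (m : M)
    (ps : Fin q → Fin L₀) (b : Bl) {j : Fin s} {k : J} {φ : Fin s → H.Dart}
    (h2 : D.io b j = k) (h3 : D.ty b = φ) (h4 : Near H D.xs D.ys j v) :
    (FO (h := h) W T D δ X).Adj (.g m ps j k φ v a) (lowO D δ m ps b v) := by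
  rw [FO, SimpleGraph.fromRel_adj]
  refine ⟨fun e => ?_, Or.inl (Or.inl ⟨ha, b, rfl, h1, h2, h3, h4⟩)⟩
  unfold lowO at e
  injection e

theorem adj_gl {a : C} {w : Fin q} (ha : X.lo a w) (m : M) (ps : Fin q → Fin L₀) (j : Fin s)
    (k : J) (φ : Fin s → H.Dart) (v : Fin n) (i : I) (x : Fin L₀) :
    (FO (h := h) W T D δ X).Adj (.g m ps j k φ v a) (.l i w x) := by
  rw [FO, SimpleGraph.fromRel_adj]
  exact ⟨fun e => (by injection e), Or.inl (Or.inr ha)⟩

theorem adj_gg {a a' : C} (ha : X.G.Adj a a') (m : M) (ps : Fin q → Fin L₀) (j : Fin s)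
    (k : J) (φ : Fin s → H.Dart) (v : Fin n) (hv : Near H D.xs D.ys j v) :
    (FO (h := h) W T D δ X).Adj (.g m ps j k φ v a) (.g m ps j k φ v a') := by
  rw [FO, SimpleGraph.fromRel_adj]
  refine ⟨fun e => ?_, Or.inl ⟨rfl, rfl, rfl, rfl, rfl, rfl, ha, hv⟩⟩
  injection e with _ _ _ _ _ _ e7
  exact ha.ne e7

end

/-! ## The good colouring -/

/-- Row RDK: the red copies of `H` are the sets of passengers.  Proof: as C4/Rdc.lean; a copy
without passengers is excluded by `RedOK`. -/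
def RdkStatement : Prop :=
  ∀ (n hr hb s q L₀ t p : ℕ) (H : SimpleGraph (Fin n)) (Bl J I M C : Type)
    (W : SimpleGraph (Fin q)) (T : Fin q → SimpleGraph (Fin L₀)) (D : GD H s q Bl J)
    (δ : M → SO Bl n q L₀ → I) (X : Att q C t), 2 ≤ n → H.Connected → AttOK H hr p W X →
    ∀ f : Fin n → VO H (hr + hb) s q L₀ I M J C, Function.Injective f →
      (∀ i j, H.Adj i j → (cls (FO W T D δ X) (cO hr W X) true).Adj (f i) (f j)) →
      ∃ m ps j k, ∀ i, ∃ v, f i = .z m ps j k v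

/-- Row GAK: no blue copy of `L` in the gadgets of one hyperedge.  Proof: as C4/Gac.lean, from
`QFree`. -/
def GakStatement : Prop :=
  ∀ (n d hr hb s q L₀ t p : ℕ) (H : SimpleGraph (Fin n)) (L : SimpleGraph (Fin d))
    (Bl J I M C : Type) (W : SimpleGraph (Fin q)) (T : Fin q → SimpleGraph (Fin L₀))
    (D : GD H s q Bl J) (δ : M → SO Bl n q L₀ → I) (X : Att q C t), 2 ≤ n → 2 ≤ d →
    L.Connected → QFree L D X → AttOK H hr p W X → (∀ m, Function.Injective (δ m)) →
    Sparse (n * n) δ →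
    ∀ (f : Fin d → VO H (hr + hb) s q L₀ I M J C) (m : M), Function.Injective f →
      (∀ i j, L.Adj i j → (cls (FO W T D δ X) (cO hr W X) false).Adj (f i) (f j)) →
      ¬ ∀ i, (∃ ps j k v, f i = .z m ps j k v) ∨ (∃ b v ps, f i = lowO D δ m ps b v) ∨
        ∃ ps j k φ v a, f i = .g m ps j k φ v a

/-- Row BLK: no blue copy of `H`.  Proof: as C4/Blc.lean: a blue copy of `L` without hubs is in one
world or in the gadgets of one hyperedge (`Pc2Statement`); the vertices of a blue copy of `H` on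
the hubs are an independent set with at most `hb` elements. -/
def BlkStatement : Prop :=
  ∀ (n d hr hb s q L₀ t p : ℕ) (H : SimpleGraph (Fin n)) (L : SimpleGraph (Fin d))
    (Bl J I M C : Type) (W : SimpleGraph (Fin q)) (T : Fin q → SimpleGraph (Fin L₀))
    (D : GD H s q Bl J) (δ : M → SO Bl n q L₀ → I) (X : Att q C t), 2 ≤ n → H.Connected →
    3 ≤ d → TwoC (ed L) → L.Connected → QFree L D X → AttOK H hr p W X →
    (∀ Y, Ind H Y → Meets H L Y → hb + 1 ≤ Y.card) → (∀ w, ¬ Emb L (T w)) →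
    (∀ m, Function.Injective (δ m)) → Sparse (n * n) δ →
    ¬ Emb H (cls (FO (h := hr + hb) W T D δ X) (cO hr W X) false)

/-- Row NFK: the host is not Ramsey for `H'`.  Proof: as C4/Nfc.lean. -/
def NfkStatement : Prop :=
  ∀ (n n' d hr hb s q L₀ t p : ℕ) (H : SimpleGraph (Fin n)) (H' : SimpleGraph (Fin n'))
    (L : SimpleGraph (Fin d)) (Bl J I M C : Type) (W : SimpleGraph (Fin q))
    (T : Fin q → SimpleGraph (Fin L₀)) (D : GD H s q Bl J) (δ : M → SO Bl n q L₀ → I)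
    (X : Att q C t), 2 ≤ n → H.Connected → 3 ≤ d → TwoC (ed L) → L.Connected → QFree L D X →
    AttOK H hr p W X → (∀ Y, Ind H Y → Meets H L Y → hb + 1 ≤ Y.card) → (∀ w, ¬ Emb L (T w)) →
    (∀ m, Function.Injective (δ m)) → Sparse (n * n) δ → H'.Connected → Emb H H' →
    ¬ Emb H' H → ¬ Arr (FO (h := hr + hb) W T D δ X) H'

/-! ## Colourings of the host without monochromatic `H` -/

section
variable {n h s q L₀ b₀ t : ℕ} {H : SimpleGraph (Fin n)} {Bl J I M C : Type}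

/-- The copies of `B` in the world `(i, w)` of class `σ`. -/
def CopO {r : ℕ} (B : SimpleGraph (Fin b₀)) (T : Fin q → SimpleGraph (Fin L₀))
    (c : VO H h s q L₀ I M J C → VO H h s q L₀ I M J C → Bool) (i : I) (w : Fin q)
    (σ : QK n r h) (e : Fin b₀ → Fin L₀) : Prop :=
  CopyB B (T w) e ∧ (∀ x k, c (.u k) (.l i w (e x)) = σ.1 k) ∧
    (∀ b, Blow B (fun x y => c (.l i w (e x)) (.l i w (e y))) n (σ.2.1 b) b) ∧
    ∀ b S, σ.2.2 b S = true ↔ CopV H B (fun x y => c (.l i w (e x)) (.l i w (e y))) b S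

/-- Classes chosen for all worlds, and a position in each class. -/
structure Classes (r : ℕ) (B : SimpleGraph (Fin b₀)) (T : Fin q → SimpleGraph (Fin L₀))
    (K' : Fin q → Type) (c : VO H h s q L₀ I M J C → VO H h s q L₀ I M J C → Bool) where
  s : I → Fin q → QK n r h
  two : ∀ i w, r + 1 ≤ ((s i w).2.1 true : ℕ) + (s i w).2.1 false
  big : ∀ i w, BigC (CopO B T c i w (s i w)) (K' w)
  ps : I → Fin q → Fin L₀
  hps : ∀ i w k, c (.u k) (.l i w (ps i w)) = (s i w).1 k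

/-- Homogeneous copies in all worlds of the index `i`; `S` = special vertices. -/
structure Hst {r : ℕ} {B : SimpleGraph (Fin b₀)} {T : Fin q → SimpleGraph (Fin L₀)}
    {K' : Fin q → Type} {c : VO H h s q L₀ I M J C → VO H h s q L₀ I M J C → Bool}
    (Cs : Classes r B T K' c) (i : I) {sp : ℕ} (S : Fin sp → VO H h s q L₀ I M J C) where
  e : Fin q → Fin b₀ → Fin L₀
  cop : ∀ w, CopO B T c i w (Cs.s i w) (e w)
  spe : ∀ w k x y, c (S k) (.l i w (e w x)) = c (S k) (.l i w (e w y))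
  crs : ∀ w w', w ≠ w' → ∀ x y x' y', c (.l i w (e w x)) (.l i w' (e w' x')) =
    c (.l i w (e w y)) (.l i w' (e w' y'))

/-- The kinds `K j` are pairwise adjacent and have the same class at the index `i`, with main
colour `b`. -/
structure Fine (hr hb : ℕ) {r : ℕ} {B : SimpleGraph (Fin b₀)} {T : Fin q → SimpleGraph (Fin L₀)}
    {K' : Fin q → Type} {c : VO H h s q L₀ I M J C → VO H h s q L₀ I M J C → Bool}
    (W : SimpleGraph (Fin q)) (Cs : Classes r B T K' c) (i : I) (K : Fin r → Fin q) (b : Bool) :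
    Prop where
  adj : ∀ j j', j ≠ j' → W.Adj (K j) (K j')
  same : ∀ j j', Cs.s i (K j) = Cs.s i (K j')
  one : ∀ j, ((Cs.s i (K j)).2.1 b : ℕ) = 1
  num : ∀ j, ((Cs.s i (K j)).2.1 (!b) : ℕ) = r
  hub : ∀ j, (univ.filter (fun k => (Cs.s i (K j)).1 k = b)).card = hr
  hub' : ∀ j, (univ.filter (fun k => (Cs.s i (K j)).1 k = !b)).card = hb

end

/-- Row CLA: classes exist.  Proof: as C4/Cla.lean. -/
def ClaStatement : Prop :=
  ∀ (n h hr s q L₀ b₀ t r sp : ℕ) (H : SimpleGraph (Fin n)) (_ : MData H r hr)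
    (Bl J I M C : Type) (W : SimpleGraph (Fin q)) (T : Fin q → SimpleGraph (Fin L₀))
    (K' : Fin q → Type) (D : GD H s q Bl J) (δ : M → SO Bl n q L₀ → I) (X : Att q C t)
    (B : SimpleGraph (Fin b₀)) (c : VO H h s q L₀ I M J C → VO H h s q L₀ I M J C → Bool),
    1 ≤ r → 1 ≤ b₀ → Homog B (Fin q) (QK n r h) (Fin h → Bool) (Fin sp → Bool) T K' →
    (∀ c : Fin b₀ → Fin b₀ → Bool, (∀ x y, c x y = c y x) →
      ∃ A A', r + 1 ≤ A + A' ∧ Blow B c n A true ∧ Blow B c n A' false) →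
    (∀ x y, c x y = c y x) → (∀ b, ¬ Emb H (cls (FO W T D δ X) c b)) →
    Nonempty (Classes r B T K' c)

/-- Row HST.  Proof: as C4/Hst.lean. -/
def HstStatement : Prop :=
  ∀ (n h s q L₀ b₀ r sp : ℕ) (H : SimpleGraph (Fin n)) (J I M C : Type)
    (T : Fin q → SimpleGraph (Fin L₀)) (K' : Fin q → Type) (B : SimpleGraph (Fin b₀))
    (c : VO H h s q L₀ I M J C → VO H h s q L₀ I M J C → Bool),
    Homog B (Fin q) (QK n r h) (Fin h → Bool) (Fin sp → Bool) T K' →
    ∀ (Cs : Classes r B T K' c) (i : I) (S : Fin sp → VO H h s q L₀ I M J C),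
      Nonempty (Hst Cs i S)

/-- Row TON (STA in the host).  Pairwise adjacent kinds with the same class are fine; the cross
colours of homogeneous copies are the main colour, and (T1) a vertex that is not a hub does not
have the other colour on a homogeneous copy. -/
def TonStatement : Prop :=
  ∀ (n d hr hb s q L₀ b₀ t r sp : ℕ) (H : SimpleGraph (Fin n)) (L : SimpleGraph (Fin d))
    (_ : MData H r hr) (X₀ : Finset (Fin n)) (Bl J I M C : Type) (W : SimpleGraph (Fin q))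
    (T : Fin q → SimpleGraph (Fin L₀)) (K' : Fin q → Type) (D : GD H s q Bl J)
    (δ : M → SO Bl n q L₀ → I) (X : Att q C t) (B : SimpleGraph (Fin b₀))
    (c : VO H (hr + hb) s q L₀ I M J C → VO H (hr + hb) s q L₀ I M J C → Bool),
    2 ≤ r → ExB H r hr hb L X₀ B → Ind H X₀ → X₀.card = hb + 1 → (∀ x y, c x y = c y x) →
    (∀ b, ¬ Emb H (cls (FO W T D δ X) c b)) →
    ∀ (Cs : Classes r B T K' c) (i : I) (S : Fin sp → VO H (hr + hb) s q L₀ I M J C)
      (Z : Hst Cs i S) (K : Fin r → Fin q), (∀ j j', j ≠ j' → W.Adj (K j) (K j')) →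
      (∀ j j', Cs.s i (K j) = Cs.s i (K j')) →
      (∃ b, Fine hr hb W Cs i K b) ∧ ∀ b, Fine hr hb W Cs i K b →
        (∀ j j', j ≠ j' → ∀ a a', c (.l i (K j) (Z.e (K j) a)) (.l i (K j') (Z.e (K j') a')) = b)
        ∧ ∀ v j, (∀ k, v ≠ .u k) →
          (∀ a, (FO W T D δ X).Adj v (.l i (K j) (Z.e (K j) a))) →
          ¬ ∀ a, c v (.l i (K j) (Z.e (K j) a)) = !b

/-- Row RU1 (RULE 1).  `v` is a low joined to all lows of the kinds `K j`, `j ≠ j₀`, `A` consists
of lows of kind `K j₀`, which have colour `b` to `v` and to the hubs of colour `b`.  Proof: as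
C4/Ru1.lean (`n + 1` special vertices: `v` and `n` elements of `A`; T1; `v` and the hubs of
colour `b` over `A`, `E j`, `j ≠ j₀`). -/
def Ru1Statement : Prop :=
  ∀ (n d hr hb s q L₀ b₀ t r sp : ℕ) (H : SimpleGraph (Fin n)) (L : SimpleGraph (Fin d))
    (_ : MData H r hr) (X₀ : Finset (Fin n)) (Bl J I M C : Type) (W : SimpleGraph (Fin q))
    (T : Fin q → SimpleGraph (Fin L₀)) (K' : Fin q → Type) (D : GD H s q Bl J)
    (δ : M → SO Bl n q L₀ → I) (X : Att q C t) (B : SimpleGraph (Fin b₀))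
    (c : VO H (hr + hb) s q L₀ I M J C → VO H (hr + hb) s q L₀ I M J C → Bool),
    2 ≤ r → n + 1 ≤ sp → ExB H r hr hb L X₀ B → Ind H X₀ → X₀.card = hb + 1 →
    (∀ x y, c x y = c y x) → (∀ b, ¬ Emb H (cls (FO W T D δ X) c b)) →
    ∀ (Cs : Classes r B T K' c), (∀ (i : I) (S : Fin sp → VO H (hr + hb) s q L₀ I M J C),
        Nonempty (Hst Cs i S)) →
      ∀ (i : I) (K : Fin r → Fin q) (b : Bool), Fine hr hb W Cs i K b →
      ∀ (i' : I) (w : Fin q) (x : Fin L₀) (j₀ : Fin r)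
        (A : Finset (VO H (hr + hb) s q L₀ I M J C)), (∀ j, j ≠ j₀ → W.Adj w (K j)) →
        (∀ a ∈ A, ∃ i'' x', a = .l i'' (K j₀) x') →
        (∀ a ∈ A, ∀ k, (Cs.s i (K j₀)).1 k = b → c (.u k) a = b) →
        (∀ a ∈ A, (FO W T D δ X).Adj (.l i' w x) a ∧ c (.l i' w x) a = b) →
        n ≤ A.card → False

/-! ## RULE 2 -/

/-- RULE 2 for the attachment `X`.  The kinds `K a` are fine at all indices of the hyperedge `m`,
with the same classes; blobs `ν a x` of kind `K a`, type `φ`, sitting with pair `j` at the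
passenger set `(j, k)`.  The slots `(ν a x, v)` do not all have colour `b` to the hubs of colour
`b` and to the passenger `u`, and the same colours `g` to the twins of the attachment of type
`(j, k, φ, v)`.  (An index different from the indices of these slots: `δ m ((b', v'), ps)`,
`v' ≠ v`.) -/
def Rule2 {n s q L₀ b₀ t : ℕ} {H : SimpleGraph (Fin n)} {Bl J I M C : Type} (hr hb : ℕ)
    (W : SimpleGraph (Fin q)) (T : Fin q → SimpleGraph (Fin L₀)) (K' : Fin q → Type)
    (D : GD H s q Bl J) (δ : M → SO Bl n q L₀ → I) (X : Att q C t) (B : SimpleGraph (Fin b₀))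
    (r sp N₂ : ℕ) : Prop :=
  ∀ c : VO H (hr + hb) s q L₀ I M J C → VO H (hr + hb) s q L₀ I M J C → Bool,
    (∀ x y, c x y = c y x) → (∀ b, ¬ Emb H (cls (FO W T D δ X) c b)) →
    ∀ (Cs : Classes r B T K' c), (∀ (i : I) (S : Fin sp → VO H (hr + hb) s q L₀ I M J C),
        Nonempty (Hst Cs i S)) →
      ∀ (m : M) (K : Fin r → Fin q) (b : Bool), (∀ y, Fine hr hb W Cs (δ m y) K b) →
      (∀ y y', Cs.s (δ m y) = Cs.s (δ m y')) →
      ∀ (ps : Fin q → Fin L₀) (j : Fin s) (k : J) (φ : Fin s → H.Dart) (v u : Fin n)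
        (g : Fin t → Bool) (ν : Fin r → Fin N₂ → Bl), D.inr v →
        ((u = (φ j).fst ∧ H.Adj v (D.xs j)) ∨ (u = (φ j).snd ∧ H.Adj v (D.ys j))) →
        (∀ a, Function.Injective (ν a)) →
        (∀ a x, D.kd (ν a x) = K a ∧ D.ty (ν a x) = φ ∧ D.io (ν a x) j = k) →
        (∀ a x y k', (Cs.s (δ m y) (K a)).1 k' = b →
          c (.u k') (lowO D δ m ps (ν a x) v) = b) →
        (∀ a x, c (.z m ps j k u) (lowO D δ m ps (ν a x) v) = b) →
        (∀ a x y, c (.g m ps j k φ v (X.tw y)) (lowO D δ m ps (ν a x) v) = g y) → False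

/-- Attachments with RULE 2 exist. -/
def AttSys {n : ℕ} (H : SimpleGraph (Fin n)) (hr hb p : ℕ) : Prop :=
  ∃ t N₂ : ℕ, ∀ (s q : ℕ) (W : SimpleGraph (Fin q)) (Bl : Type) [Finite Bl],
    LocCol W n (p + 1) → ∃ (C : Type) (X : Att q C t) (sp : ℕ), n + 1 ≤ sp ∧ AttOK H hr p W X ∧
      ∀ (d b₀ L₀ : ℕ) (L : SimpleGraph (Fin d)) (X₀ : Finset (Fin n)) (B : SimpleGraph (Fin b₀))
        (T : Fin q → SimpleGraph (Fin L₀)) (K' : Fin q → Type) (J I M : Type)
        (D : GD H s q Bl J) (δ : M → SO Bl n q L₀ → I), ExB H (p + 1) hr hb L X₀ B →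
        Ind H X₀ → X₀.card = hb + 1 → (∀ m, Function.Injective (δ m)) →
        Rule2 hr hb W T K' D δ X B (p + 1) sp N₂

/-! ## RULE 2 for `p ≥ 2` -/

section
variable {n h s q L₀ p b₀ LR LQ : ℕ} {H : SimpleGraph (Fin n)} {Bl J I M : Type}

/-- The vertex `x` of the window `a` of the complex of type `(j, k, φ, v)`. -/
def winO (m : M) (ps : Fin q → Fin L₀) (j : Fin s) (k : J) (φ : Fin s → H.Dart) (v : Fin n)
    (a : Option (Fin p)) (x : Fin LR) : VO H h s q L₀ I M J (MP3240C.CV p q LR LQ) :=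
  .g m ps j k φ v (.inl (a, x))

/-- The windows `E` of a complex are forced with the main colour `b`. -/
structure ForcedO (B : SimpleGraph (Fin b₀)) (TR : Option (Fin p) → SimpleGraph (Fin LR))
    (D : GD H s q Bl J) (δ : M → SO Bl n q L₀ → I)
    (c : VO H h s q L₀ I M J (MP3240C.CV p q LR LQ) →
      VO H h s q L₀ I M J (MP3240C.CV p q LR LQ) → Bool) (b : Bool) (m : M)
    (ps : Fin q → Fin L₀) (j : Fin s) (k : J) (φ : Fin s → H.Dart) (v : Fin n)
    (E : Option (Fin p) → Fin b₀ → Fin LR) : Prop where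
  inj : ∀ a, Function.Injective (E a)
  hom : ∀ a x y, B.Adj x y → (TR a).Adj (E a x) (E a y)
  blo : ∀ a, Blow B (fun x y => c (winO m ps j k φ v a (E a x)) (winO m ps j k φ v a (E a y)))
    n (p + 1) b
  crs : ∀ a a', a ≠ a' → ∀ x y,
    c (winO m ps j k φ v a (E a x)) (winO m ps j k φ v a' (E a' y)) = !b
  slo : ∀ a β x y, c (winO m ps j k φ v a (E a x)) (lowO D δ m ps β v) =
    c (winO m ps j k φ v a (E a y)) (lowO D δ m ps β v)

end

/-- Row CPK: the windows are forced.  Proof: as C4/Cpf.lean: homogeneous copies `E` in the windows,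
`F` in the special worlds; TON for the special vertices of the `F (K j)`, at most `(p + 1) * b₁`;
LNK. -/
def CpkStatement : Prop :=
  ∀ (n d hr hb s q L₀ b₀ b₁ B₀ LR LQ p sp : ℕ) (H : SimpleGraph (Fin n))
    (L : SimpleGraph (Fin d)) (_ : MData H (p + 1) hr) (X₀ : Finset (Fin n))
    (Bl J I M : Type) (W : SimpleGraph (Fin q)) (T : Fin q → SimpleGraph (Fin L₀))
    (K' : Fin q → Type) (D : GD H s q Bl J) (δ : M → SO Bl n q L₀ → I)
    (TR : Option (Fin p) → SimpleGraph (Fin LR)) (TQ : Fin q → SimpleGraph (Fin LQ))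
    (B : SimpleGraph (Fin b₀)) (B₁ : SimpleGraph (Fin b₁)) (B₂ : SimpleGraph (Fin B₀))
    (c : VO H (hr + hb) s q L₀ I M J (MP3240C.CV p q LR LQ) →
      VO H (hr + hb) s q L₀ I M J (MP3240C.CV p q LR LQ) → Bool),
    2 ≤ p → 1 ≤ b₁ → 1 ≤ B₀ → (p + 1) * b₁ ≤ sp → ExB H (p + 1) hr hb L X₀ B → Ind H X₀ →
    X₀.card = hb + 1 → (∀ x y, c x y = c y x) →
    (∀ b, ¬ Emb H (cls (FO W T D δ (at4 W TR TQ)) c b)) →
    MP3240C.HomC B₂ (Option (Fin p)) ((Fin q → Fin LQ → Bool) × (Bl → Bool)) TR →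
    MP3240C.HomC B₁ (Fin q) Bool TQ →
    (∀ c : Fin B₀ → Fin B₀ → Bool, (∀ x y, c x y = c y x) →
      ∃ A A', p + 2 ≤ A + A' ∧ Blow B₂ c n A true ∧ Blow B₂ c n A' false) →
    (∀ c : Fin b₁ → Fin b₁ → Bool, (∀ x y, c x y = c y x) →
      ∃ A A', p + 1 ≤ A + A' ∧ Blow B₁ c n A true ∧ Blow B₁ c n A' false) →
    ∀ (Cs : Classes (p + 1) B T K' c), (∀ (i : I) (S : Fin sp → VO H (hr + hb) s q L₀ I M J
        (MP3240C.CV p q LR LQ)), Nonempty (Hst Cs i S)) →
      ∀ (i : I) (K : Fin (p + 1) → Fin q) (b : Bool), Fine hr hb W Cs i K b →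
      ∀ (m : M) (ps : Fin q → Fin L₀) (j : Fin s) (k : J) (φ : Fin s → H.Dart) (v : Fin n),
        Near H D.xs D.ys j v → ∃ E, ForcedO B₂ TR D δ c b m ps j k φ v E

/-- Row RU2-4 (RULE 2 for `p ≥ 2`).  Proof: as C4/Ru2.lean: AT4, CPK, RAR for the colours of the
slots to the windows and between each other, JOI. -/
def Ru24Statement : Prop :=
  ∀ (n hr hb p : ℕ) (H : SimpleGraph (Fin n)) (_ : MData H (p + 1) hr), 2 ≤ p → 2 ≤ n →
    Sig H (p + 1) hr → H.Connected → AttSys H hr hb p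

/-- Row RU2-3a (RULE 2 for `p = 1`, `(A*)` holds): twins. -/
def Ru23aStatement : Prop :=
  ∀ (n hr hb : ℕ) (H : SimpleGraph (Fin n)) (_ : MData H 2 hr), 2 ≤ n → Sig H 2 hr →
    H.Connected → AStar H hr → AttSys H hr hb 1

/-- Row RU2-3b (RULE 2 for `p = 1`, `(A*)` fails): twins and pendant worlds. -/
def Ru23bStatement : Prop :=
  ∀ (n hr hb : ℕ) (H : SimpleGraph (Fin n)) (_ : MData H 2 hr), 2 ≤ n → Sig H 2 hr →
    H.Connected → ¬ AStar H hr → AttSys H hr hb 1

/-! ## The host is Ramsey for `H` -/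

/-- Row ARK: the host is Ramsey for `H`.  Proof: as C4/Arc.lean; paper, section 7. -/
def ArkStatement : Prop :=
  ∀ (n d hr hb s q L₀ b₀ t r sp N₂ : ℕ) (H : SimpleGraph (Fin n)) (L : SimpleGraph (Fin d))
    (_ : MData H r hr) (X₀ : Finset (Fin n)) (Bl J I M C : Type) [Finite Bl] [Finite J]
    [Finite I] [Finite M] (W : SimpleGraph (Fin q)) (T : Fin q → SimpleGraph (Fin L₀))
    (K' : Fin q → Type) (D : GD H s q Bl J) (δ : M → SO Bl n q L₀ → I) (X : Att q C t)
    (B : SimpleGraph (Fin b₀)), 2 ≤ r → 1 ≤ s → 1 ≤ b₀ → n + 1 ≤ sp →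
    ExB H r hr hb L X₀ B → Ind H X₀ → X₀.card = hb + 1 → Ind H D.X' → D.X'.card ≤ hb →
    XG H D.X' D.xs D.ys → (∀ b, Function.Injective (D.io b)) →
    D.Rob (2 * s * n * 2 ^ t * N₂) →
    (∀ κ : Fin q → QK n r (hr + hb) × Dam s n t (Fin s → H.Dart),
      ∃ e : Fin r → Fin q, (∀ j j', j ≠ j' → W.Adj (e j) (e j')) ∧
        ∀ j j', κ (e j) = κ (e j')) →
    Homog B (Fin q) (QK n r (hr + hb)) (Fin (hr + hb) → Bool) (Fin sp → Bool) T K' →
    (∀ m, Function.Injective (δ m)) → Sparse (n * n) δ →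
    (∀ (lab : I → Fin q → QK n r (hr + hb) × Fin L₀) (bad : I → Finset M),
      (∀ i, (bad i).card ≤ q * n) →
      ∃ m, (∀ x y, lab (δ m x) = lab (δ m y)) ∧ ∀ x, m ∉ bad (δ m x)) →
    Rule2 hr hb W T K' D δ X B r sp N₂ → Arr (FO (h := hr + hb) W T D δ X) H

/-- Row MNK (`MainStatement` of CO/Base.lean) from the existence of attachments.  Proof: as
C4/Mnc.lean: KW, `inn_proof`, `GrlStatement`, `HypStatement`, ARK, NFK, `qfree_of`, `cpt_proof`
(H30/Cpt.lean). -/
def MnkStatement : Prop :=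
  (∀ (n hr hb p : ℕ) (H : SimpleGraph (Fin n)) (_ : MData H (p + 1) hr), 1 ≤ p → 2 ≤ n →
    Sig H (p + 1) hr → H.Connected → AttSys H hr hb p) → MainStatement

end MP3240CO
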