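import Pool.Agent.Lib.MP_3240be_co.CO.Hgr

/-!
# MP_3240be_co, Theorem CORE: row GRL (homogenisation relative to classes, `L`-free graphs)
-/

set_option autoImplicit false

namespace MP3240CO

open Finset MP3240T MP3240W
open MP3240N (BigC CopyB Homog)
open MP3240N.Grp (CopN BigN RobQ pend BigN.col)

/-- A window graph. -/
theorem windowL {b d : ℕ} {B : SimpleGraph (Fin b)} {L₁ : SimpleGraph (Fin d)}
    (hTc : TwoC (ed L₁)) (hc : L₁.Connected) (hd : 3 ≤ d) (hB : ¬ Emb L₁ B)
    (K : Type) [Finite K] [Nonempty K] :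
    ∃ (L : ℕ) (T : SimpleGraph ℕ), ¬ Emb L₁ T ∧ (∀ x y, T.Adj x y → x < L) ∧
      ∀ κ : ℕ → K, ∃ e : Fin b → ℕ, CopN B T e ∧ ∀ x y, κ (e x) = κ (e y) := by
  obtain ⟨L, T, h1, h2, h3⟩ := robL hTc hc hd (fun h => hB (pend_free hTc hc hd h)) K
  refine ⟨L, T, h1, h2, fun κ => ?_⟩
  obtain ⟨e, he1, he2, he3⟩ := h3 κ
  refine ⟨fun x => e (Sum.inl x), ⟨fun x y hxy => Sum.inl.inj (he1 hxy),
    fun x y hxy => he2 _ _ hxy, fun x => ⟨e (Sum.inr x), he2 _ _ rfl⟩⟩, fun x y => he3 _ _⟩

theorem emb_comap {X V W : Type} {T : SimpleGraph X} {G : SimpleGraph V} {φ : W → V}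
    (hφ : Function.Injective φ) (h : Emb T (G.comap φ)) : Emb T G := by
  obtain ⟨f, hf, he⟩ := h
  exact ⟨fun x => φ (f x), fun x y hxy => hf (hφ hxy), fun x y hxy => he x y hxy⟩

/-- Homogenisation of `k` groups, relative to classes of copies. -/
theorem grl_core {b d : ℕ} (B : SimpleGraph (Fin b)) {L₁ : SimpleGraph (Fin d)}
    (hTc : TwoC (ed L₁)) (hc : L₁.Connected) (hd : 3 ≤ d) (hB : ¬ Emb L₁ B) (Q K₀ : Type) [Finite Q] [Finite K₀] [Nonempty K₀] :
    ∀ (k : ℕ) (K : Type) [Finite K] [Nonempty K], ∃ (L : ℕ) (T : ℕ → SimpleGraph ℕ) (m : ℕ → ℕ),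
      (∀ i, ¬ Emb L₁ (T i)) ∧ (∀ i x y, (T i).Adj x y → x < L) ∧ (∀ i, 0 < m i) ∧
      (∀ i < k, RobQ B Q K₀ (T i) (m i)) ∧
      ∀ 𝒞 : ℕ → (Fin b → ℕ) → Prop, (∀ i < k, ∀ e, 𝒞 i e → CopN B (T i) e) →
        (∀ i < k, BigN (𝒞 i) (m i)) → ∀ (ψ : ℕ → ℕ → K) (χ : ℕ → ℕ → ℕ → ℕ → Bool),
        ∃ e : ℕ → Fin b → ℕ, ∀ i < k, 𝒞 i (e i) ∧ (∀ x y, ψ i (e i x) = ψ i (e i y)) ∧
          ∀ i' < k, i ≠ i' → ∀ x y x' y',
            χ i (e i x) i' (e i' x') = χ i (e i y) i' (e i' y') := by
  classical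
  intro k
  induction k with
  | zero =>
    intro K _ _
    refine ⟨0, fun _ => ⊥, fun _ => 1, ?_, fun i x y h => absurd h id, fun _ => one_pos,
      fun i hi => absurd hi (Nat.not_lt_zero i),
      fun 𝒞 _ _ ψ χ => ⟨fun _ _ => 0, fun i hi => absurd hi (Nat.not_lt_zero i)⟩⟩
    rintro i ⟨f, -, hf⟩
    obtain ⟨v, hv⟩ := nbr_one hc hd ⟨0, by omega⟩
    exact absurd (hf _ _ hv) id
  | succ k ih =>
    intro K _ _
    obtain ⟨L, T, m, hT, hw, hm, hs, hh⟩ := ih (K × (Bool × Bool))
    set M : ℕ := Nat.card (K × (Fin k → Fin L → Bool × Bool)) with hM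
    have hM0 : 0 < M := Nat.card_pos
    have : Nonempty (Fin M) := ⟨⟨0, hM0⟩⟩
    obtain ⟨L', T', hT', hw', hs'⟩ := windowL hTc hc hd hB ((Q → Fin M) × K₀)
    refine ⟨max L L', fun i => if i = k then T' else T i, fun i => if i = k then M else m i,
      ?_, ?_, ?_, ?_, ?_⟩
    · intro i
      by_cases h : i = k
      · simp only [h, if_true]
        exact hT'
      · simp only [h, if_false]
        exact hT i
    · intro i x y hxy
      by_cases h : i = k
      · simp only [h, if_true] at hxy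
        exact lt_of_lt_of_le (hw' x y hxy) (le_max_right _ _)
      · simp only [h, if_false] at hxy
        exact lt_of_lt_of_le (hw i x y hxy) (le_max_left _ _)
    · intro i
      by_cases h : i = k
      · simp only [h, if_true]
        exact hM0
      · simp only [h, if_false]
        exact hm i
    · intro i hi
      by_cases h : i = k
      · simp only [h, if_true]
        exact hs'
      · simp only [h, if_false]
        exact hs i (lt_of_le_of_ne (Nat.lt_succ_iff.1 hi) h)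
    · intro 𝒞 hC hB' ψ χ
      have hCk := hC k (Nat.lt_succ_self k)
      have hBk := hB' k (Nat.lt_succ_self k)
      simp only [if_true] at hCk hBk
      have hCi : ∀ i < k, ∀ e, 𝒞 i e → CopN B (T i) e := by
        intro i hi e he
        have := hC i (hi.trans (Nat.lt_succ_self k)) e he
        simpa only [hi.ne, if_false] using this
      have hBi : ∀ i < k, BigN (𝒞 i) (m i) := by
        intro i hi
        have := hB' i (hi.trans (Nat.lt_succ_self k))
        simpa only [hi.ne, if_false] using this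
      obtain ⟨e', h1, h4⟩ := hBk.col (K := K × (Fin k → Fin L → Bool × Bool))
        (fun w => (ψ k w, fun i y => (χ k w i y, χ i y k w)))
      rcases isEmpty_or_nonempty (Fin b) with hn | ⟨⟨x0⟩⟩
      · obtain ⟨e, he⟩ := hh 𝒞 hCi hBi (fun i y => (ψ i y, (true, true))) χ
        refine ⟨fun i => if i = k then e' else e i, fun i hi => ⟨?_, fun x => hn.elim x,
          fun i' _ _ x => hn.elim x⟩⟩
        by_cases hik : i = k
        · subst hik
          simp only [if_true]
          exact h1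
        · simp only [hik, if_false]
          exact (he i (lt_of_le_of_ne (Nat.lt_succ_iff.1 hi) hik)).1
      obtain ⟨e, he⟩ := hh 𝒞 hCi hBi
        (fun i y => (ψ i y, (χ k (e' x0) i y, χ i y k (e' x0)))) χ
      refine ⟨fun i => if i = k then e' else e i, ?_⟩
      have hlt : ∀ i, i < k → ∀ x', e i x' < L := by
        intro i hi x'
        obtain ⟨y, hy⟩ := (hCi i hi (e i) (he i hi).1).2.2 x'
        exact hw i _ _ hy
      have key : ∀ i, i < k → ∀ x y x', χ k (e' x) i (e i x') = χ k (e' y) i (e i x') ∧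
          χ i (e i x') k (e' x) = χ i (e i x') k (e' y) := by
        intro i hi x y x'
        have h5 := congrArg Prod.snd (h4 x y)
        have h6 := congrFun (congrFun h5 ⟨i, hi⟩) ⟨e i x', hlt i hi x'⟩
        exact ⟨congrArg Prod.fst h6, congrArg Prod.snd h6⟩
      have key2 : ∀ i, i < k → ∀ x' y', χ k (e' x0) i (e i x') = χ k (e' x0) i (e i y') ∧
          χ i (e i x') k (e' x0) = χ i (e i y') k (e' x0) := by
        intro i hi x' y'
        have h5 := congrArg Prod.snd ((he i hi).2.1 x' y')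
        exact ⟨congrArg Prod.fst h5, congrArg Prod.snd h5⟩
      intro i hi
      by_cases hik : i = k
      · subst hik
        simp only [if_true]
        refine ⟨h1, fun x y => congrArg Prod.fst (h4 x y), ?_⟩
        intro i' hi' hne x y x' y'
        have hi'' : i' < i := lt_of_le_of_ne (Nat.lt_succ_iff.1 hi') (Ne.symm hne)
        simp only [hi''.ne, if_false]
        rw [(key i' hi'' x x0 x').1, (key i' hi'' y x0 y').1]
        exact (key2 i' hi'' x' y').1
      · have hi2 : i < k := lt_of_le_of_ne (Nat.lt_succ_iff.1 hi) hik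
        obtain ⟨g1, g2, g3⟩ := he i hi2
        simp only [hik, if_false]
        refine ⟨g1, fun x y => congrArg Prod.fst (g2 x y), ?_⟩
        intro i' hi' hne x y x' y'
        by_cases hik' : i' = k
        · subst hik'
          simp only [if_true]
          rw [(key i hi2 x' x0 x).2, (key i hi2 y' x0 y).2]
          exact (key2 i hi2 x y).2
        · simp only [hik', if_false]
          exact g3 i' (lt_of_le_of_ne (Nat.lt_succ_iff.1 hi') hik') hne x y x' y'


theorem grl_proof : GrlStatement := by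
  classical
  intro b d B L₁ hTc hc hd hB Γ Q K₀ K _ _ _ _ _ _ _
  rcases isEmpty_or_nonempty Γ with hΓ | hΓ
  · refine ⟨0, fun a => hΓ.elim a, fun a => hΓ.elim a, fun a => hΓ.elim a, ?_⟩
    exact ⟨fun a => hΓ.elim a, fun 𝒞 _ _ ψ χ => ⟨fun a => hΓ.elim a, fun a => hΓ.elim a⟩,
      fun a => hΓ.elim a⟩
  obtain ⟨L, T, m, hT, hw, hm, hs, hh⟩ := grl_core B hTc hc hd hB Q K₀ (Nat.card Γ) K
  set idx : Γ → ℕ := fun a => (Finite.equivFin Γ a : ℕ) with hidx
  have hlt : ∀ a, idx a < Nat.card Γ := fun a => Fin.is_lt _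
  have hinj : Function.Injective idx := fun a a' h => (Finite.equivFin Γ).injective (Fin.ext h)
  set back : ℕ → Γ := Function.invFun idx with hback
  have hb : ∀ a, back (idx a) = a := Function.leftInverse_invFun hinj
  -- copies
  have hcop : ∀ (a : Γ) (e : Fin b → Fin L),
      CopyB B ((T (idx a)).comap Fin.val) e → CopN B (T (idx a)) (fun x => (e x : ℕ)) := by
    rintro a e ⟨h1, h2, h3⟩
    refine ⟨fun x y hxy => h1 (Fin.ext hxy), fun x y hxy => h2 x y hxy, fun x => ?_⟩
    obtain ⟨y, hy⟩ := h3 x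
    exact ⟨y, hy⟩
  have hcop' : ∀ (a : Γ) (e : Fin b → ℕ), CopN B (T (idx a)) e →
      ∃ e' : Fin b → Fin L, (∀ x, (e' x : ℕ) = e x) ∧
        CopyB B ((T (idx a)).comap Fin.val) e' := by
    rintro a e ⟨h1, h2, h3⟩
    have hl : ∀ x, e x < L := by
      intro x
      obtain ⟨y, hy⟩ := h3 x
      exact hw _ _ _ hy
    refine ⟨fun x => ⟨e x, hl x⟩, fun x => rfl, fun x y hxy => h1 (congrArg Fin.val hxy),
      fun x y hxy => h2 x y hxy, fun x => ?_⟩
    obtain ⟨y, hy⟩ := h3 x
    exact ⟨⟨y, hw _ _ _ hy.symm⟩, hy⟩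
  refine ⟨L, fun a => (T (idx a)).comap Fin.val, fun a => Fin (m (idx a)),
    fun a h => hT (idx a) (emb_comap Fin.val_injective h), ?_, ?_, ?_⟩
  · -- selection
    intro a ψ₀ cl
    by_contra hcon
    push Not at hcon
    have hcon' : ∀ s : Q, ∃ κ : Fin L → Fin (m (idx a)), ∀ e : Fin b → Fin L,
        (CopyB B ((T (idx a)).comap Fin.val) e ∧ (∀ x y, ψ₀ (e x) = ψ₀ (e y)) ∧ cl e = s) →
        ¬ ∀ x y, κ (e x) = κ (e y) := by
      intro s
      have h := hcon s
      unfold BigC at h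
      push Not at h
      obtain ⟨κ, hκ⟩ := h
      refine ⟨κ, fun e he hc => ?_⟩
      obtain ⟨x, y, hxy⟩ := hκ e he
      exact hxy (hc x y)
    choose κ hκ using hcon'
    obtain ⟨e, he1, he2⟩ := hs (idx a) (hlt a) (fun x => if h : x < L then
      (fun s => κ s ⟨x, h⟩, ψ₀ ⟨x, h⟩) else (fun _ => ⟨0, hm _⟩, Classical.arbitrary K₀))
    obtain ⟨e', h1, h2⟩ := hcop' a e he1
    have h3 : ∀ x y, ((fun s => κ s (e' x), ψ₀ (e' x)) : (Q → Fin (m (idx a))) × K₀) =
        (fun s => κ s (e' y), ψ₀ (e' y)) := by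
      intro x y
      have h4 := he2 x y
      rw [← h1 x, ← h1 y] at h4
      simp only [Fin.is_lt, dif_pos, Fin.eta] at h4
      exact h4
    exact hκ (cl e') e' ⟨h2, fun x y => congrArg Prod.snd (h3 x y), rfl⟩
      fun x y => congrFun (congrArg Prod.fst (h3 x y)) (cl e')
  · -- homogenisation
    intro 𝒞 hC hBig ψ χ
    obtain ⟨e, he⟩ := hh
      (fun i e' => ∃ e : Fin b → Fin L, (∀ x, (e x : ℕ) = e' x) ∧ 𝒞 (back i) e ∧ i = idx (back i))
      (by
        rintro i hi e' ⟨e, h1, h2, h3⟩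
        have h4 := hcop _ e (hC _ e h2)
        rw [← h3] at h4
        have h5 : (fun x => (e x : ℕ)) = e' := funext h1
        rwa [h5] at h4)
      (by
        intro i hi κ
        obtain ⟨a, rfl⟩ : ∃ a, idx a = i := by
          refine ⟨(Finite.equivFin Γ).symm ⟨i, hi⟩, ?_⟩
          simp [hidx]
        obtain ⟨e, h1, h2⟩ := hBig a (fun x => κ x)
        exact ⟨fun x => e x, ⟨e, fun x => rfl, by rw [hb]; exact h1, by rw [hb]⟩, h2⟩)
      (fun i x => if h : x < L then ψ (back i) ⟨x, h⟩ else Classical.arbitrary K)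
      (fun i x i' x' => if h : x < L ∧ x' < L then
        χ (back i) ⟨x, h.1⟩ (back i') ⟨x', h.2⟩ else false)
    choose ε hε using fun a => (he (idx a) (hlt a)).1
    refine ⟨ε, fun a => ⟨?_, ?_, ?_⟩⟩
    · have := (hε a).2.1
      rwa [hb] at this
    · intro x y
      have h1 := (he (idx a) (hlt a)).2.1 x y
      rw [← (hε a).1 x, ← (hε a).1 y] at h1
      simp only [Fin.is_lt, dif_pos, Fin.eta, hb] at h1
      exact h1
    · intro a' hne x y x' y'
      have h1 := (he (idx a) (hlt a)).2.2 (idx a') (hlt a') (fun h => hne (hinj h)) x y x' y'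
      rw [← (hε a).1 x, ← (hε a).1 y, ← (hε a').1 x', ← (hε a').1 y'] at h1
      simp only [Fin.is_lt, and_self, dif_pos, Fin.eta, hb] at h1
      exact h1
  · intro a
    exact ⟨⟨0, hm _⟩⟩


end MP3240CO
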