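import Pool.Agent.Lib.MP_3240be_co.CO.Base
import Pool.Agent.Lib.MP_3240be_co.H43.Inn

/-!
# MP_3240be_co, Theorem CORE, rows SPL and INN
-/

set_option autoImplicit false

namespace MP3240CO

open Pool.Agent.Lib.MP_3240be_co.H36.Chrom (Sparse)

/-- Row SPL. -/
theorem spl_proof : SplStatement := by
  intro g s V M Y δ hδ hs
  have h := MP3240Inn.sparse_part hδ hs (fun (c : Y) (j : Fin s) => (c, j))
    (fun c c' j j' h => congrArg Prod.fst h)
  exact h

/-- Row INN. -/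
theorem inn_proof : InnStatement := by
  intro n s q D Φ _ _ hs hq
  obtain ⟨φ⟩ := (inferInstance : Nonempty Φ)
  have : Nonempty (Fin q) := ⟨⟨0, hq⟩⟩
  obtain ⟨Bl, J, hBl, hJ, kd, ty, io, hio, hsp, hc⟩ := MP3240Inn.inn_proof (n * n) D s (Fin q)
    (Φ × Bool) Unit (φ, true) (φ, false) (fun h => by simpa using congrArg Prod.snd h) hs
  refine ⟨Bl, J, hBl, hJ, kd, fun b => (ty b).1, io, hio, hsp, ?_⟩
  intro lab bad hbad
  obtain ⟨b, hb, -⟩ := hc (fun i => (((lab i).1, true), (lab i).2)) (fun _ => ()) bad hbad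
  refine ⟨b, fun j => ⟨?_, (hb j).2⟩⟩
  have h := (hb j).1
  have h1 : (lab (io b j)).1 = (ty b).1 := congrArg (fun x : (Φ × Bool) × Fin q => x.1.1) h
  have h2 : (lab (io b j)).2 = kd b := congrArg (fun x : (Φ × Bool) × Fin q => x.2) h
  exact Prod.ext h1 h2

end MP3240CO
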