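import Pool.Agent.Lib.MP_3240be_co.CO.Base
import Pool.Agent.Lib.MP_3240be_co.M3.Joi
import Pool.Agent.Lib.MP_3240be_co.M3.Ema
import Pool.Agent.Lib.MP_3240be_co.C4.Rar

/-!
# MP_3240be_co: Theorem CORE, RULE 2 for `χ(H) = 3`, the part without the host (helper64)

Paper: finding 4776, section 6.  `core3a`: twins, `(A*)` holds.  `core3b`: twins and a pendant
world.
-/

set_option autoImplicit false

namespace MP3240CO.R23

open Finset MP3240T MP3240W
open MP3240M (MData AStar)
open Pool.Agent.Lib.MP_3240be_co.H36 (LocCol Blow)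

theorem bne1 : ∀ e b : Bool, e ≠ (!b) → e = b := by decide

theorem bne2 : ∀ e b : Bool, e ≠ b → e = !b := by decide

/-- `n` different elements of a set with at least `n` elements. -/
theorem exists_inj {α : Type} (T : Finset α) (n : ℕ) (hc : n ≤ T.card) :
    ∃ f : Fin n → α, Function.Injective f ∧ ∀ k, f k ∈ T := by
  refine ⟨fun k => (T.equivFin.symm ⟨k, lt_of_lt_of_le k.2 hc⟩).1, ?_,
    fun k => (T.equivFin.symm _).2⟩
  intro k k' hk
  have h1 := T.equivFin.symm.injective (Subtype.ext hk)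
  exact Fin.ext (Fin.mk.inj h1)

/-- The values of a function to `Bool`. -/
theorem split (t : ℕ) (g : Fin t → Bool) (b : Bool) :
    t ≤ (univ.filter (fun k => g k = b)).card + (univ.filter (fun k => g k = !b)).card := by
  have h1 : (univ : Finset (Fin t)) ⊆ univ.filter (fun k => g k = b) ∪
      univ.filter (fun k => g k = !b) := by
    intro k _
    rw [mem_union, mem_filter, mem_filter]
    by_cases h2 : g k = b
    · exact Or.inl ⟨mem_univ _, h2⟩
    · exact Or.inr ⟨mem_univ _, bne2 _ _ h2⟩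
  have h2 := card_le_card h1
  rw [card_univ, Fintype.card_fin] at h2
  exact h2.trans (card_union_le _ _)

/-- The least colour class has at most `n` elements. -/
theorem hr_lt {n hr : ℕ} {H : SimpleGraph (Fin n)} (D : MData H 2 hr) : hr + 1 ≤ n := by
  have h1 := card_le_univ (univ.filter (fun x => D.κ x = none))
  rw [D.cardA, Fintype.card_fin] at h1
  exact h1

/-- The data of RULE 2: `N` slots `L j` of two kinds, a vertex `z`, the hubs `U`, the twins. -/
structure Dat {V : Type} (G : SimpleGraph V) (c : V → V → Bool) (b : Bool) {hr t N : ℕ}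
    (z : V) (U : Fin hr → V) (tw : Fin t → V) (g : Fin t → Bool) (L : Fin 2 → Fin N → V) :
    Prop where
  Li : ∀ j, Function.Injective (L j)
  Ui : Function.Injective U
  ti : Function.Injective tw
  LL : ∀ a a', G.Adj (L 0 a) (L 1 a')
  zL : ∀ j a, G.Adj z (L j a) ∧ c z (L j a) = b
  UL : ∀ k j a, G.Adj (U k) (L j a) ∧ c (U k) (L j a) = b
  tL : ∀ k j a, G.Adj (tw k) (L j a) ∧ c (tw k) (L j a) = g k
  zU : ∀ k, z ≠ U k

/-- Subsets of the slots. -/
theorem Dat.sub {V : Type} {G : SimpleGraph V} {c : V → V → Bool} {b : Bool} {hr t N N' : ℕ}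
    {z : V} {U : Fin hr → V} {tw : Fin t → V} {g : Fin t → Bool} {L : Fin 2 → Fin N → V}
    (h : Dat G c b z U tw g L) (e : Fin 2 → Fin N' → Fin N) (he : ∀ j, Function.Injective (e j)) :
    Dat G c b z U tw g (fun j a => L j (e j a)) where
  Li := fun j => (h.Li j).comp (he j)
  Ui := h.Ui
  ti := h.ti
  LL := fun _ _ => h.LL _ _
  zL := fun _ _ => h.zL _ _
  UL := fun _ _ _ => h.UL _ _ _
  tL := fun _ _ _ => h.tL _ _ _
  zU := h.zU

section

variable {n hr t : ℕ} {H : SimpleGraph (Fin n)} (D : MData H 2 hr) {V : Type}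
  (G : SimpleGraph V) (c : V → V → Bool) (hc : ∀ x y, c x y = c y x)
  (hno : ∀ b, ¬ Emb H (cls G c b))

include D hc hno

/-- JOI for two sets `F false`, `F true` in a colouring. -/
theorem joi2 (b : Bool) (F : Fin 2 → Fin n → V) (T : Finset V)
    (hF : ∀ i, Function.Injective (F i)) (hFF : ∀ u w, G.Adj (F 0 u) (F 1 w) ∧
      c (F 0 u) (F 1 w) = b) (hT : hr < T.card)
    (hTF : ∀ s ∈ T, ∀ i u, G.Adj s (F i u) ∧ c s (F i u) = b) : False := by
  have hcls : ∀ s t, G.Adj s t → c s t = b → (cls G c b).Adj s t :=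
    fun s t h1 h2 => ⟨h1, h2, by rw [hc]; exact h2⟩
  refine hno b (MP3240M.joi_proof n 2 hr H D V (cls G c b) F T hF ?_ hT ?_)
  · have h2c : ∀ j j' : Fin 2, j ≠ j' → (j = 0 ∧ j' = 1) ∨ (j = 1 ∧ j' = 0) := by decide
    intro i j hij u w
    rcases h2c i j hij with ⟨rfl, rfl⟩ | ⟨rfl, rfl⟩
    · exact hcls _ _ (hFF u w).1 (hFF u w).2
    · exact (hcls _ _ (hFF w u).1 (hFF w u).2).symm
  · intro s hs i u
    exact hcls _ _ (hTF s hs i u).1 (hTF s hs i u).2

/-- The slots of different kinds have colour `!b`. -/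
theorem cross {N : ℕ} {b : Bool} {z : V} {U : Fin hr → V} {tw : Fin t → V} {g : Fin t → Bool}
    {L : Fin 2 → Fin N → V} (h : Dat G c b z U tw g L) (hN : n ≤ N) (β : Bool)
    (hβ : ∀ a a', c (L 0 a) (L 1 a') = β) : β = !b := by
  classical
  by_contra hne
  have hb : β = b := bne1 _ _ hne
  subst hb
  refine joi2 D G c hc hno β (fun j a => L j (Fin.castLE hN a)) (insert z (univ.image U)) ?_ ?_
    ?_ ?_
  · exact fun j => (h.Li j).comp (Fin.castLE_injective hN)
  · exact fun u w => ⟨h.LL _ _, hβ _ _⟩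
  · rw [card_insert_of_notMem, card_image_of_injective _ h.Ui, card_univ, Fintype.card_fin]
    · omega
    · intro hm
      obtain ⟨k, _, hk⟩ := mem_image.1 hm
      exact h.zU k hk.symm
  · intro s hs j a
    rcases mem_insert.1 hs with rfl | hs
    · exact h.zL _ _
    · obtain ⟨k, _, rfl⟩ := mem_image.1 hs
      exact h.UL _ _ _

/-- At most `hr` twins have colour `!b` on the slots. -/
theorem few {N : ℕ} {b : Bool} {z : V} {U : Fin hr → V} {tw : Fin t → V} {g : Fin t → Bool}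
    {L : Fin 2 → Fin N → V} (h : Dat G c b z U tw g L) (hN : n ≤ N)
    (hβ : ∀ a a', c (L 0 a) (L 1 a') = !b) :
    (univ.filter (fun k => g k = !b)).card ≤ hr := by
  classical
  by_contra hlt
  refine joi2 D G c hc hno (!b) (fun j a => L j (Fin.castLE hN a))
    ((univ.filter (fun k => g k = !b)).image tw) ?_ ?_ ?_ ?_
  · exact fun j => (h.Li j).comp (Fin.castLE_injective hN)
  · exact fun u w => ⟨h.LL _ _, hβ _ _⟩
  · rw [card_image_of_injective _ h.ti]
    omega
  · intro s hs j a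
    obtain ⟨k, hk, rfl⟩ := mem_image.1 hs
    exact ⟨(h.tL k j _).1, (h.tL k j _).2.trans (mem_filter.1 hk).2⟩

/-- **RULE 2, twins, `(A*)` holds.**  `E j`: `n` vertices of the copy of the kind `j`. -/
theorem core3a (hA : AStar H hr) {N : ℕ} {b : Bool} {z : V} {U : Fin hr → V} {tw : Fin t → V}
    {g : Fin t → Bool} {L : Fin 2 → Fin N → V} (h : Dat G c b z U tw g L) (hN : n ≤ N)
    (ht : n + hr ≤ t) (β : Bool) (hβ : ∀ a a', c (L 0 a) (L 1 a') = β)
    (E : Fin 2 → Fin n → V) (hE : ∀ j, Function.Injective (E j))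
    (hEE : ∀ a a', G.Adj (E 0 a) (E 1 a') ∧ c (E 0 a) (E 1 a') = b)
    (hUE : ∀ k j a, G.Adj (U k) (E j a) ∧ c (U k) (E j a) = b)
    (hLE : ∀ j j' a a', j ≠ j' → G.Adj (L j a) (E j' a') ∧ c (L j a) (E j' a') = b)
    (hLnE : ∀ j a a', L j a ≠ E j a') (htE : ∀ k j a, tw k ≠ E j a)
    (htU : ∀ k s, tw k ≠ U s) : False := by
  classical
  have h1 : β = !b := cross D G c hc hno h hN β hβ
  subst h1
  have h2 := few D G c hc hno h hN hβ
  have h3 := split t g b
  obtain ⟨k, hki, hkb⟩ := exists_inj (univ.filter (fun k => g k = b)) n (by omega)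
  have hcls : ∀ s t, G.Adj s t → c s t = b → (cls G c b).Adj s t :=
    fun s t h1 h2 => ⟨h1, h2, by rw [hc]; exact h2⟩
  let J : Bool → Fin 2 := fun j => if j then 1 else 0
  have hJn : ∀ j, J j ≠ J (!j) := by decide
  refine hno b (MP3240M.ema_proof n hr H hA V (cls G c b) (fun j => E (J j))
    (fun j a => L (J j) (Fin.castLE hN a)) U (fun a => tw (k a)) ?_ ?_ ?_ ?_ ?_ ?_ ?_ ?_ ?_ ?_ ?_
    ?_ ?_)
  · exact fun j => hE _
  · exact fun j => (h.Li _).comp (Fin.castLE_injective hN)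
  · exact h.Ui
  · exact h.ti.comp hki
  · exact fun a a' => hcls _ _ (hEE a a').1 (hEE a a').2
  · exact fun s j a => hcls _ _ (hUE s _ a).1 (hUE s _ a).2
  · exact fun s j a => hcls _ _ (h.UL s _ _).1 (h.UL s _ _).2
  · exact fun s j a => hcls _ _ (h.tL _ _ _).1
      ((h.tL _ _ _).2.trans (mem_filter.1 (hkb s)).2)
  · intro j a a'
    have h4 := hLE _ _ (Fin.castLE hN a) a' (hJn j)
    exact hcls _ _ h4.1 h4.2
  · intro j j' a a' he
    by_cases hj : J j = J j'
    · rw [← hj] at he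
      exact hLnE _ _ _ he
    · exact (hLE _ _ (Fin.castLE hN a) a' hj).1.ne he
  · exact fun a a' => (h.LL _ _).ne
  · exact fun s j a => htE _ _ _
  · exact fun s s' => htU _ _

/-- **RULE 2, twins and a pendant world.**  `Q`: a copy of `B₁` in the pendant world of the kind
`0`, `E`: `n` vertices of the copy of the kind `0`. -/
theorem core3b {N b₁ : ℕ} {b : Bool} {z : V} {U : Fin hr → V} {tw : Fin t → V}
    {g : Fin t → Bool} {L : Fin 2 → Fin N → V} (h : Dat G c b z U tw g L) (hN : n + hr ≤ N)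
    (ht : n + 2 * hr ≤ t) (β : Bool) (hβ : ∀ a a', c (L 0 a) (L 1 a') = β)
    (B₁ : SimpleGraph (Fin b₁)) (hB : ∀ c : Fin b₁ → Fin b₁ → Bool, (∀ x y, c x y = c y x) →
      ∃ A A', 3 ≤ A + A' ∧ Blow B₁ c n A true ∧ Blow B₁ c n A' false)
    (Q : Fin b₁ → V) (hQi : Function.Injective Q)
    (hQ : ∀ x y, B₁.Adj x y → G.Adj (Q x) (Q y)) (γ : Fin t → Bool)
    (htQ : ∀ k x, G.Adj (tw k) (Q x) ∧ c (tw k) (Q x) = γ k) (l : Fin N → Bool)
    (hLQ : ∀ a x, G.Adj (L 0 a) (Q x) ∧ c (L 0 a) (Q x) = l a)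
    (E : Fin n → V) (hE : Function.Injective E)
    (hEQ : ∀ a x, G.Adj (E a) (Q x) ∧ c (E a) (Q x) = b) : False := by
  classical
  have hn := hr_lt D
  have h1 : β = !b := cross D G c hc hno h (by omega) β hβ
  subst h1
  have h2 := few D G c hc hno h (by omega) hβ
  have h3 := split t g b
  -- two parts of colour `!b` in `Q`
  obtain ⟨A, A', hA, hA1, hA2⟩ := hB (fun x y => c (Q x) (Q y)) (fun _ _ => hc _ _)
  have hpart : ∀ e : Bool, (∃ F : Fin 2 → Fin n → Fin b₁, (∀ j, Function.Injective (F j)) ∧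
      ∀ u w, B₁.Adj (F 0 u) (F 1 w) ∧ c (Q (F 0 u)) (Q (F 1 w)) = e) ∨
      ∃ F : Fin 2 → Fin n → Fin b₁, (∀ j, Function.Injective (F j)) ∧
      ∀ u w, B₁.Adj (F 0 u) (F 1 w) ∧ c (Q (F 0 u)) (Q (F 1 w)) = !e := by
    have hbl : ∀ (e : Bool) (m : ℕ), 2 ≤ m → Blow B₁ (fun x y => c (Q x) (Q y)) n m e →
        ∃ F : Fin 2 → Fin n → Fin b₁, (∀ j, Function.Injective (F j)) ∧
          ∀ u w, B₁.Adj (F 0 u) (F 1 w) ∧ c (Q (F 0 u)) (Q (F 1 w)) = e := by
      intro e m hm hb
      obtain ⟨F, hF1, hF2⟩ := hb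
      refine ⟨fun j => F (Fin.castLE hm j), fun j => hF1 _, fun u w => ?_⟩
      exact hF2 _ _ (fun h0 => absurd (Fin.castLE_injective hm h0) (by decide)) u w
    intro e
    rcases (by omega : 2 ≤ A ∨ 2 ≤ A') with h4 | h4
    · cases e
      · exact Or.inr (hbl _ _ h4 hA1)
      · exact Or.inl (hbl _ _ h4 hA1)
    · cases e
      · exact Or.inl (hbl _ _ h4 hA2)
      · exact Or.inr (hbl _ _ h4 hA2)
  have hF : ∃ F : Fin 2 → Fin n → Fin b₁, (∀ j, Function.Injective (F j)) ∧
      ∀ u w, B₁.Adj (F 0 u) (F 1 w) ∧ c (Q (F 0 u)) (Q (F 1 w)) = !b := by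
    rcases hpart b with ⟨F, hF1, hF2⟩ | h4
    · exfalso
      refine joi2 D G c hc hno b (fun j a => Q (F j a)) (univ.image E) ?_ ?_ ?_ ?_
      · exact fun j => hQi.comp (hF1 j)
      · exact fun u w => ⟨hQ _ _ (hF2 u w).1, (hF2 u w).2⟩
      · rw [card_image_of_injective _ hE, card_univ, Fintype.card_fin]
        omega
      · intro s hs j a
        obtain ⟨k, _, rfl⟩ := mem_image.1 hs
        exact hEQ _ _
    · exact h4
  obtain ⟨F, hF1, hF2⟩ := hF
  -- few twins and few slots of colour `!b` towards `Q`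
  have h5 : (univ.filter (fun k => γ k = !b)).card ≤ hr := by
    by_contra hlt
    refine joi2 D G c hc hno (!b) (fun j a => Q (F j a))
      ((univ.filter (fun k => γ k = !b)).image tw) ?_ ?_ ?_ ?_
    · exact fun j => hQi.comp (hF1 j)
    · exact fun u w => ⟨hQ _ _ (hF2 u w).1, (hF2 u w).2⟩
    · rw [card_image_of_injective _ h.ti]
      omega
    · intro s hs j a
      obtain ⟨k, hk, rfl⟩ := mem_image.1 hs
      exact ⟨(htQ k _).1, (htQ k _).2.trans (mem_filter.1 hk).2⟩
  have h6 : (univ.filter (fun a => l a = !b)).card ≤ hr := by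
    by_contra hlt
    refine joi2 D G c hc hno (!b) (fun j a => Q (F j a))
      ((univ.filter (fun a => l a = !b)).image (L 0)) ?_ ?_ ?_ ?_
    · exact fun j => hQi.comp (hF1 j)
    · exact fun u w => ⟨hQ _ _ (hF2 u w).1, (hF2 u w).2⟩
    · rw [card_image_of_injective _ (h.Li 0)]
      omega
    · intro s hs j a
      obtain ⟨k, hk, rfl⟩ := mem_image.1 hs
      exact ⟨(hLQ k _).1, (hLQ k _).2.trans (mem_filter.1 hk).2⟩
  have h7 := split N l b
  obtain ⟨a, hai, hab⟩ := exists_inj (univ.filter (fun a => l a = b)) n (by omega)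
  have h8 : n ≤ ((univ.filter (fun k => g k = b)) \ (univ.filter (fun k => γ k = !b))).card := by
    have h9 := le_card_sdiff (univ.filter (fun k => γ k = !b)) (univ.filter (fun k => g k = b))
    omega
  obtain ⟨k, hki, hkb⟩ := exists_inj _ n h8
  have hk1 : ∀ s, g (k s) = b := fun s => (mem_filter.1 (mem_sdiff.1 (hkb s)).1).2
  have hk2 : ∀ s, γ (k s) = b := by
    intro s
    by_contra h9
    exact (mem_sdiff.1 (hkb s)).2 (mem_filter.2 ⟨mem_univ _, bne2 _ _ h9⟩)
  -- the three sets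
  refine joi2 D G c hc hno b (fun j s => if j = 0 then tw (k s) else L 0 (a s))
    (univ.image (fun s => Q (F 0 s))) ?_ ?_ ?_ ?_
  · have h2c : ∀ j : Fin 2, j = 0 ∨ j = 1 := by decide
    intro j
    rcases h2c j with rfl | rfl
    · exact h.ti.comp hki
    · exact (h.Li 0).comp hai
  · intro u w
    exact ⟨(h.tL _ _ _).1, (h.tL _ _ _).2.trans (hk1 u)⟩
  · have h9 : Function.Injective (fun s => Q (F 0 s)) := hQi.comp (hF1 0)
    rw [card_image_of_injective _ h9, card_univ, Fintype.card_fin]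
    omega
  · intro s hs j u
    obtain ⟨s', _, rfl⟩ := mem_image.1 hs
    have h2c : ∀ j : Fin 2, j = 0 ∨ j = 1 := by decide
    rcases h2c j with rfl | rfl
    · have h9 := htQ (k u) (F 0 s')
      exact ⟨h9.1.symm, by rw [hc]; exact h9.2.trans (hk2 u)⟩
    · have h9 := hLQ (a u) (F 0 s')
      exact ⟨h9.1.symm, by rw [hc]; exact h9.2.trans (mem_filter.1 (hab u)).2⟩

end

end MP3240CO.R23
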