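import Pool.Agent.Lib.MP_3240be_co.CO.Defs
import Pool.Agent.Lib.MP_3240be_co.CO.R23
import Pool.Agent.Lib.MP_3240be_co.CO.At3
import Pool.Agent.Lib.MP_3240be_co.N49.Hb

/-!
# MP_3240be_co: Theorem CORE, rows RU2-3a and RU2-3b (RULE 2 for `χ(H) = 3`, helper64)
-/

set_option autoImplicit false

namespace MP3240CO

open Finset MP3240T MP3240W
open MP3240N (Sig BigC CopyB Homog)
open MP3240M (MData AStar)
open MP3240X (bz)
open Pool.Agent.Lib.MP_3240be_co.H36 (LocCol Blow)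

namespace R23

/-- A nonempty finite set with at most `m` elements is the image of `Fin m`. -/
theorem exists_enum {α : Type} (T : Finset α) (m : ℕ) (hT : T.Nonempty) (hc : T.card ≤ m) :
    ∃ f : Fin m → α, (∀ s ∈ T, ∃ k, f k = s) ∧ ∀ k, f k ∈ T := by
  obtain ⟨d, hd⟩ := hT
  refine ⟨fun k => if hk : (k : ℕ) < T.card then (T.equivFin.symm ⟨k, hk⟩).1 else d, ?_, ?_⟩
  · intro s hs
    refine ⟨⟨T.equivFin ⟨s, hs⟩, lt_of_lt_of_le (T.equivFin ⟨s, hs⟩).2 hc⟩, ?_⟩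
    have h1 : ((T.equivFin ⟨s, hs⟩ : Fin T.card) : ℕ) < T.card := (T.equivFin ⟨s, hs⟩).2
    simp only
    rw [dif_pos h1]
    simp
  · intro k
    simp only
    split_ifs with h
    · exact (T.equivFin.symm ⟨k, h⟩).2
    · exact hd

section
variable {n d hr hb s q L₀ b₀ t sp N₂ : ℕ} {H : SimpleGraph (Fin n)} {L : SimpleGraph (Fin d)}
  {X₀ : Finset (Fin n)} {Bl J I M C : Type} {W : SimpleGraph (Fin q)}
  {T : Fin q → SimpleGraph (Fin L₀)} {K' : Fin q → Type} {D : GD H s q Bl J}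
  {δ : M → SO Bl n q L₀ → I} {X : Att q C t} {B : SimpleGraph (Fin b₀)}
  {c : VO H (hr + hb) s q L₀ I M J C → VO H (hr + hb) s q L₀ I M J C → Bool}

/-- The data of RULE 2 in the host. -/
theorem dat_of (hδ : ∀ m, Function.Injective (δ m)) (m : M) (K : Fin 2 → Fin q) (b : Bool)
    (hadj : ∀ j j', j ≠ j' → W.Adj (K j) (K j')) (ps : Fin q → Fin L₀) (j : Fin s) (k : J)
    (φ : Fin s → H.Dart) (v u : Fin n) (g : Fin t → Bool) (ν : Fin 2 → Fin N₂ → Bl)
    (hv : D.inr v)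
    (hu : (u = (φ j).fst ∧ H.Adj v (D.xs j)) ∨ (u = (φ j).snd ∧ H.Adj v (D.ys j)))
    (hνi : ∀ a, Function.Injective (ν a))
    (hν : ∀ a x, D.kd (ν a x) = K a ∧ D.ty (ν a x) = φ ∧ D.io (ν a x) j = k)
    (U : Fin hr → Fin (hr + hb)) (hUi : Function.Injective U)
    (hcu : ∀ a x k', c (.u (U k')) (lowO D δ m ps (ν a x) v) = b)
    (hcz : ∀ a x, c (.z m ps j k u) (lowO D δ m ps (ν a x) v) = b)
    (hcg : ∀ a x y, c (.g m ps j k φ v (X.tw y)) (lowO D δ m ps (ν a x) v) = g y)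
    (htw : ∀ y, X.att (X.tw y)) (htwi : Function.Injective X.tw) :
    Dat (FO W T D δ X) c b (.z m ps j k u) (fun k' => .u (U k'))
      (fun y => .g m ps j k φ v (X.tw y)) g (fun a x => lowO D δ m ps (ν a x) v) where
  Li := by
    intro a x x' hxx
    unfold lowO at hxx
    injection hxx with h1 _ _
    exact hνi a (congrArg (fun t : SO Bl n q L₀ => t.1.1) (hδ m h1))
  Ui := by
    intro k' k'' hkk
    injection hkk with h1
    exact hUi h1
  ti := by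
    intro y y' hyy
    injection hyy with _ _ _ _ _ _ h7
    exact htwi h7
  LL := by
    intro a a'
    have h1 := hadj 0 1 (by decide)
    rw [← (hν 0 a).1, ← (hν 1 a').1] at h1
    exact adj_ll W T D δ X h1 _ _ _ _
  zL := by
    intro a x
    refine ⟨adj_zb W T D δ X hv m ps (ν a x) ⟨(hν a x).2.2, ?_⟩, hcz a x⟩
    rw [(hν a x).2.1]
    exact hu
  UL := fun k' a x => ⟨adj_ul W T D δ X _ _ _ _, hcu a x k'⟩
  tL := fun y a x => ⟨adj_gb W T D δ X (htw y) hv m ps (ν a x) (hν a x).2.2 (hν a x).2.1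
      (hu.imp And.right And.right),
    hcg a x y⟩
  zU := by
    intro k' he
    cases he

/-- The copies of the kinds `K j` at the index `i`. -/
theorem cop_of (hT : TonStatement) (DM : MData H 2 hr) (hEx : ExB H 2 hr hb L X₀ B)
    (hX₀ : Ind H X₀) (hX₀c : X₀.card = hb + 1) (hc : ∀ x y, c x y = c y x)
    (hno : ∀ b, ¬ Emb H (cls (FO W T D δ X) c b)) (Cs : Classes 2 B T K' c) (i : I)
    (K : Fin 2 → Fin q) (b : Bool) (hf : Fine hr hb W Cs i K b)
    (S : Fin sp → VO H (hr + hb) s q L₀ I M J C) (Z : Hst Cs i S) :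
    ∃ e : Fin 2 → Fin n → Fin L₀, (∀ j, Function.Injective (e j)) ∧
      (∀ a a', c (.l i (K 0) (e 0 a)) (.l i (K 1) (e 1 a')) = b) ∧
      (∀ k j a, (Cs.s i (K j)).1 k = b → c (.u k) (.l i (K j) (e j a)) = b) ∧
      ∀ κ j, (∀ k, S κ ≠ .u k) → (∀ x, (FO W T D δ X).Adj (S κ) (.l i (K j) x)) →
        ∀ a, c (S κ) (.l i (K j) (e j a)) = b := by
  obtain ⟨-, h2⟩ := hT n d hr hb s q L₀ b₀ t 2 sp H L DM X₀ Bl J I M C W T K' D δ X B c le_rfl
    hEx hX₀ hX₀c hc hno Cs i S Z K hf.adj hf.same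
  obtain ⟨h3, h4⟩ := h2 b hf
  have hblow : ∀ j : Fin 2, ∃ g : Fin n → Fin b₀, Function.Injective g := by
    intro j
    obtain ⟨F, hF1, _⟩ := (Z.cop (K j)).2.2.1 b
    have h5 := hf.one j
    exact ⟨F ⟨0, by omega⟩, hF1 _⟩
  choose g hg using hblow
  refine ⟨fun j a => Z.e (K j) (g j a), fun j => ?_, fun a a' => ?_, fun k j a hk => ?_,
    fun κ j h5 h6 a => ?_⟩
  · exact (Z.cop (K j)).1.1.comp (hg j)
  · exact h3 0 1 (by decide) _ _
  · exact ((Z.cop (K j)).2.1 (g j a) k).trans hk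
  · have h7 := h4 (S κ) j h5 (fun a' => h6 _)
    push Not at h7
    obtain ⟨a', ha'⟩ := h7
    exact (Z.spe (K j) κ (g j a) a').trans (bne1 _ _ ha')

end

end R23

open R23

/-- **Row RU2-3a.** -/
theorem ru23a_proof (hT : TonStatement) : Ru23aStatement := by
  classical
  intro n hr hb H DM hn hS hcon hA
  obtain ⟨N₂, hN₂, hbip⟩ := MP3240C.Rar.bip n
  refine ⟨n + hr, N₂, ?_⟩
  intro s q W Bl _ hW
  refine ⟨Fin (n + hr), at3a q (n + hr), 2 * n + 1, by omega,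
    at3a_proof n hr q (n + hr) H W hn hS hcon hW, ?_⟩
  intro d b₀ L₀ L X₀ B T K' J I M D δ hEx hX₀ hX₀c hδ c hc hno Cs hHst m K b hfine hsame ps j k φ
    v u g ν hv hu hνi hν hcu hcz hcg
  -- another index
  obtain ⟨v', hv'⟩ : ∃ v' : Fin n, v' ≠ v := by
    have : Nontrivial (Fin n) := Fin.nontrivial_iff_two_le.2 hn
    exact exists_ne v
  have h0 : 0 < N₂ := by omega
  let y₀ : SO Bl n q L₀ := ((ν 0 ⟨0, h0⟩, v'), ps)
  have hf := hfine y₀
  obtain ⟨U, hUi, hU⟩ := exists_inj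
    (univ.filter (fun k => (Cs.s (δ m y₀) (K 0)).1 k = b)) hr (hf.hub 0).ge
  have hUb : ∀ j' k', (Cs.s (δ m y₀) (K j')).1 (U k') = b := by
    intro j' k'
    rw [hf.same j' 0]
    exact (mem_filter.1 (hU k')).2
  have hD := dat_of (T := T) (X := at3a q (n + hr)) hδ m K b hf.adj ps j k φ v u g ν hv hu hνi hν
    U hUi (fun a x k' => hcu a x y₀ (U k') (hUb a k')) hcz hcg (fun _ => trivial)
    (fun _ _ h => h)
  obtain ⟨e, e', β, he, he', hβ⟩ := hbip (fun x x' =>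
    c (lowO D δ m ps (ν 0 x) v) (lowO D δ m ps (ν 1 x') v))
  let E : Fin 2 → Fin n → Fin N₂ := fun a => if a = 0 then e else e'
  have h2c : ∀ a : Fin 2, a = 0 ∨ a = 1 := by decide
  have hEi : ∀ a, Function.Injective (E a) := by
    intro a
    rcases h2c a with rfl | rfl
    · exact he
    · exact he'
  have hD' := hD.sub E hEi
  -- the special vertices
  obtain ⟨S, hS1, hS2⟩ := exists_enum (univ.image (fun x : Fin 2 × Fin n =>
    (lowO D δ m ps (ν x.1 (E x.1 x.2)) v : VO H (hr + hb) s q L₀ I M J (Fin (n + hr)))))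
    (2 * n + 1) ⟨_, mem_image_of_mem _ (mem_univ (0, ⟨0, by omega⟩))⟩ (by
      refine card_image_le.trans ?_
      rw [card_univ, Fintype.card_prod, Fintype.card_fin, Fintype.card_fin]
      omega)
  obtain ⟨Z⟩ := hHst (δ m y₀) S
  obtain ⟨ε, h1, h2, h3, h4⟩ := cop_of hT DM hEx hX₀ hX₀c hc hno Cs (δ m y₀) K b hf S Z
  refine core3a DM (FO W T D δ (at3a q (n + hr))) c hc hno hA hD' le_rfl le_rfl β hβ
    (fun a x => .l (δ m y₀) (K a) (ε a x)) ?_ ?_ ?_ ?_ ?_ ?_ ?_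
  · intro a x x' hxx
    injection hxx with _ _ h5
    exact h1 a h5
  · exact fun a a' => ⟨adj_ll W T D δ _ (hf.adj 0 1 (by decide)) _ _ _ _, h2 a a'⟩
  · exact fun k' a x => ⟨adj_ul W T D δ _ _ _ _ _, h3 _ a x (hUb a k')⟩
  · intro a a' x x' haa
    have hadj : ∀ y, (FO W T D δ (at3a q (n + hr))).Adj
        (lowO D δ m ps (ν a (E a x)) v : VO H (hr + hb) s q L₀ I M J (Fin (n + hr)))
        (.l (δ m y₀) (K a') y) := by
      intro y
      have h5 := hf.adj a a' haa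
      rw [← (hν a (E a x)).1] at h5
      exact adj_ll W T D δ _ h5 _ _ _ _
    obtain ⟨κ, hκ⟩ := hS1 _ (mem_image_of_mem _ (mem_univ (a, x)))
    have hκ' : S κ = lowO D δ m ps (ν a (E a x)) v := hκ
    have h6 := h4 κ a' (by
      intro k' hk
      rw [hκ'] at hk
      cases hk) (by
      intro y
      rw [hκ']
      exact hadj y) x'
    rw [hκ'] at h6
    exact ⟨hadj _, h6⟩
  · intro a x x' he
    unfold lowO at he
    injection he with h5 _ _
    have h6 : v = v' := congrArg (fun t : SO Bl n q L₀ => t.1.2) (hδ m h5)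
    exact hv' h6.symm
  · intro y a x he
    cases he
  · intro y k' he
    cases he

/-- **Row RU2-3b.** -/
theorem ru23b_proof (hT : TonStatement) : Ru23bStatement := by
  classical
  intro n hr hb H DM hn hS hcon hA
  obtain ⟨N₂, hN₂, hbip⟩ := MP3240C.Rar.bip (n + hr)
  obtain ⟨b₁, B₁, hB₁, hB₁'⟩ := MP3240N.hb_proof n 2 (2 * n ^ 2) (by omega)
  refine ⟨n + 2 * hr, N₂, ?_⟩
  intro s q W Bl _ hW
  obtain ⟨LQ, Q, hQ, hQ'⟩ := robQ b₁ n 2 B₁ ((Fin (n + 2 * hr) → Bool) × (Fin (n + hr) → Bool))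
    le_rfl hB₁
  refine ⟨Fin (n + 2 * hr) ⊕ (Fin q × Fin LQ), at3b (n + 2 * hr) (fun _ : Fin q => Q),
    b₁ + n + 1, by omega,
    at3b_proof n hr q (n + 2 * hr) LQ H W (fun _ => Q) hn hcon hW hA (fun _ => hQ), ?_⟩
  intro d b₀ L₀ L X₀ B T K' J I M D δ hEx hX₀ hX₀c hδ c hc hno Cs hHst m K b hfine hsame ps j k φ
    v u g ν hv hu hνi hν hcu hcz hcg
  have hh := hr_lt DM
  have h0 : 0 < N₂ := by omega
  let y₀ : SO Bl n q L₀ := ((ν 0 ⟨0, h0⟩, v), ps)
  have hf := hfine y₀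
  obtain ⟨U, hUi, hU⟩ := exists_inj
    (univ.filter (fun k => (Cs.s (δ m y₀) (K 0)).1 k = b)) hr (hf.hub 0).ge
  have hUb : ∀ j' k', (Cs.s (δ m y₀) (K j')).1 (U k') = b := by
    intro j' k'
    rw [hf.same j' 0]
    exact (mem_filter.1 (hU k')).2
  let X : Att q (Fin (n + 2 * hr) ⊕ (Fin q × Fin LQ)) (n + 2 * hr) :=
    at3b (n + 2 * hr) (fun _ : Fin q => Q)
  have hD := dat_of (T := T) (X := X) hδ m K b hf.adj ps j k φ v u g ν hv hu hνi hν
    U hUi (fun a x k' => hcu a x y₀ (U k') (hUb a k')) hcz hcg (fun _ => trivial)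
    Sum.inl_injective
  obtain ⟨e, e', β, he, he', hβ⟩ := hbip (fun x x' =>
    c (lowO D δ m ps (ν 0 x) v) (lowO D δ m ps (ν 1 x') v))
  let E : Fin 2 → Fin (n + hr) → Fin N₂ := fun a => if a = 0 then e else e'
  have h2c : ∀ a : Fin 2, a = 0 ∨ a = 1 := by decide
  have hEi : ∀ a, Function.Injective (E a) := by
    intro a
    rcases h2c a with rfl | rfl
    · exact he
    · exact he'
  have hD' := hD.sub E hEi
  -- the copy in the pendant world
  let gw : Fin LQ → VO H (hr + hb) s q L₀ I M J (Fin (n + 2 * hr) ⊕ (Fin q × Fin LQ)) := fun x =>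
    .g m ps j k φ v (.inr (K 0, x))
  obtain ⟨w, hw1, hw2, hw3⟩ := hQ' (fun x => (fun y => c (.g m ps j k φ v (.inl y)) (gw x),
    fun a => c (lowO D δ m ps (ν 0 (E 0 a)) v) (gw x)))
  have hb₁ : 0 < b₁ := by
    by_contra h1
    obtain ⟨A, A', h2, h3, h4⟩ := hB₁' (fun _ _ => true) (fun _ _ => rfl)
    have h5 : ∀ (m : ℕ) (e : Bool), 1 ≤ m → ¬ Blow B₁ (fun _ _ => true) n m e := by
      intro m e hm h
      obtain ⟨F, -, -⟩ := h
      have h6 := (F ⟨0, by omega⟩ ⟨0, by omega⟩).2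
      omega
    rcases (by omega : 1 ≤ A ∨ 1 ≤ A') with h6 | h6
    · exact h5 _ _ h6 h3
    · exact h5 _ _ h6 h4
  -- the special vertices
  obtain ⟨S, hS1, hS2⟩ := exists_enum (univ.image (fun x : Fin b₁ => gw (w x)))
    (b₁ + n + 1) ⟨_, mem_image_of_mem _ (mem_univ ⟨0, hb₁⟩)⟩ (by
      refine card_image_le.trans ?_
      rw [card_univ, Fintype.card_fin]
      omega)
  obtain ⟨Z⟩ := hHst (δ m y₀) S
  obtain ⟨ε, h1, h2, h3, h4⟩ := cop_of hT DM hEx hX₀ hX₀c hc hno Cs (δ m y₀) K b hf S Z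
  refine core3b DM (FO W T D δ X) c hc hno hD' le_rfl le_rfl β hβ B₁ hB₁'
    (fun x => gw (w x)) ?_ ?_ (fun y => c (.g m ps j k φ v (.inl y)) (gw (w ⟨0, hb₁⟩))) ?_
    (fun a => c (lowO D δ m ps (ν 0 (E 0 a)) v) (gw (w ⟨0, hb₁⟩))) ?_
    (fun x => .l (δ m y₀) (K 0) (ε 0 x)) ?_ ?_
  · intro x x' hxx
    injection hxx with _ _ _ _ _ _ h7
    exact hw1 (congrArg Prod.snd (Sum.inr.inj h7))
  · intro x x' hxx
    refine adj_gg W T D δ X ?_ m ps j k φ v (hu.imp And.right And.right)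
    refine (SimpleGraph.fromRel_adj _ _ _).2 ⟨?_, Or.inl ⟨rfl, hw2 x x' hxx⟩⟩
    intro h5
    exact (hw2 x x' hxx).ne (congrArg Prod.snd (Sum.inr.inj h5))
  · intro y x
    refine ⟨adj_gg W T D δ X ?_ m ps j k φ v (hu.imp And.right And.right), ?_⟩
    · refine (SimpleGraph.fromRel_adj _ _ _).2 ⟨?_, Or.inl trivial⟩
      intro h5
      have h6 : (Sum.inl y : Fin (n + 2 * hr) ⊕ (Fin q × Fin LQ)) = Sum.inr (K 0, w x) := h5
      cases h6
    · exact congrFun (congrArg Prod.fst (hw3 x ⟨0, hb₁⟩)) y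
  · intro a x
    refine ⟨?_, congrFun (congrArg Prod.snd (hw3 x ⟨0, hb₁⟩)) a⟩
    have h5 : X.lo (.inr (K 0, w x)) (D.kd (ν 0 (E 0 a))) := (hν 0 (E 0 a)).1.symm
    exact (adj_gl W T D δ X h5 m ps j k φ v _ _).symm
  · intro x x' hxx
    injection hxx with _ _ h5
    exact h1 0 h5
  · intro x x'
    have hadj : ∀ y, (FO W T D δ X).Adj (gw (w x')) (.l (δ m y₀) (K 0) y) := by
      intro y
      have h5 : X.lo (.inr (K 0, w x')) (K 0) := rfl
      exact adj_gl W T D δ X h5 m ps j k φ v _ _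
    obtain ⟨κ, hκ⟩ := hS1 _ (mem_image_of_mem _ (mem_univ x'))
    have hκ' : S κ = gw (w x') := hκ
    have h6 := h4 κ 0 (by
      intro k' hk
      rw [hκ'] at hk
      cases hk) (by
      intro y
      rw [hκ']
      exact hadj y) x
    rw [hκ'] at h6
    exact ⟨(hadj _).symm, by rw [hc]; exact h6⟩

end MP3240CO
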