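import Pool.Agent.Lib.MP_3240be_co.CO.Base
import Pool.Agent.Lib.MP_3240be_co.C4.Kwm

/-!
# MP_3240be_co, board core_modules, row STA (helper94): states and T1

Paper: finding 4776, section 5.
-/

set_option autoImplicit false

namespace MP3240CO

open Finset MP3240T MP3240W
open MP3240M (MData)
open Pool.Agent.Lib.MP_3240be_co.H36 (LocCol Blow)

/-- An independent set on vertices of `T`, the rest by `low`. -/
theorem sta_emb {n : ℕ} {H : SimpleGraph (Fin n)} {V : Type} {G : SimpleGraph V}
    {c : V → V → Bool} {β : Bool} (hc : ∀ x y, c x y = c y x) {X : Finset (Fin n)}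
    (hX : Ind H X) {T : Finset V} (hT : X.card ≤ T.card) (low : Fin n → V)
    (hTl : ∀ s ∈ T, ∀ x, x ∉ X → G.Adj s (low x) ∧ c s (low x) = β)
    (hinj : ∀ x, x ∉ X → ∀ y, y ∉ X → low x = low y → x = y)
    (hadj : ∀ x, x ∉ X → ∀ y, y ∉ X → H.Adj x y →
      G.Adj (low x) (low y) ∧ c (low x) (low y) = β) : Emb H (cls G c β) := by
  classical
  obtain ⟨t, ht1, ht2⟩ := Pool.Agent.Lib.MP_3240be_co.H36.exists_inj T X.card hT
  let f : Fin n → V := fun x => if hx : x ∈ X then t (X.equivFin ⟨x, hx⟩) else low x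
  have hfX : ∀ x, x ∈ X → f x ∈ T := by
    intro x hx
    simp only [f, dif_pos hx]
    exact ht2 _
  have hfl : ∀ x, x ∉ X → f x = low x := by
    intro x hx
    simp only [f, dif_neg hx]
  have hfi : ∀ x, x ∈ X → ∀ y, y ∈ X → f x = f y → x = y := by
    intro x hx y hy hxy
    simp only [f, dif_pos hx, dif_pos hy] at hxy
    exact congrArg Subtype.val (X.equivFin.injective (ht1 hxy))
  refine ⟨f, ?_, ?_⟩
  · intro x y hxy
    by_cases hx : x ∈ X <;> by_cases hy : y ∈ X
    · exact hfi x hx y hy hxy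
    · have h1 := (hTl _ (hfX x hx) y hy).1.ne
      rw [hfl y hy] at hxy
      exact absurd hxy h1
    · have h1 := (hTl _ (hfX y hy) x hx).1.ne
      rw [hfl x hx] at hxy
      exact absurd hxy.symm h1
    · rw [hfl x hx, hfl y hy] at hxy
      exact hinj x hx y hy hxy
  · intro x y hxy
    by_cases hx : x ∈ X <;> by_cases hy : y ∈ X
    · exact absurd hxy (hX x hx y hy)
    · obtain ⟨h1, h2⟩ := hTl _ (hfX x hx) y hy
      rw [← hfl y hy] at h1 h2
      exact ⟨h1, h2, (hc _ _).trans h2⟩
    · obtain ⟨h1, h2⟩ := hTl _ (hfX y hy) x hx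
      rw [← hfl x hx] at h1 h2
      exact ⟨h1.symm, (hc _ _).trans h2, h2⟩
    · obtain ⟨h1, h2⟩ := hadj x hx y hy hxy
      rw [← hfl x hx, ← hfl y hy] at h1 h2
      exact ⟨h1, h2, (hc _ _).trans h2⟩

/-- The two numbers of hubs add up. -/
theorem sta_sum {g : ℕ} (θ : Fin g → Bool) (b : Bool) :
    (univ.filter (fun k => θ k = b)).card + (univ.filter (fun k => θ k = !b)).card = g := by
  have h1 := Finset.card_filter_add_card_filter_not (s := (univ : Finset (Fin g)))
    (fun k => θ k = b)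
  have h2 : (univ.filter (fun k => ¬ θ k = b)) = univ.filter (fun k => θ k = !b) := by
    apply Finset.filter_congr
    intro k _
    cases b <;> cases θ k <;> simp
  rw [h2, Finset.card_univ, Fintype.card_fin] at h1
  exact h1

/-- **Row STA.** -/
theorem sta_proof : StaStatement := by
  intro n d r hr hb b₀ H L D X₀ B V G c E η ρ κ φ θ hr2 hc hno hEx hI₀ hc₀ hE hadj hη hB hBl hρ
    hκ hφ hφG hφc
  classical
  obtain ⟨b, hb1, hb2⟩ := MP3240M.key_kew (ρ := fun _ b => (ρ b : ℕ)) D hr2 hc hno hE hadj hη hB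
    hBl (fun _ => hρ)
  have j₀ : Fin r := ⟨0, by omega⟩
  have hρb : (ρ b : ℕ) = 1 := (hb2 j₀).1
  have hρb' : (ρ (!b) : ℕ) = r := (hb2 j₀).2
  -- `n` vertices in every copy
  have hbl : ∀ _j : Fin r, ∃ F : Fin n → Fin b₀, Function.Injective F := by
    intro j
    obtain ⟨F, hF1, _⟩ := hBl j b
    exact ⟨F ⟨0, by omega⟩, hF1 _⟩
  choose F hF using hbl
  -- a set of vertices joined to all copies in colour `b` has at most `hr` elements
  have hT0 : ∀ T : Finset V, (∀ s ∈ T, ∀ j x, G.Adj s (E j x)) →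
      (∀ s ∈ T, ∀ j x, c s (E j x) = b) → T.card ≤ hr := by
    intro T hT hTc
    by_contra hlt
    push Not at hlt
    refine hno b (MP3240M.key_join D (cls G c b) (fun j u => E j (F j u))
      (fun j => (hE j).comp (hF j)) (fun i i' hii u w => ?_) T hlt (fun s hs i u => ?_))
    · have h1 := (hη i i' (F i u) (F i' w) hii).trans (hb1 i i' hii)
      exact ⟨hadj i i' _ _ hii, h1, by rw [hc]; exact h1⟩
    · exact ⟨hT s hs _ _, hTc s hs _ _, by rw [hc]; exact hTc s hs _ _⟩
  -- the images of the hubs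
  have hfc : ∀ β, ((univ.filter (fun k => θ k = β)).image φ).card =
      (univ.filter (fun k => θ k = β)).card := fun β =>
    Finset.card_image_of_injective _ hφ
  have hfm : ∀ β, ∀ s ∈ (univ.filter (fun k => θ k = β)).image φ, ∀ j x,
      G.Adj s (E j x) ∧ c s (E j x) = β := by
    intro β s hs j x
    obtain ⟨k, hk, rfl⟩ := Finset.mem_image.1 hs
    refine ⟨hφG k j x, ?_⟩
    rw [hφc]
    exact (Finset.mem_filter.1 hk).2
  have hcb : (univ.filter (fun k => θ k = b)).card ≤ hr := by
    rw [← hfc]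
    exact hT0 _ (fun s hs j x => (hfm b s hs j x).1) (fun s hs j x => (hfm b s hs j x).2)
  have hsum := sta_sum θ b
  -- no complete bipartite graph of colour `b` in a copy
  have hkn : ¬ Knn n B (fun x y => c (E j₀ x) (E j₀ y)) b := by
    rintro ⟨e, e', he, he', hee⟩
    have hQ : ∀ i : Option (Fin r), ∃ q : Fin n → V, Function.Injective q ∧
        (i = none → q = fun u => E j₀ (e' u)) ∧
        (i = some j₀ → q = fun u => E j₀ (e u)) ∧
        ∀ j, i = some j → j ≠ j₀ → q = fun u => E j (F j u) := by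
      intro i
      rcases i with _ | j
      · exact ⟨fun u => E j₀ (e' u), (hE j₀).comp he', fun _ => rfl, fun h => (by simp at h),
          fun j h => (by simp at h)⟩
      · by_cases hj : j = j₀
        · subst hj
          exact ⟨fun u => E j (e u), (hE j).comp he, fun h => (by simp at h), fun _ => rfl,
            fun j' h h' => absurd (Option.some.inj h).symm h'⟩
        · refine ⟨fun u => E j (F j u), (hE j).comp (hF j), fun h => (by simp at h),
            fun h => absurd (Option.some.inj h) hj, fun j' h h' => ?_⟩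
          rw [Option.some.inj h]
    choose Q hQ1 hQ2 hQ3 hQ4 using hQ
    have hcr : ∀ j j' x y, j ≠ j' → G.Adj (E j x) (E j' y) ∧ c (E j x) (E j' y) = b :=
      fun j j' x y hjj => ⟨hadj j j' x y hjj, (hη j j' x y hjj).trans (hb1 j j' hjj)⟩
    have hin : ∀ u w, G.Adj (E j₀ (e u)) (E j₀ (e' w)) ∧ c (E j₀ (e u)) (E j₀ (e' w)) = b :=
      fun u w => ⟨hB j₀ _ _ (hee u w).1, (hee u w).2⟩
    have hsw : ∀ {x y : V}, (G.Adj x y ∧ c x y = b) → (G.Adj y x ∧ c y x = b) :=
      fun h => ⟨h.1.symm, (hc _ _).trans h.2⟩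
    have hrep : ∀ i : Option (Fin r), i = none ∨ i = some j₀ ∨ ∃ j, i = some j ∧ j ≠ j₀ := by
      intro i
      rcases i with _ | j
      · exact Or.inl rfl
      · by_cases hj : j = j₀
        · exact Or.inr (Or.inl (by rw [hj]))
        · exact Or.inr (Or.inr ⟨j, rfl, hj⟩)
    refine hno b (MP3240C.parts_emb D hc (Option (Fin r)) (by
      rw [Fintype.card_option, Fintype.card_fin]) Q hQ1 ?_)
    intro i i' hii u w
    rcases hrep i with h1 | h1 | ⟨j, h1, hj⟩ <;> rcases hrep i' with h2 | h2 | ⟨j', h2, hj'⟩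
    · exact absurd (h1.trans h2.symm) hii
    · rw [hQ2 i h1, hQ3 i' h2]
      exact hsw (hin w u)
    · rw [hQ2 i h1, hQ4 i' j' h2 hj']
      exact hcr _ _ _ _ (Ne.symm hj')
    · rw [hQ3 i h1, hQ2 i' h2]
      exact hin u w
    · exact absurd (h1.trans h2.symm) hii
    · rw [hQ3 i h1, hQ4 i' j' h2 hj']
      exact hcr _ _ _ _ (Ne.symm hj')
    · rw [hQ4 i j h1 hj, hQ2 i' h2]
      exact hcr _ _ _ _ hj
    · rw [hQ4 i j h1 hj, hQ3 i' h2]
      exact hcr _ _ _ _ hj
    · rw [hQ4 i j h1 hj, hQ4 i' j' h2 hj']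
      refine hcr _ _ _ _ (fun h => hii ?_)
      rw [h1, h2, h]
  -- the content
  have hκ₀ : κ (!b) X₀ᶜ = true := by
    rcases hEx.ex (fun x y => c (E j₀ x) (E j₀ y)) (fun x y => hc _ _) b with h | h | h
    · exact absurd h hkn
    · exact (hκ j₀ (!b) X₀ᶜ).2 h
    · exfalso
      obtain ⟨X, X₂, hX, hX₂, hlt, hcop, W, hW, hWc⟩ := h
      have h1 : (univ.filter (fun k => θ k = b)).card < X.card := by
        by_contra hcon
        push Not at hcon
        have hg : ∀ a, ∃ g : Fin n → Fin b₀, (∀ x ∈ W a, ∀ y ∈ W a, g x = g y → x = y) ∧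
            ∀ x ∈ W a, ∀ y ∈ W a, H.Adj x y → B.Adj (g x) (g y) ∧
              c (E a (g x)) (E a (g y)) = b := fun a =>
          (hκ a b (W a)).1 ((hκ j₀ b (W a)).2 (hWc a))
        choose g hg1 hg2 using hg
        have hch : ∀ x, ∃ a, x ∉ X → x ∈ W a := by
          intro x
          by_cases hx : x ∈ X
          · exact ⟨j₀, fun h => absurd hx h⟩
          · obtain ⟨a, ha⟩ := hW x hx
            exact ⟨a, fun _ => ha⟩
        choose a ha using hch
        refine hno b (sta_emb hc hX (T := (univ.filter (fun k => θ k = b)).image φ)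
          (by rw [hfc]; exact hcon) (fun x => E (a x) (g (a x) x)) ?_ ?_ ?_)
        · intro s hs x _
          exact hfm b s hs _ _
        · intro x hx y hy hxy
          have hxy' : E (a x) (g (a x) x) = E (a y) (g (a y) y) := hxy
          by_cases haa : a x = a y
          · have h2 := ha y hy
            rw [← haa] at hxy' h2
            exact hg1 (a x) x (ha x hx) y h2 (hE _ hxy')
          · exact absurd hxy' (hadj _ _ _ _ haa).ne
        · intro x hx y hy hxy
          by_cases haa : a x = a y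
          · have h2 := ha y hy
            rw [← haa] at h2
            obtain ⟨h3, h4⟩ := hg2 (a x) x (ha x hx) y h2 hxy
            rw [← haa]
            exact ⟨hB _ _ _ h3, h4⟩
          · exact ⟨hadj _ _ _ _ haa, (hη _ _ _ _ haa).trans (hb1 _ _ haa)⟩
      have h2 : (univ.filter (fun k => θ k = !b)).card < X₂.card := by
        by_contra hcon
        push Not at hcon
        obtain ⟨g, hg1, hg2⟩ := hcop
        refine hno (!b) (sta_emb hc hX₂ (T := (univ.filter (fun k => θ k = !b)).image φ)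
          (by rw [hfc]; exact hcon) (fun x => E j₀ (g x)) ?_ ?_ ?_)
        · intro s hs x _
          exact hfm (!b) s hs _ _
        · intro x hx y hy hxy
          exact hg1 x (Finset.mem_compl.2 hx) y (Finset.mem_compl.2 hy) (hE _ hxy)
        · intro x hx y hy hxy
          obtain ⟨h3, h4⟩ := hg2 x (Finset.mem_compl.2 hx) y (Finset.mem_compl.2 hy) hxy
          exact ⟨hB _ _ _ h3, h4⟩
      omega
  -- a set of vertices joined to one copy in colour `!b` has at most `hb` elements
  have hT1 : ∀ (j : Fin r) (T : Finset V), (∀ s ∈ T, ∀ x, G.Adj s (E j x)) →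
      (∀ s ∈ T, ∀ x, c s (E j x) = !b) → T.card ≤ hb := by
    intro j T hT hTc
    by_contra hlt
    push Not at hlt
    obtain ⟨g, hg1, hg2⟩ := (hκ j (!b) X₀ᶜ).1 hκ₀
    refine hno (!b) (sta_emb hc hI₀ (T := T) (by omega) (fun x => E j (g x)) ?_ ?_ ?_)
    · intro s hs x _
      exact ⟨hT s hs _, hTc s hs _⟩
    · intro x hx y hy hxy
      exact hg1 x (Finset.mem_compl.2 hx) y (Finset.mem_compl.2 hy) (hE _ hxy)
    · intro x hx y hy hxy
      obtain ⟨h3, h4⟩ := hg2 x (Finset.mem_compl.2 hx) y (Finset.mem_compl.2 hy) hxy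
      exact ⟨hB _ _ _ h3, h4⟩
  have hcb' : (univ.filter (fun k => θ k = !b)).card ≤ hb := by
    rw [← hfc]
    exact hT1 j₀ _ (fun s hs x => (hfm (!b) s hs j₀ x).1) (fun s hs x => (hfm (!b) s hs j₀ x).2)
  have hce : (univ.filter (fun k => θ k = !b)).card = hb := by omega
  refine ⟨b, hb1, hρb, hρb', by omega, hce, hκ₀, ?_⟩
  intro s j hsφ hsG hsc
  have h4 := hT1 j (insert s ((univ.filter (fun k => θ k = !b)).image φ)) ?_ ?_
  · rw [Finset.card_insert_of_notMem, hfc, hce] at h4
    · omega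
    · intro hmem
      obtain ⟨k, _, hk⟩ := Finset.mem_image.1 hmem
      exact hsφ k hk.symm
  · intro t ht x
    rcases Finset.mem_insert.1 ht with rfl | ht
    · exact hsG x
    · exact (hfm (!b) t ht j x).1
  · intro t ht x
    rcases Finset.mem_insert.1 ht with rfl | ht
    · exact hsc x
    · exact (hfm (!b) t ht j x).2

end MP3240CO
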