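import Pool.Agent.Lib.MP_3240be_co.CO.Defs

/-!
# MP_3240be_co, Theorem CORE, row TON: the states in the host
-/

set_option autoImplicit false

namespace MP3240CO

open Finset MP3240T MP3240W
open MP3240N (Sig BigC CopyB Homog)
open MP3240M (MData)
open Pool.Agent.Lib.MP_3240be_co.H36 (LocCol Blow)

theorem ton_proof (hSta : StaStatement) : TonStatement := by
  classical
  intro n d hr hb s q L₀ b₀ t r sp H L MD X₀ Bl J I M C W T K' D δ X B c hr2 hEx hI hcard hc hno
    Cs i S Z K hadj hsame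
  have hr0 : 0 < r := by omega
  set E : Fin r → Fin b₀ → VO H (hr + hb) s q L₀ I M J C :=
    fun j a => .l i (K j) (Z.e (K j) a) with hE
  set σ : QK n r (hr + hb) := Cs.s i (K ⟨0, hr0⟩) with hσ
  have hσj : ∀ j, Cs.s i (K j) = σ := fun j => hsame j ⟨0, hr0⟩
  have h1 : ∀ j, Function.Injective (E j) := by
    intro j a a' haa
    injection haa with _ _ h3
    exact (Z.cop (K j)).1.1 h3
  have h2 : ∀ j j' a a', j ≠ j' → (FO W T D δ X).Adj (E j a) (E j' a') :=
    fun j j' a a' hj => adj_ll W T D δ X (hadj j j' hj) _ _ _ _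
  have h3 : ∀ j j' a a', j ≠ j' → c (E j a) (E j' a') =
      decide (∃ a₁ a₂, c (E j a₁) (E j' a₂) = true) := by
    intro j j' a a' hj
    by_cases hh : ∃ a₁ a₂, c (E j a₁) (E j' a₂) = true
    · obtain ⟨a₁, a₂, h4⟩ := hh
      rw [decide_eq_true ⟨a₁, a₂, h4⟩, ← h4]
      exact Z.crs (K j) (K j') (hadj j j' hj).ne a a₁ a' a₂
    · rw [decide_eq_false hh]
      have h5 : ¬ c (E j a) (E j' a') = true := fun h6 => hh ⟨a, a', h6⟩
      simpa using h5
  have h4 : ∀ j a a', B.Adj a a' → (FO W T D δ X).Adj (E j a) (E j a') :=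
    fun j a a' haa => adj_T W T D δ X ((Z.cop (K j)).1.2.1 a a' haa) _
  have h5 : ∀ j b, Blow B (fun a a' => c (E j a) (E j a')) n (σ.2.1 b) b := by
    intro j b
    have h := (Z.cop (K j)).2.2.1 b
    rw [hσj j] at h
    exact h
  have h6 : r + 1 ≤ ((σ.2.1 true : Fin (r + 1)) : ℕ) + σ.2.1 false := Cs.two _ _
  have h7 : ∀ j b S, σ.2.2 b S = true ↔ CopV H B (fun a a' => c (E j a) (E j a')) b S := by
    intro j b S
    have h := (Z.cop (K j)).2.2.2 b S
    rw [hσj j] at h
    exact h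
  have h8 : Function.Injective
      (fun k => (.u k : VO H (hr + hb) s q L₀ I M J C)) := by
    intro k k' hk
    injection hk
  have h9 : ∀ (k : Fin (hr + hb)) j a, (FO W T D δ X).Adj (.u k) (E j a) :=
    fun k j a => adj_ul W T D δ X _ _ _ _
  have h10 : ∀ (k : Fin (hr + hb)) j a, c (.u k) (E j a) = σ.1 k := by
    intro k j a
    have h := (Z.cop (K j)).2.1 a k
    rw [hσj j] at h
    exact h
  obtain ⟨b, g1, g2, g3, g4, g5, _, g7⟩ := hSta n d r hr hb b₀ H L MD X₀ B _ (FO W T D δ X) c E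
    (fun j j' => decide (∃ a₁ a₂, c (E j a₁) (E j' a₂) = true)) σ.2.1 σ.2.2 (fun k => .u k) σ.1
    hr2 hc hno hEx hI hcard h1 h2 h3 h4 h5 h6 h7 h8 h9 h10
  refine ⟨⟨b, hadj, hsame, ?_, ?_, ?_, ?_⟩, ?_⟩
  · intro j; rw [hσj j]; exact g2
  · intro j; rw [hσj j]; exact g3
  · intro j; rw [hσj j]; exact g4
  · intro j; rw [hσj j]; exact g5
  · intro b' hF
    have hbb : b' = b := by
      by_contra hne
      have h11 : b' = !b := Bool.eq_not_of_ne hne
      have h12 := hF.one ⟨0, hr0⟩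
      rw [hσj, h11, g3] at h12
      omega
    subst hbb
    refine ⟨?_, ?_⟩
    · intro j j' hj a a'
      rw [← g1 j j' hj]
      exact h3 j j' a a' hj
    · intro v j hv hva
      exact g7 v j hv hva

end MP3240CO
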