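import Pool.Agent.Lib.MP_3240be_co.CO.Mnk
import Pool.Agent.Lib.MP_3240be_co.CO.Ru23
import Pool.Agent.Lib.MP_3240be_co.CO.Cpk
import Pool.Agent.Lib.MP_3240be_co.CO.At4
import Pool.Agent.Lib.MP_3240be_co.CO.Ton
import Pool.Agent.Lib.MP_3240be_co.CO.Sta
import Pool.Agent.Lib.MP_3240be_co.CO.Grl
import Pool.Agent.Lib.MP_3240be_co.CO.Inn
import Pool.Agent.Lib.MP_3240be_co.N49.Kw
import Pool.Agent.Lib.MP_3240be_co.H43.Hyp

/-!
# MP_3240be_co, Theorem CORE: attachments exist; `MainStatement` from ARK and NFK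
-/

set_option autoImplicit false

namespace MP3240CO

open Finset MP3240T MP3240W
open MP3240N (Sig)
open MP3240M (MData AStar)

theorem att_all (n hr hb p : ℕ) (H : SimpleGraph (Fin n)) (hM : MData H (p + 1) hr)
    (hp : 1 ≤ p) (hn : 2 ≤ n) (hs : Sig H (p + 1) hr) (hc : H.Connected) :
    AttSys H hr hb p := by
  have hT : TonStatement := ton_proof sta_proof
  rcases Nat.lt_or_ge 1 p with h | h
  · exact ru24_proof at4_proof hT n hr hb p H hM h hn hs hc
  · obtain rfl : p = 1 := by omega
    by_cases hA : AStar H hr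
    · exact ru23a_proof hT n hr hb H hM hn hs hc hA
    · exact ru23b_proof hT n hr hb H hM hn hs hc hA

theorem main_of (hA : ArkStatement) (hN : NfkStatement) : MainStatement :=
  mnk_proof hA hN grl_proof inn_proof MP3240N.kw_proof hyp_proof att_all

end MP3240CO
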