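import Pool.Agent.Lib.MP_3240be_co.CO.Base
import Pool.Agent.Lib.MP_3240be_co.N49.Grp
import Pool.Agent.Lib.MP_3240be_co.H43.Pc2

/-!
# MP_3240be_co, Theorem CORE: copies of a graph on the hyperedges of a sparse hypergraph

A 2-connected graph `L` in `hgr δ R` lies in one copy of `R`.
-/

set_option autoImplicit false

namespace MP3240CO

open Finset MP3240T MP3240W
open Pool.Agent.Lib.MP_3240be_co.H36.Chrom (Sparse Leaf)

/-- Copies of `R` on the hyperedges `δ m`. -/
def hgr {V M Y : Type} (δ : M → Y → V) (hδ : ∀ m, Function.Injective (δ m))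
    (R : SimpleGraph Y) : SimpleGraph V where
  Adj x y := ∃ m t t', x = δ m t ∧ y = δ m t' ∧ R.Adj t t'
  symm := ⟨fun _ _ ⟨m, t, t', h1, h2, h3⟩ => ⟨m, t', t, h2, h1, h3.symm⟩⟩
  loopless := ⟨fun _ ⟨m, _, _, h1, h2, h3⟩ => h3.ne (hδ m (h1.symm.trans h2))⟩

/-- Every vertex of a 2-connected graph has a neighbour. -/
theorem nbr_one {d : ℕ} {L : SimpleGraph (Fin d)} (hc : L.Connected) (hd : 3 ≤ d) (u : Fin d) :
    ∃ v, L.Adj u v := by
  have : Nontrivial (Fin d) := Fin.nontrivial_iff_two_le.2 (by omega)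
  exact hc.preconnected.exists_adj_of_nontrivial u

/-- Every vertex of a 2-connected graph has two neighbours. -/
theorem nbr_two {d : ℕ} {L : SimpleGraph (Fin d)} (hT : TwoC (ed L)) (hc : L.Connected)
    (hd : 3 ≤ d) (u : Fin d) : ∃ v w, v ≠ w ∧ L.Adj u v ∧ L.Adj u w := by
  classical
  obtain ⟨v, hv⟩ := nbr_one hc hd u
  by_contra hcon
  push Not at hcon
  have honly : ∀ w, L.Adj u w → w = v := by
    intro w hw
    by_contra hne
    exact hcon w v hne hw hv
  -- a third vertex
  obtain ⟨w, hw⟩ : ∃ w : Fin d, w ∉ ({u, v} : Finset (Fin d)) := by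
    by_contra h
    push Not at h
    have h1 : (univ : Finset (Fin d)).card ≤ ({u, v} : Finset (Fin d)).card :=
      Finset.card_le_card (fun x _ => h x)
    have h2 : ({u, v} : Finset (Fin d)).card ≤ 2 := Finset.card_le_two
    rw [Finset.card_univ, Fintype.card_fin] at h1
    omega
  obtain ⟨w', hw'⟩ := nbr_one hc hd w
  have hne : s(w, w') ≠ s(u, v) := by
    intro h
    have : w ∈ s(u, v) := h ▸ Sym2.mem_mk_left w w'
    rcases Sym2.mem_iff.1 this with h | h
    · exact hw (by simp [h])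
    · exact hw (by simp [h])
  obtain ⟨a, b, hab, ha, hb⟩ := hT {s(u, v)} ((ed L).erase s(u, v)) ⟨_, Finset.mem_singleton_self _⟩
    ⟨s(w, w'), Finset.mem_erase.2 ⟨hne, mem_ed.2 hw'⟩⟩
    (by
      rw [Finset.disjoint_singleton_left]
      exact Finset.notMem_erase _ _)
    (by
      intro e
      by_cases h : e = s(u, v)
      · subst h
        simp [mem_ed.2 hv]
      · simp [h])
  -- the common vertices
  have key : ∀ x, Shares {s(u, v)} ((ed L).erase s(u, v)) x → x ≠ u := by
    rintro x ⟨_, ⟨e', he', hx'⟩⟩ rfl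
    obtain ⟨h1, h2⟩ := Finset.mem_erase.1 he'
    induction e' using Sym2.ind with
    | _ p q =>
      rw [mem_ed] at h2
      rcases Sym2.mem_iff.1 hx' with rfl | rfl
      · exact h1 (by rw [honly q h2])
      · exact h1 (by rw [honly p h2.symm, Sym2.eq_swap])
  have key2 : ∀ x, Shares {s(u, v)} ((ed L).erase s(u, v)) x → x = v := by
    intro x hx
    have h1 := key x hx
    obtain ⟨⟨e, he, hx⟩, -⟩ := hx
    rw [Finset.mem_singleton] at he
    subst he
    rcases Sym2.mem_iff.1 hx with h | h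
    · exact absurd h h1
    · exact h
  exact hab ((key2 a ha).trans (key2 b hb).symm)

/-- A 2-connected graph in `hgr δ R` lies in one copy of `R`. -/
theorem hgr_free {d : ℕ} {L : SimpleGraph (Fin d)} (hT : TwoC (ed L)) (hc : L.Connected)
    (hd : 3 ≤ d) {V M Y : Type} {δ : M → Y → V} (hδ : ∀ m, Function.Injective (δ m))
    (hs : Sparse (d * d) δ) {R : SimpleGraph Y} (h : Emb L (hgr δ hδ R)) : Emb L R := by
  classical
  obtain ⟨f, hf, he⟩ := h
  have hdd : 2 ≤ d * d := by nlinarith
  rcases pc2_aux d L V V V M Y δ id f (fun v => {v}) (fun m => Set.range (δ m)) δ (by omega) hT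
    (nbr_one hc hd) hf Function.injective_id hδ hs
    (by
      intro u v huv
      obtain ⟨m, t, t', h1, h2, -⟩ := he u v huv
      exact Or.inr ⟨m, ⟨t, h1.symm⟩, ⟨t', h2.symm⟩⟩)
    (by
      rintro j j' x hj hj'
      rw [Set.mem_singleton_iff] at hj hj'
      rw [← hj, hj'])
    (by
      rintro m m' x - ⟨t, ht⟩ ⟨t', ht'⟩
      exact ⟨t, t', ht.symm, ht.trans ht'.symm⟩)
    (by
      rintro j m x hj ⟨t, ht⟩
      rw [Set.mem_singleton_iff] at hj
      exact ⟨t, ht.symm, hj.symm.trans ht.symm⟩) with ⟨j, hj⟩ | ⟨m, hm⟩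
  · exfalso
    have h0 : (⟨0, by omega⟩ : Fin d) = ⟨1, by omega⟩ := by
      apply hf
      have h1 := hj ⟨0, by omega⟩
      have h2 := hj ⟨1, by omega⟩
      rw [Set.mem_singleton_iff] at h1 h2
      rw [h1, h2]
    exact absurd (Fin.mk.inj_iff.1 h0) (by norm_num)
  · choose g hg using hm
    refine ⟨g, fun u v huv => hf (by rw [← hg u, ← hg v, huv]), fun u v huv => ?_⟩
    obtain ⟨m', t, t', h1, h2, h3⟩ := he u v huv
    by_cases hmm : m' = m
    · subst hmm
      have e1 : g u = t := hδ m' ((hg u).trans h1)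
      have e2 : g v = t' := hδ m' ((hg v).trans h2)
      rw [e1, e2]
      exact h3
    · exfalso
      have hcard : ({m, m'} : Finset M).card = 2 := Finset.card_pair (fun h => hmm h.symm)
      have hl : Leaf δ {m, m'} m := by
        obtain ⟨a, ha, b, hb, hab, la, lb⟩ := hs {m, m'} (by omega) (by omega)
        by_cases ham : a = m
        · rw [← ham]
          rw [ham] at la ⊢
          exact la
        · by_cases hbm : b = m
          · rw [hbm] at lb
            exact lb
          · exfalso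
            have h4 : a = m' := by
              rcases Finset.mem_insert.1 ha with h | h
              · exact absurd h ham
              · exact Finset.mem_singleton.1 h
            have h5 : b = m' := by
              rcases Finset.mem_insert.1 hb with h | h
              · exact absurd h hbm
              · exact Finset.mem_singleton.1 h
            exact hab (h4.trans h5.symm)
      have h6 := hl m' (by simp) m' (by simp) hmm hmm (g u) t (g v) t' ((hg u).trans h1)
        ((hg v).trans h2)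
      rw [hg u, hg v] at h6
      exact huv.ne (hf h6)

/-- A 2-connected graph in `B` with pendant vertices lies in `B`. -/
theorem pend_free {b d : ℕ} {B : SimpleGraph (Fin b)} {L : SimpleGraph (Fin d)}
    (hT : TwoC (ed L)) (hc : L.Connected) (hd : 3 ≤ d) (h : Emb L (MP3240N.Grp.pend B)) :
    Emb L B := by
  obtain ⟨f, hf, he⟩ := h
  have hin : ∀ u, ∃ x, f u = Sum.inl x := by
    intro u
    rcases hu : f u with x | x
    · exact ⟨x, rfl⟩
    · exfalso
      obtain ⟨v, w, hvw, hv, hw⟩ := nbr_two hT hc hd u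
      have key : ∀ v, L.Adj u v → f v = Sum.inl x := by
        intro v hv
        have h1 := he u v hv
        rw [hu] at h1
        rcases hv' : f v with y | y
        · rw [hv'] at h1
          have : x = y := h1
          rw [this]
        · rw [hv'] at h1
          exact absurd h1 id
      exact hvw (hf ((key v hv).trans (key w hw).symm))
  choose g hg using hin
  refine ⟨g, fun u v huv => hf (by rw [hg u, hg v, huv]), fun u v huv => ?_⟩
  have h1 := he u v huv
  rw [hg u, hg v] at h1
  exact h1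

/-- A copy of a graph on `ℕ`. -/
def pushN {V : Type} (G : SimpleGraph V) (ε : V → ℕ) (hε : Function.Injective ε) :
    SimpleGraph ℕ where
  Adj x y := ∃ a b, x = ε a ∧ y = ε b ∧ G.Adj a b
  symm := ⟨fun _ _ ⟨a, b, h1, h2, h3⟩ => ⟨b, a, h2, h1, h3.symm⟩⟩
  loopless := ⟨fun _ ⟨_, _, h1, h2, h3⟩ => h3.ne (hε (h1.symm.trans h2))⟩

theorem pushN_free {d : ℕ} {L : SimpleGraph (Fin d)} (hc : L.Connected) (hd : 3 ≤ d) {V : Type}
    {G : SimpleGraph V} {ε : V → ℕ} {hε : Function.Injective ε} (h : Emb L (pushN G ε hε)) :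
    Emb L G := by
  obtain ⟨f, hf, he⟩ := h
  have hex : ∀ u, ∃ v : V, f u = ε v := by
    intro u
    obtain ⟨w, hw⟩ := nbr_one hc hd u
    obtain ⟨a, b, h1, -, -⟩ := he u w hw
    exact ⟨a, h1⟩
  choose g hg using hex
  refine ⟨g, fun u v huv => hf (by rw [hg u, hg v, huv]), fun u v huv => ?_⟩
  obtain ⟨a, b, h1, h2, h0⟩ := he u v huv
  have e1 : a = g u := hε (h1.symm.trans (hg u))
  have e2 : b = g v := hε (h2.symm.trans (hg v))
  rw [← e1, ← e2]
  exact h0

/-- A finite graph on an initial segment of `ℕ` which is `L`-free and robust for `R`. -/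
theorem robL {d : ℕ} {L : SimpleGraph (Fin d)} (hT : TwoC (ed L)) (hc : L.Connected)
    (hd : 3 ≤ d) {Y : Type} [Finite Y] {R : SimpleGraph Y} (hR : ¬ Emb L R)
    (K : Type) [Finite K] [Nonempty K] :
    ∃ (N : ℕ) (T : SimpleGraph ℕ), ¬ Emb L T ∧ (∀ x y, T.Adj x y → x < N) ∧
      ∀ κ : ℕ → K, ∃ e : Y → ℕ, Function.Injective e ∧ (∀ x y, R.Adj x y → T.Adj (e x) (e y)) ∧
        ∀ x y, κ (e x) = κ (e y) := by
  classical
  obtain ⟨V, M, hV, hM, δ, hδ, hcol, hsp⟩ :=
    Pool.Agent.Lib.MP_3240be_co.H36.Chrom.good (d * d) Y K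
  have hinj : Function.Injective (fun v : V => ((Finite.equivFin V v : Fin _) : ℕ)) :=
    fun v v' h => (Finite.equivFin V).injective (Fin.ext h)
  refine ⟨Nat.card V, pushN (hgr δ hδ R) _ hinj, fun h => hR (hgr_free hT hc hd hδ
    (fun S h2 hg => hsp S h2 (by omega)) (pushN_free hc hd h)), ?_, ?_⟩
  · rintro x y ⟨a, b, rfl, -, -⟩
    exact Fin.is_lt _
  · intro κ
    obtain ⟨m, hm⟩ := hcol (fun v => κ ((Finite.equivFin V v : Fin _) : ℕ))
    refine ⟨fun t => ((Finite.equivFin V (δ m t) : Fin _) : ℕ), fun t t' h => hδ m (hinj h),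
      fun x y hxy => ?_, hm⟩
    exact ⟨δ m x, δ m y, rfl, rfl, m, x, y, rfl, rfl, hxy⟩

end MP3240CO
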