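import Pool.Agent.Lib.MP_3240be_co.CO.Defs
import Pool.Agent.Lib.MP_3240be_co.H30.Cpt

/-!
# MP_3240be_co, Theorem CORE, rows MNK and FIK

The choice of the constants and of the host; the finite host comes from `cpt_proof`.
-/

set_option autoImplicit false

namespace MP3240CO

open Finset MP3240T MP3240W
open MP3240N (Sig BigC CopyB Homog)
open MP3240M (MData)
open Pool.Agent.Lib.MP_3240be_co.H36 (LocCol Blow)
open Pool.Agent.Lib.MP_3240be_co.H36.Chrom (Sparse)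

/-- A graph with two blow-ups has a vertex. -/
theorem mnk_pos {n b r : ℕ} (x : Fin n) (B : SimpleGraph (Fin b))
    (hBc : ∀ c : Fin b → Fin b → Bool, (∀ x y, c x y = c y x) →
      ∃ A A', r + 1 ≤ A + A' ∧ Blow B c n A true ∧ Blow B c n A' false) : 1 ≤ b := by
  obtain ⟨A, A', h1, h3, h4⟩ := hBc (fun _ _ => true) (fun _ _ => rfl)
  have : 0 < A ∨ 0 < A' := by omega
  rcases this with hA0 | hA0
  · obtain ⟨F, _⟩ := h3
    have := (F ⟨0, hA0⟩ x).isLt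
    omega
  · obtain ⟨F, _⟩ := h4
    have := (F ⟨0, hA0⟩ x).isLt
    omega

theorem mnk_proof (hA : ArkStatement) (hN : NfkStatement) (hG : GrlStatement)
    (hI : InnStatement) (hK : MP3240N.KwStatement) (hH : HypStatement) : MnkStatement := by
  classical
  intro hAtt n d p s hr hb b₀ H D hM X₀ X' xs ys B hp hs hsig hconn hDc hDt hd3 hdn hX₀i hX₀c
    hmin hX'i hX'c hXG hGQ hEx n' H' hconn' hemb hnemb
  have hn2 : 2 ≤ n := by omega
  have x₀ : Fin n := ⟨0, by omega⟩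
  have hb₀ : 1 ≤ b₀ := mnk_pos x₀ B hEx.bl
  -- the attachments
  obtain ⟨t, N₂, hAt⟩ := hAtt n hr hb p H hM hp hn2 hsig hconn
  -- the darts
  haveI : Finite H.Dart := inferInstance
  haveI : Nonempty H.Dart := ⟨⟨(xs ⟨0, hs⟩, ys ⟨0, hs⟩), hXG.adj ⟨0, hs⟩⟩⟩
  -- the kinds
  haveI : Finite (QK n (p + 1) (hr + hb) × Dam s n t (Fin s → H.Dart)) := inferInstance
  haveI : Nonempty (QK n (p + 1) (hr + hb) × Dam s n t (Fin s → H.Dart)) :=
    ⟨((fun _ => true, fun _ => 0, fun _ _ => true), fun _ => none)⟩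
  obtain ⟨q, W, hWl, hWc⟩ := hK (p + 1) n
    (QK n (p + 1) (hr + hb) × Dam s n t (Fin s → H.Dart)) (by omega)
  have hq : 0 < q := by
    obtain ⟨e, _⟩ := hWc (fun _ => ((fun _ => true, fun _ => 0, fun _ _ => true), fun _ => none))
    have := (e ⟨0, by omega⟩).isLt
    omega
  -- the inner hypergraph
  obtain ⟨Bl, J, hBlf, hJf, kd, ty, io, hio, hiosp, hrob⟩ :=
    hI n s q (2 * s * n * 2 ^ t * N₂) (Fin s → H.Dart) hs hq
  -- the attachment
  obtain ⟨C, X, sp, hsp, hXok, hR2⟩ := hAt s q W Bl hWl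
  -- the graphs of the worlds
  obtain ⟨L₀, T, K', hTl, hHo⟩ := hG b₀ d B D hDt hDc hd3 hEx.free (Fin q)
    (QK n (p + 1) (hr + hb)) (Fin (hr + hb) → Bool) (Fin sp → Bool)
  have hL : 0 < L₀ := by
    obtain ⟨s', hs'⟩ := hHo.sel ⟨0, hq⟩ (fun _ _ => true)
      (fun _ => (fun _ => true, fun _ => 0, fun _ _ => true))
    obtain ⟨k₀⟩ := hHo.ne ⟨0, hq⟩
    obtain ⟨e, _⟩ := hs' (fun _ => k₀)
    have := (e ⟨0, by omega⟩).isLt
    omega
  haveI : Nonempty (Fin L₀) := ⟨⟨0, hL⟩⟩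
  haveI := hBlf
  haveI := hJf
  -- a blob
  obtain ⟨b₁, _⟩ := hrob (fun _ => (fun _ => Classical.arbitrary _, ⟨0, hq⟩)) (fun _ => ∅)
    (fun _ => by simp)
  -- the outer hypergraph
  obtain ⟨I, M, hIf, hMf, δ, hδ, hspa, hbad⟩ := hH (n * n) (q * n)
    (SO Bl n q L₀) (Fin q → QK n (p + 1) (hr + hb) × Fin L₀)
    ((b₁, ⟨0, by omega⟩), fun _ => ⟨0, hL⟩) ((b₁, ⟨1, by omega⟩), fun _ => ⟨0, hL⟩)
    (fun e => by
      have h1 := congrArg (fun t : SO Bl n q L₀ => t.1.2.val) e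
      simp at h1)
  let G : GD H s q Bl J := ⟨X', xs, ys, kd, ty, io⟩
  have hQF : QFree D G X := qfree_of (D := G) hGQ hXok hio hiosp
  exact cpt_proof _ (FO (h := hr + hb) W T G δ X) n n' H H'
    (hA n d hr hb s q L₀ b₀ t (p + 1) sp N₂ H D hM X₀ Bl J I M C W T K' G δ X B (by omega) hs
      hb₀ hsp hEx hX₀i hX₀c hX'i hX'c hXG hio hrob hWc hHo hδ hspa hbad
      (hR2 d b₀ L₀ D X₀ B T K' J I M G δ hEx hX₀i hX₀c hδ))
    (hN n n' d hr hb s q L₀ t p H H' D Bl J I M C W T G δ X hn2 hconn hd3 hDt hDc hQF hXok hmin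
      hTl hδ hspa hconn' hemb hnemb)

end MP3240CO
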