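import Pool.Agent.Lib.MP_3240be_co.CO.Base

/-!
# MP_3240be_co, Theorem CORE: row NUM

The minima `σ`, `τ`, and `CoreNumStatement`, `ArbStatement`, `RigStatement` from the rows
`CoreExStatement`, `BplStatement` and `ExcStatement`.
-/

set_option autoImplicit false

namespace MP3240CO

open Finset MP3240T MP3240W
open MP3240N (Sig)
open MP3240M (MData)
open MP3240C (BadS)
open MP3240K (Core IsE)

/-- A least independent set with a given property. -/
theorem exists_least {n : ℕ} (H : SimpleGraph (Fin n)) (P : Finset (Fin n) → Prop)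
    (h : ∃ X, Ind H X ∧ P X) :
    ∃ X, Ind H X ∧ P X ∧ ∀ Y, Ind H Y → P Y → X.card ≤ Y.card := by
  classical
  have hex : ∃ k, ∃ X, Ind H X ∧ P X ∧ X.card = k := by
    obtain ⟨X, h1, h2⟩ := h
    exact ⟨X.card, X, h1, h2, rfl⟩
  obtain ⟨X, h1, h2, h3⟩ := Nat.find_spec hex
  refine ⟨X, h1, h2, fun Y hY hP => ?_⟩
  rw [h3]
  exact Nat.find_min' hex ⟨Y, hY, hP, rfl⟩

/-- A colour class of a proper colouring with `r + 1` colours. -/
theorem exists_class {n r : ℕ} {H : SimpleGraph (Fin n)} (h : H.Colorable (r + 1)) :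
    ∃ X, Ind H X ∧ (H.induce {x | x ∉ X}).Colorable r := by
  classical
  obtain ⟨C⟩ := h
  refine ⟨univ.filter (fun x => C x = Fin.last r), ?_, ?_⟩
  · intro x hx y hy hxy
    exact C.valid hxy ((mem_filter.1 hx).2.trans (mem_filter.1 hy).2.symm)
  · have hl : ∀ x : {x | x ∉ univ.filter (fun x => C x = Fin.last r)}, C x.1 ≠ Fin.last r := by
      rintro ⟨x, hx⟩ he
      exact hx (mem_filter.2 ⟨mem_univ _, he⟩)
    refine ⟨SimpleGraph.Coloring.mk (fun x => (C x.1).castPred (hl x)) ?_⟩
    intro x y hxy he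
    exact C.valid (show H.Adj x.1 y.1 from hxy) (Fin.castPred_inj.1 he)

/-- The data of an independent set with `r`-colourable complement. -/
theorem mdata_of {n r : ℕ} {H : SimpleGraph (Fin n)} {Y : Finset (Fin n)} (hY : Ind H Y)
    (hc : (H.induce {x | x ∉ Y}).Colorable r) {h : ℕ} (hh : Y.card = h + 1) :
    Nonempty (MData H r h) := by
  classical
  obtain ⟨C⟩ := hc
  refine ⟨⟨fun x => if hx : x ∈ Y then none else some (C ⟨x, hx⟩), ?_, ?_⟩⟩
  · intro i j hij
    by_cases hi : i ∈ Y <;> by_cases hj : j ∈ Y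
    · exact absurd hij (hY i hi j hj)
    · simp only [hi, hj, dif_pos, dif_neg, not_false_eq_true]
      exact fun h => nomatch h
    · simp only [hi, hj, dif_pos, dif_neg, not_false_eq_true]
      exact fun h => nomatch h
    · simp only [hi, hj, dif_neg, not_false_eq_true]
      intro he
      exact C.valid (show (H.induce {x | x ∉ Y}).Adj ⟨i, hi⟩ ⟨j, hj⟩ from hij)
        (Option.some.inj he)
  · rw [← hh]
    congr 1
    ext x
    simp only [mem_filter, mem_univ, true_and]
    by_cases hx : x ∈ Y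
    · simp only [hx, dif_pos]
    · simp only [hx, dif_neg, not_false_eq_true, iff_false]
      exact fun h => nomatch h

/-- The least size of such a set. -/
theorem sig_of {n r h : ℕ} {H : SimpleGraph (Fin n)}
    (hm : ∀ Y, Ind H Y → (H.induce {x | x ∉ Y}).Colorable r → h + 1 ≤ Y.card) : Sig H r h := by
  classical
  intro κ hκ
  refine hm _ ?_ ?_
  · intro x hx y hy hxy
    exact hκ x y hxy ((mem_filter.1 hx).2.trans (mem_filter.1 hy).2.symm)
  · have hl : ∀ x : {x | x ∉ univ.filter (fun x => κ x = none)}, (κ x.1).isSome := by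
      rintro ⟨x, hx⟩
      rw [Option.isSome_iff_ne_none]
      exact fun he => hx (mem_filter.2 ⟨mem_univ _, he⟩)
    refine ⟨SimpleGraph.Coloring.mk (fun x => (κ x.1).get (hl x)) ?_⟩
    intro x y hxy he
    apply hκ x.1 y.1 hxy
    rw [← Option.some_get (hl x), ← Option.some_get (hl y), he]

/-- A core has no proper colouring with `r` colours. -/
theorem core_not_colorable {n d r : ℕ} {H : SimpleGraph (Fin n)} {L : SimpleGraph (Fin d)}
    (hL : Core H r L) : ¬ L.Colorable r := by
  rintro ⟨C⟩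
  obtain ⟨v⟩ := hL.con.nonempty
  obtain ⟨S, -, hS, -⟩ := hL.heavy v
  exact hS ⟨C, fun a _ b _ hab => C.valid hab⟩

/-- Homomorphic graphs. -/
theorem colorable_of_hom {V W : Type} {G : SimpleGraph V} {G' : SimpleGraph W} {r : ℕ}
    (f : V → W) (hf : ∀ a b, G.Adj a b → G'.Adj (f a) (f b)) (h : G'.Colorable r) :
    G.Colorable r := by
  obtain ⟨C⟩ := h
  exact ⟨SimpleGraph.Coloring.mk (fun x => C (f x)) (fun hxy => C.valid (hf _ _ hxy))⟩

/-- A set with `r`-colourable complement meets all copies of a core. -/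
theorem meets_of_colorable {n d r : ℕ} {H : SimpleGraph (Fin n)} {L : SimpleGraph (Fin d)}
    (hL : Core H r L) {Y : Finset (Fin n)} (hc : (H.induce {x | x ∉ Y}).Colorable r) :
    Meets H L Y := by
  intro f hf
  by_contra hcon
  push Not at hcon
  exact core_not_colorable hL (colorable_of_hom (G' := H.induce {x | x ∉ Y})
    (fun i => ⟨f i, hcon i⟩) (fun a b hab => hf.2 a b hab) hc)

/-- Row NUM, first part. -/
theorem coreNum_proof (hC : CoreExStatement) (hB : BplStatement) : CoreNumStatement := by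
  classical
  intro n d r H L X X₂ hr hcon hnr hr1 hL hX hX₂ hF hN hlt
  obtain ⟨Y, hY, hYc, hYm⟩ := exists_least H (fun Y => (H.induce {x | x ∉ Y}).Colorable r)
    (exists_class hr1)
  obtain ⟨Z, hZ, hZc, hZm⟩ := exists_least H (fun Z => Meets H L Z)
    ⟨Y, hY, meets_of_colorable hL hYc⟩
  -- both sets are nonempty
  have hY1 : 0 < Y.card := by
    rw [card_pos, nonempty_iff_ne_empty]
    intro h0
    apply hnr
    exact colorable_of_hom (G' := H.induce {x | x ∉ Y}) (fun x => ⟨x, by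
      show x ∉ Y
      rw [h0]
      exact notMem_empty x⟩) (fun a b hab => hab) hYc
  have hZ1 : 0 < Z.card := by
    obtain ⟨f, hf1, hf2⟩ := hL.emb
    obtain ⟨i, hi⟩ := hZc f ⟨hf1, hf2⟩
    exact card_pos.2 ⟨_, hi⟩
  obtain ⟨hs, hhs⟩ : ∃ a, Y.card = a + 1 := ⟨Y.card - 1, by omega⟩
  obtain ⟨ht, hht⟩ : ∃ a, Z.card = a + 1 := ⟨Z.card - 1, by omega⟩
  obtain ⟨D⟩ := mdata_of hY hYc hhs
  have hlt' := hlt Y Z hY hZ hYc hZc
  obtain ⟨b₀, B, hEx⟩ := hB n d r hs ht H L Z X X₂ (by omega) hL hZc hX hX₂ (by omega) hF hN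
  exact hC n d r hs ht b₀ H L D Z B hr (sig_of fun Y' h1 h2 => hhs ▸ hYm Y' h1 h2) hcon hL hZ hZc
    hht (fun X' h1 h2 => hht ▸ hZm X' h1 h2) hEx

/-- Row NUM, Corollary 1. -/
theorem arb_proof (hC : CoreNumStatement) (hE : ExcStatement) : ArbStatement := by
  classical
  intro n r H hr hcon hnr hr1 hκ
  obtain ⟨κ, hκ⟩ := hκ
  obtain ⟨d, L, hL⟩ := hE n r H hr hnr
  obtain ⟨Y, hY, hYc, hYm⟩ := exists_least H (fun Y => (H.induce {x | x ∉ Y}).Colorable r)
    (exists_class hr1)
  refine hC n d r H L ∅ Y hr hcon hnr hr1 hL ?_ hY ?_ ?_ ?_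
  · intro x hx
    exact absurd hx (notMem_empty _)
  · refine ⟨fun a => univ.filter (fun x => κ x = a), fun x _ => ⟨κ x, by simp⟩, fun a => ?_⟩
    have h1 := hκ a
    have h2 : {x | x ∈ univ.filter (fun x => κ x = a)} = {x | κ x = a} := by
      ext x
      simp
    rw [h2]
    exact h1
  · rintro ⟨φ, hφ, -⟩
    exact core_not_colorable hL (colorable_of_hom φ hφ hYc)
  · intro Y' Z hY' hZ hY'c hZc
    have h1 := hYm Y' hY' hY'c
    have h2 : 0 < Z.card := by
      obtain ⟨f, hf1, hf2⟩ := hL.emb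
      obtain ⟨i, hi⟩ := hZc f ⟨hf1, hf2⟩
      exact card_pos.2 ⟨_, hi⟩
    rw [card_empty]
    omega

/-- A graph all of whose edges contain `α` is acyclic. -/
theorem acyclic_star {V : Type} (G : SimpleGraph V) (α : V)
    (h : ∀ x y, G.Adj x y → x = α ∨ y = α) : G.IsAcyclic := by
  classical
  -- it is enough to consider edges at `α`
  have key : ∀ w, G.Adj α w → G.IsBridge s(α, w) := by
    intro w hw
    rw [SimpleGraph.isBridge_iff]
    intro hre
    obtain ⟨p⟩ := hre.symm
    cases p with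
    | nil => exact hw.ne rfl
    | @cons _ y _ hxy _ =>
      rw [SimpleGraph.deleteEdges_adj] at hxy
      obtain ⟨h1, h2⟩ := hxy
      apply h2
      have h3 : y = α := by
        rcases h _ _ h1 with h4 | h4
        · exact absurd h4.symm hw.ne
        · exact h4
      subst h3
      exact Sym2.eq_swap
  rw [SimpleGraph.isAcyclic_iff_forall_adj_isBridge]
  intro v w hvw
  rcases h v w hvw with rfl | rfl
  · exact key w hvw
  · rw [Sym2.eq_swap]
    exact key v hvw.symm

/-- Row NUM, Corollary 2. -/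
theorem rig_proof (hC : CoreNumStatement) : RigStatement := by
  classical
  intro n d r H L hr hcon hnr hr1 hL hrig
  obtain ⟨Y, hY, hYc, hYm⟩ := exists_least H (fun Y => (H.induce {x | x ∉ Y}).Colorable r)
    (exists_class hr1)
  obtain ⟨Z, hZ, hZc, hZm⟩ := exists_least H (fun Z => Meets H L Z)
    ⟨Y, hY, meets_of_colorable hL hYc⟩
  have hY1 : Y.Nonempty := by
    rw [nonempty_iff_ne_empty]
    intro h0
    apply hnr
    exact colorable_of_hom (G' := H.induce {x | x ∉ Y}) (fun x => ⟨x, by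
      show x ∉ Y
      rw [h0]
      exact notMem_empty x⟩) (fun a b hab => hab) hYc
  obtain ⟨α, hα⟩ := hY1
  refine hC n d r H L (Y.erase α) Z hr hcon hnr hr1 hL ?_ hZ ?_ ?_ ?_
  · intro x hx y hy
    exact hY x (mem_of_mem_erase hx) y (mem_of_mem_erase hy)
  · obtain ⟨C⟩ := hYc
    let κ : Fin n → Fin r := fun x => if hx : x ∉ Y then C ⟨x, hx⟩ else ⟨0, by omega⟩
    have hκ : ∀ x y, H.Adj x y → x ∉ Y → y ∉ Y → κ x ≠ κ y := by
      intro x y hxy hx hy
      simp only [κ, dif_pos hx, dif_pos hy]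
      exact C.valid (show (H.induce {x | x ∉ Y}).Adj ⟨x, hx⟩ ⟨y, hy⟩ from hxy)
    refine ⟨fun a => univ.filter (fun x => x ∉ Y.erase α ∧ κ x = a), fun x hx => ⟨κ x, by
      simp only [mem_filter, mem_univ, true_and, and_true]
      exact hx⟩, fun a => ?_⟩
    have hedge : ∀ x y, H.Adj x y → x ∉ Y.erase α → y ∉ Y.erase α → κ x = κ y →
        x = α ∨ y = α := by
      intro x y hxy hx hy he
      by_contra hcon2
      push Not at hcon2
      refine hκ x y hxy (fun h => hx (mem_erase.2 ⟨hcon2.1, h⟩))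
        (fun h => hy (mem_erase.2 ⟨hcon2.2, h⟩)) he
    by_cases hαa : κ α = a
    · refine acyclic_star _ ⟨α, ?_⟩ ?_
      · show α ∈ univ.filter (fun x => x ∉ Y.erase α ∧ κ x = a)
        simp only [mem_filter, mem_univ, true_and]
        exact ⟨notMem_erase _ _, hαa⟩
      · rintro ⟨x, hx⟩ ⟨y, hy⟩ hxy
        have hx' := (mem_filter.1 (show x ∈ univ.filter _ from hx)).2
        have hy' := (mem_filter.1 (show y ∈ univ.filter _ from hy)).2
        rcases hedge x y hxy hx'.1 hy'.1 (hx'.2.trans hy'.2.symm) with h | h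
        · exact Or.inl (Subtype.ext h)
        · exact Or.inr (Subtype.ext h)
    · have h0 : ∀ x y, ¬ (H.induce {x | x ∈ univ.filter (fun x => x ∉ Y.erase α ∧ κ x = a)}).Adj
          x y := by
        rintro ⟨x, hx⟩ ⟨y, hy⟩ hxy
        have hx' := (mem_filter.1 (show x ∈ univ.filter _ from hx)).2
        have hy' := (mem_filter.1 (show y ∈ univ.filter _ from hy)).2
        rcases hedge x y hxy hx'.1 hy'.1 (hx'.2.trans hy'.2.symm) with h | h
        · exact hαa (h ▸ hx'.2)
        · exact hαa (h ▸ hy'.2)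
      rw [SimpleGraph.isAcyclic_iff_forall_adj_isBridge]
      intro v w hvw
      exact absurd hvw (h0 v w)
  · intro hfo
    -- transport to `Fin m`
    let e : {x : Fin n | x ∉ Z} ≃ Fin (Fintype.card {x : Fin n | x ∉ Z}) := Fintype.equivFin _
    let R : SimpleGraph (Fin (Fintype.card {x : Fin n | x ∉ Z})) :=
      (H.induce {x | x ∉ Z}).comap e.symm
    have hRH : Emb R H := ⟨fun i => (e.symm i).1, fun i j hij =>
      e.symm.injective (Subtype.ext hij), fun i j hij => hij⟩
    have hfo' : MP3240TW.Folds L R := by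
      refine MP3240TW.Folds.mono hfo ⟨e, e.injective, fun a b hab => ?_⟩
      show (H.induce {x | x ∉ Z}).Adj (e.symm (e a)) (e.symm (e b))
      rw [e.symm_apply_apply, e.symm_apply_apply]
      exact hab
    obtain ⟨f, hf1, hf2⟩ := hrig _ R hRH hfo'
    obtain ⟨i, hi⟩ := hZc (fun i => (e.symm (f i)).1) ⟨fun i j hij =>
      hf1 (e.symm.injective (Subtype.ext hij)), fun i j hij => hf2 i j hij⟩
    exact (e.symm (f i)).2 hi
  · intro Y' Z' hY' hZ' hY'c hZ'c
    have h1 := hYm Y' hY' hY'c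
    have h2 := hZm Z' hZ' hZ'c
    rw [card_erase_of_mem hα]
    have h3 : 0 < Y.card := card_pos.2 ⟨α, hα⟩
    omega

end MP3240CO
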