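import Pool.Agent.Lib.MP_3240be_co.CO.Base
import Pool.Agent.Lib.MP_3240be_co.H36c.Tht

/-!
# MP_3240be_co, Theorem CORE: row THT
-/

set_option autoImplicit false

namespace MP3240CO

open Finset MP3240T MP3240W

/-- Row THT. -/
theorem tht_proof : ThtStatement := by
  intro n d t L T₀ hL hc hd hT
  obtain ⟨N, Θ, h1, h2⟩ := MP3240Tht.tht T₀ (n + 1) d (by omega)
  refine ⟨N, Θ, fun h => hT (h1 d L (by omega) le_rfl hL ?_ h), ?_⟩
  · intro u
    have : Nontrivial (Fin d) := Fin.nontrivial_iff_two_le.2 (by omega)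
    exact hc.preconnected.exists_adj_of_nontrivial u
  · intro c hc b
    rcases h2 c hc b with h | h
    · exact Or.inl h
    · exact Or.inr fun F hF => h n F hF (by omega)

end MP3240CO
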